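import Pool.Agent.Helper64.TS.PolyUnion

/-!
TS-11. Countable groups: descent to a countable subfield.

Proof. `G = {g_0, g_1, ...}`. Choose `i_0, i_1, ...` with `PolyLe (ρ i_k) (ρ i_(k+1))` and `g_k ∈ H i_(k+1)` (as in
`LinData.exists_ge`; `PolyLe.refl`, `PolyLe.trans` in `Helper58/GI/Tower.lean`). Let `K₀` be the subfield generated by
the countable set of all entries of `ρ i_k g` and `(ρ i_k g)⁻¹`, `g ∈ H i_k`, and all coefficients of the
polynomials (chosen once) in the `PolyIn` relations between `ρ i_k` and `ρ i_l`, `k ≤ l`: `Subfield.closure` of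
a countable set is countable (search Mathlib: `Subfield.closure` / `Cardinal` / `Countable`; or write `K₀` as the
image of the countable fraction field / as the union of an increasing sequence of countable sets). For
`g ∈ H i_k` the matrix `ρ i_k g` has entries in `K₀`, and so has its inverse: this gives
`ρ' k : H i_k →* GL (Fin (n i_k)) K₀` with `ρ i_k = (map of K₀ → K) ∘ ρ' k`; the polynomials lie in the image of
`MvPolynomial _ K₀`, and the relations hold over `K₀` because `K₀ → K` is injective. The new index set is `ℕ` (as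
`ULift ℕ : Type w`); the kernel of `ρ' k` is the kernel of `ρ i_k`.
-/

set_option autoImplicit false

namespace Pool.Agent.Helper64.TS

open Pool.Agent.Helper65.TH Pool.Agent.Helper58.GI Pool.Agent.Helper58.AR

universe u w

private theorem ts_restrict {K : Type u} [Field K] (K₀ : Subfield K) {H : Type w} [Group H] {n : ℕ}
    (ρ : H →* GL (Fin n) K)
    (hρ : ∀ (h : H) (a b : Fin n), (ρ h : Matrix (Fin n) (Fin n) K) a b ∈ K₀) :
    ∃ ρ' : H →* GL (Fin n) K₀, ∀ h s, ((ent (ρ' h) s : K₀) : K) = ent (ρ h) s := by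
  have h1 : ∀ (h : H) (a b : Fin n), (ρ h : Matrix (Fin n) (Fin n) K) a b =
      ((Matrix.of fun a b => (⟨(ρ h : Matrix (Fin n) (Fin n) K) a b, hρ h a b⟩ : K₀) :
        Matrix (Fin n) (Fin n) K₀) a b : K) := fun _ _ _ => rfl
  let M : H →* Matrix (Fin n) (Fin n) K₀ :=
    { toFun := fun h => Matrix.of fun a b => ⟨(ρ h : Matrix (Fin n) (Fin n) K) a b, hρ h a b⟩
      map_one' := by
        ext a b
        rw [← h1 1 a b, map_one, Units.val_one, Matrix.one_apply, Matrix.one_apply]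
        split_ifs
        · rfl
        · rfl
      map_mul' := by
        intro g h
        ext a b
        rw [← h1 (g * h) a b, map_mul, Units.val_mul, Matrix.mul_apply, Matrix.mul_apply,
          AddSubmonoidClass.coe_finsetSum]
        exact Finset.sum_congr rfl fun c _ => rfl }
  refine ⟨M.toHomUnits, fun h s => ?_⟩
  rcases s with ⟨a, b⟩ | ⟨a, b⟩
  · rfl
  · have h2 : ((M.toHomUnits h)⁻¹ : GL (Fin n) K₀) = M.toHomUnits h⁻¹ := (map_inv _ _).symm
    have h3 : ((ρ h)⁻¹ : GL (Fin n) K) = ρ h⁻¹ := (map_inv _ _).symm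
    show ((((M.toHomUnits h)⁻¹ : GL (Fin n) K₀) : Matrix (Fin n) (Fin n) K₀) a b : K) =
      (((ρ h)⁻¹ : GL (Fin n) K) : Matrix (Fin n) (Fin n) K) a b
    rw [h2, h3]
    rfl

private theorem ts_polyIn {K : Type u} [Field K] (K₀ : Subfield K) {H : Type w} [Group H] {n m : ℕ}
    {ρ : H →* GL (Fin n) K} {σ : H →* GL (Fin m) K} {ρ' : H →* GL (Fin n) K₀}
    {σ' : H →* GL (Fin m) K₀} (h1 : ∀ h s, ((ent (ρ' h) s : K₀) : K) = ent (ρ h) s)
    (h2 : ∀ h s, ((ent (σ' h) s : K₀) : K) = ent (σ h) s)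
    (P : Fin m → Fin m → MvPolynomial ((Fin n × Fin n) ⊕ (Fin n × Fin n)) K)
    (hP : ∀ h a b, (σ h : Matrix (Fin m) (Fin m) K) a b = MvPolynomial.eval (ent (ρ h)) (P a b))
    (hc : ∀ a b x, x ∈ (P a b).coeffs → x ∈ K₀) : PolyIn ρ' σ' := by
  have h3 : ∀ a b, ∃ Q : MvPolynomial ((Fin n × Fin n) ⊕ (Fin n × Fin n)) K₀,
      MvPolynomial.map K₀.subtype Q = P a b := by
    intro a b
    have h4 : P a b ∈ Set.range (MvPolynomial.map K₀.subtype) := by
      rw [MvPolynomial.mem_range_map_iff_coeffs_subset]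
      intro x hx
      exact ⟨⟨x, hc a b x hx⟩, rfl⟩
    exact h4
  choose Q hQ using h3
  refine ⟨Q, fun h a b => ?_⟩
  apply Subtype.ext
  have h4 := h2 h (Sum.inl (a, b))
  have h5 : K₀.subtype (MvPolynomial.eval (ent (ρ' h)) (Q a b)) =
      MvPolynomial.eval (ent (ρ h)) (P a b) := by
    rw [MvPolynomial.map_eval, hQ]
    have h6 : (K₀.subtype ∘ ent (ρ' h)) = ent (ρ h) := funext fun s => h1 h s
    rw [h6]
  exact (h4.trans (hP h a b)).trans h5.symm

private theorem ts_seq {K : Type u} [Field K] {G : Type w} [Group G] [Countable G]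
    (H : ℕ → Subgroup G) (n : ℕ → ℕ) (ρ : ∀ k, H k →* GL (Fin (n k)) K) (cov : ∀ g, ∃ k, g ∈ H k)
    (ker : ∀ k (T : Finset G), (∀ t ∈ T, t ∈ H k) →
      {h : H k | (h : G) ∈ Subgroup.closure (T : Set G) ∧ ρ k h = 1}.Finite)
    (hle : ∀ k, PolyLe (ρ k) (ρ (k + 1))) : ∃ K₀ : Subfield K, Countable K₀ ∧ PolyUnion K₀ G := by
  have hle' : ∀ k, ∃ (h : H k ≤ H (k + 1))
      (P : Fin (n (k + 1)) → Fin (n (k + 1)) →
        MvPolynomial ((Fin (n k) × Fin (n k)) ⊕ (Fin (n k) × Fin (n k))) K)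
      (Q : Fin (n k) → Fin (n k) →
        MvPolynomial ((Fin (n (k + 1)) × Fin (n (k + 1))) ⊕ (Fin (n (k + 1)) × Fin (n (k + 1)))) K),
      (∀ x a b, (((ρ (k + 1)).comp (Subgroup.inclusion h)) x :
        Matrix (Fin (n (k + 1))) (Fin (n (k + 1))) K) a b = MvPolynomial.eval (ent (ρ k x)) (P a b)) ∧
      (∀ x a b, (ρ k x : Matrix (Fin (n k)) (Fin (n k)) K) a b =
        MvPolynomial.eval (ent (((ρ (k + 1)).comp (Subgroup.inclusion h)) x)) (Q a b)) := by
    intro k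
    obtain ⟨h, ⟨P, hP⟩, ⟨Q, hQ⟩⟩ := hle k
    exact ⟨h, P, Q, hP, hQ⟩
  choose hsub P Q hP hQ using hle'
  let S1 : Set K := ⋃ k, ⋃ h : H k, ⋃ a, ⋃ b, {(ρ k h : Matrix (Fin (n k)) (Fin (n k)) K) a b}
  let S2 : Set K := ⋃ k, ⋃ a, ⋃ b, ((P k a b).coeffs : Set K)
  let S3 : Set K := ⋃ k, ⋃ a, ⋃ b, ((Q k a b).coeffs : Set K)
  have c1 : S1.Countable := Set.countable_iUnion fun k => Set.countable_iUnion fun h =>
    Set.countable_iUnion fun a => Set.countable_iUnion fun b => Set.countable_singleton _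
  have c2 : S2.Countable := Set.countable_iUnion fun k => Set.countable_iUnion fun a =>
    Set.countable_iUnion fun b => Finset.countable_toSet _
  have c3 : S3.Countable := Set.countable_iUnion fun k => Set.countable_iUnion fun a =>
    Set.countable_iUnion fun b => Finset.countable_toSet _
  have cS : (S1 ∪ S2 ∪ S3).Countable := (c1.union c2).union c3
  have hcl : S1 ∪ S2 ∪ S3 ⊆ (Subfield.closure (S1 ∪ S2 ∪ S3) : Set K) := Subfield.subset_closure
  have hK : Countable (Subfield.closure (S1 ∪ S2 ∪ S3)) := by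
    rw [← Cardinal.mk_le_aleph0_iff]
    refine (Subfield.cardinalMk_closure_le_max _).trans (max_le ?_ le_rfl)
    rw [Cardinal.mk_le_aleph0_iff]
    exact cS.to_subtype
  have e1 : ∀ k (h : H k) a b, (ρ k h : Matrix (Fin (n k)) (Fin (n k)) K) a b ∈
      Subfield.closure (S1 ∪ S2 ∪ S3) := by
    intro k h a b
    refine hcl (Or.inl (Or.inl ?_))
    exact Set.mem_iUnion.mpr ⟨k, Set.mem_iUnion.mpr ⟨h, Set.mem_iUnion.mpr ⟨a, Set.mem_iUnion.mpr
      ⟨b, rfl⟩⟩⟩⟩
  have e2 : ∀ k a b x, x ∈ (P k a b).coeffs → x ∈ Subfield.closure (S1 ∪ S2 ∪ S3) := by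
    intro k a b x hx
    refine hcl (Or.inl (Or.inr ?_))
    exact Set.mem_iUnion.mpr ⟨k, Set.mem_iUnion.mpr ⟨a, Set.mem_iUnion.mpr ⟨b, hx⟩⟩⟩
  have e3 : ∀ k a b x, x ∈ (Q k a b).coeffs → x ∈ Subfield.closure (S1 ∪ S2 ∪ S3) := by
    intro k a b x hx
    refine hcl (Or.inr ?_)
    exact Set.mem_iUnion.mpr ⟨k, Set.mem_iUnion.mpr ⟨a, Set.mem_iUnion.mpr ⟨b, hx⟩⟩⟩
  refine ⟨Subfield.closure (S1 ∪ S2 ∪ S3), hK, ?_⟩
  generalize Subfield.closure (S1 ∪ S2 ∪ S3) = K₀ at e1 e2 e3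
  choose ρ' hρ' using fun k => ts_restrict K₀ (ρ k) (e1 k)
  have hsucc : ∀ k, PolyLe (ρ' k) (ρ' (k + 1)) := fun k =>
    ⟨hsub k, ts_polyIn K₀ (σ := (ρ (k + 1)).comp (Subgroup.inclusion (hsub k))) (hρ' k)
      (fun h s => hρ' (k + 1) (Subgroup.inclusion (hsub k) h) s) (P k) (hP k) (e2 k),
      ts_polyIn K₀ (ρ := (ρ (k + 1)).comp (Subgroup.inclusion (hsub k)))
      (fun h s => hρ' (k + 1) (Subgroup.inclusion (hsub k) h) s) (hρ' k) (Q k) (hQ k) (e3 k)⟩
  have hmono : ∀ k l, k ≤ l → PolyLe (ρ' k) (ρ' l) := by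
    intro k l hkl
    induction l, hkl using Nat.le_induction with
    | base => exact PolyLe.refl _
    | succ l _ ih => exact ih.trans (hsucc l)
  refine ⟨ULift ℕ, fun k => H k.down, fun k => n k.down, fun k => ρ' k.down, ?_, ?_, ?_⟩
  · intro g
    obtain ⟨k, hk⟩ := cov g
    exact ⟨⟨k⟩, hk⟩
  · intro k T hT
    refine (ker k.down T hT).subset ?_
    rintro h ⟨h1, h2⟩
    refine ⟨h1, ?_⟩
    apply ent_injective
    funext s
    rw [← hρ' k.down h s, h2]
    have h3 : ∀ s, ((ent (1 : GL (Fin (n k.down)) K₀) s : K₀) : K) = ent (1 : GL (Fin (n k.down)) K) s := by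
      intro s
      rcases s with ⟨a, b⟩ | ⟨a, b⟩
      · simp only [ent, Sum.elim_inl, Units.val_one, Matrix.one_apply]
        split_ifs
        · rfl
        · rfl
      · simp only [ent, Sum.elim_inr, inv_one, Units.val_one, Matrix.one_apply]
        split_ifs
        · rfl
        · rfl
    exact h3 s
  · intro i j
    exact ⟨⟨max i.down j.down⟩, hmono _ _ (le_max_left _ _), hmono _ _ (le_max_right _ _)⟩

theorem PolyUnion.countable {K : Type u} [Field K] {G : Type w} [Group G] [Countable G]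
    (h : PolyUnion K G) : ∃ K₀ : Subfield K, Countable K₀ ∧ PolyUnion K₀ G := by
  obtain ⟨ι, H, n, ρ, hcov, hker, hdir⟩ := h
  obtain ⟨e, he⟩ := exists_surjective_nat G
  choose ig hig using hcov
  choose c hc1 hc2 using hdir
  let f : ℕ → ι := fun k => Nat.rec (ig 1) (fun k i => c i (ig (e k))) k
  have hf1 : ∀ k, PolyLe (ρ (f k)) (ρ (f (k + 1))) := fun k => hc1 (f k) (ig (e k))
  have hf2 : ∀ k, PolyLe (ρ (ig (e k))) (ρ (f (k + 1))) := fun k => hc2 (f k) (ig (e k))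
  refine ts_seq (fun k => H (f k)) (fun k => n (f k)) (fun k => ρ (f k)) ?_
    (fun k T hT => hker (f k) T hT) hf1
  intro g
  obtain ⟨k, rfl⟩ := he g
  obtain ⟨h1, -, -⟩ := hf2 k
  exact ⟨k + 1, h1 (hig (e k))⟩

end Pool.Agent.Helper64.TS
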