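import Pool.Agent.Helper64.TS.TwoStage
import Pool.Agent.Helper65.TH.Families

/-!
TS-3. From the sets of the two-stage criterion to the families of asymptotic property C.
-/

set_option autoImplicit false

namespace Pool.Agent.Helper64.TS

open Pool.Agent.Helper65.TH
open Pool.Agent.Helper75.Apc (HasFamilies)

/-- the ball of radius `r` as a finite set -/
noncomputable def ballF {G : Type*} [Group G] [MetricSpace G]
    (hprop : ∀ r : ℝ, (Metric.closedBall (1 : G) r).Finite) (r : ℝ) : Finset G :=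
  (hprop r).toFinset

theorem mem_ballF {G : Type*} [Group G] [MetricSpace G]
    (hprop : ∀ r : ℝ, (Metric.closedBall (1 : G) r).Finite) (r : ℝ) (s : G) :
    s ∈ ballF hprop r ↔ dist s 1 ≤ r := by
  rw [ballF, Set.Finite.mem_toFinset, Metric.mem_closedBall]

theorem ballF_mono {G : Type*} [Group G] [MetricSpace G]
    (hprop : ∀ r : ℝ, (Metric.closedBall (1 : G) r).Finite) {r r' : ℝ} (h : r ≤ r') :
    ballF hprop r ⊆ ballF hprop r' := by
  intro s hs
  rw [mem_ballF] at hs ⊢
  exact hs.trans h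

/-- sets with bounded chains for balls of the right radii give the families -/
theorem hasFamilies_of_sets {G : Type*} [Group G] [MetricSpace G]
    (hinv : ∀ a b c : G, dist (a * b) (a * c) = dist b c)
    (hprop : ∀ r : ℝ, (Metric.closedBall (1 : G) r).Finite) (R : ℕ → ℝ) (n : ℕ)
    (A : ℕ → Set G) (r : ℕ → ℝ) (hr : ∀ i < n, R i < r i) (E : Finset G)
    (hcov : ∀ x, ∃ j < n, x ∈ A j)
    (hbd : ∀ j < n, ∀ x ∈ A j, ∀ y,
      Chain ((ballF hprop (r j) : Finset G) : Set G) (fun b => b ∈ A j) x y → x⁻¹ * y ∈ E) :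
    HasFamilies G R n := by
  classical
  have hsymm : ∀ ρ : ℝ, ∀ s ∈ ((ballF hprop ρ : Finset G) : Set G),
      s⁻¹ ∈ ((ballF hprop ρ : Finset G) : Set G) := by
    intro ρ s hs
    rw [Finset.mem_coe, mem_ballF] at hs ⊢
    have := hinv s s⁻¹ 1
    rw [mul_inv_cancel, mul_one] at this
    rw [← this, dist_comm]
    exact hs
  have hdist : ∀ x y : G, dist x y = dist 1 (x⁻¹ * y) := by
    intro x y
    have := hinv x⁻¹ x y
    rw [inv_mul_cancel] at this
    exact this.symm
  refine ⟨fun i => {B | ∃ x ∈ A i, B = famComp ((ballF hprop (r i) : Finset G) : Set G) (A i) x},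
    ?_, ?_, ?_⟩
  · intro i
    refine ⟨∑ g ∈ E, dist 1 g, ?_⟩
    rintro B ⟨z, hz, rfl⟩ x hx y hy
    have hxA : x ∈ A i := famComp_subset hz hx
    have hmem := hbd i i.2 x hxA y (famComp_symm (hsymm _) hz hx hy)
    rw [hdist]
    exact Finset.single_le_sum (f := fun g => dist (1 : G) g) (fun _ _ => dist_nonneg) hmem
  · rintro i B ⟨z, hz, rfl⟩ B' ⟨z', hz', rfl⟩ hne
    refine ⟨r i, hr i i.2, ?_⟩
    intro x hx y hy
    by_contra hlt
    push Not at hlt
    apply hne
    refine famComp_eq (hsymm _) hz hz' hx hy ?_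
    rw [Finset.mem_coe, mem_ballF, dist_comm, ← hdist]
    exact hlt.le
  · intro x
    obtain ⟨j, hj', hx⟩ := hcov x
    exact ⟨⟨j, hj'⟩, famComp ((ballF hprop (r j) : Finset G) : Set G) (A j) x,
      ⟨x, hx, rfl⟩, Chain.refl _ _ _⟩

/-- A group with two stages has asymptotic property C. The number of families depends on two of the
radii only. -/
theorem apc_of_twoStage {G : Type*} [Group G] [MetricSpace G]
    (hinv : ∀ a b c : G, dist (a * b) (a * c) = dist b c)
    (hprop : ∀ r : ℝ, (Metric.closedBall (1 : G) r).Finite) (h : TwoStage G) :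
    ∃ (N : ℝ → ℕ) (n : ℝ → ℝ → ℕ), ∀ R : ℕ → ℝ, (∀ i, 0 < R i) → Monotone R →
      HasFamilies G R (n (R 0) (R (N (R 0)))) := by
  classical
  choose N hN using fun r : ℝ => exists_sets h (ballF hprop (r + 1))
  have h2 : ∀ r r' : ℝ, ∃ N₂ : ℕ, ∀ S : Finset G,
      ballF hprop (max (r + 1) (r' + 1)) ⊆ S →
      ∃ (A : ℕ → Set G) (E : Finset G), (∀ x, ∃ j < 1 + N r + N₂, x ∈ A j) ∧
        (∀ x ∈ A 0, ∀ y, Chain ((ballF hprop (r + 1) : Finset G) : Set G)
          (fun b => b ∈ A 0) x y → x⁻¹ * y ∈ E) ∧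
        (∀ j, 1 ≤ j → j < 1 + N r → ∀ x ∈ A j, ∀ y,
          Chain ((ballF hprop (max (r + 1) (r' + 1)) : Finset G) : Set G)
            (fun b => b ∈ A j) x y → x⁻¹ * y ∈ E) ∧
        ∀ j, 1 + N r ≤ j → j < 1 + N r + N₂ → ∀ x ∈ A j, ∀ y,
          Chain (S : Set G) (fun b => b ∈ A j) x y → x⁻¹ * y ∈ E := fun r r' =>
    hN r (ballF hprop (max (r + 1) (r' + 1))) (ballF_mono hprop (le_max_left _ _))
  choose N₂ hN₂ using h2
  refine ⟨N, fun r r' => 1 + N r + N₂ r r', fun R hpos hmono => ?_⟩
  set r := R 0 with hr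
  set r' := R (N r) with hr'
  set M := 1 + N r + N₂ r r' with hM
  obtain ⟨A, E, hcov, h0, h1, h2⟩ := hN₂ r r' (ballF hprop (max (max (r + 1) (r' + 1)) (R M + 1)))
    (ballF_mono hprop (le_max_left _ _))
  refine hasFamilies_of_sets hinv hprop R M A
    (fun j => if j = 0 then r + 1 else if j < 1 + N r then max (r + 1) (r' + 1)
      else max (max (r + 1) (r' + 1)) (R M + 1)) ?_ E hcov ?_
  · intro i hi
    by_cases hi0 : i = 0
    · simp only [hi0, if_true]
      linarith
    · by_cases hi1 : i < 1 + N r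
      · simp only [hi0, hi1, if_true, if_false]
        have hle : R i ≤ r' := hmono (by omega)
        exact lt_of_lt_of_le (by linarith) (le_max_right _ _)
      · simp only [hi0, hi1, if_false]
        have hle : R i ≤ R M := hmono hi.le
        exact lt_of_lt_of_le (by linarith) (le_max_right _ _)
  · intro j hj x hx y hxy
    by_cases hj0 : j = 0
    · subst hj0
      simp only [if_true] at hxy
      exact h0 x hx y hxy
    · by_cases hj1 : j < 1 + N r
      · simp only [hj0, hj1, if_true, if_false] at hxy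
        exact h1 j (by omega) hj1 x hx y hxy
      · simp only [hj0, hj1, if_false] at hxy
        exact h2 j (by omega) hj x hx y hxy

end Pool.Agent.Helper64.TS
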