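import Pool.Agent.Helper64.TS.TwoStage

/-!
TS-08. Finitely many homomorphisms to groups with two stages, with locally finite common kernel.

Proof. `Bd i`, the class of bounded sets of `H i` (from `h i`, by `choose`). For `G`:
`Bd B := (∃ S : Finset G, ∀ z ∈ B, z ∈ closure S) ∧ ∀ i, Bd i (φ i '' B)`. `Born`: images of products are
contained in products of images, finite images of finite sets (a finite set lies in the closure
of itself), `closure (S ∪ S')`.
`StageA`: for `T` use the stage A of `H i` for `T.image (φ i)`: `N i`; `N = ∑ i, N i` (index by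
`Σ i, Fin (N i)` and `Fintype.equivFin`, or `finSigmaFinEquiv`); for `F`, `ε` the functions `g i (φ i x)`; a
chain in `G` maps to chains in `H i` (`Chain.map (φ i)`; `Subgroup.closure` of the image is the image of
the closure), so `φ i (x⁻¹ * y) ∈ B i`. `B = {z | z ∈ closure T ∧ ∀ i, φ i z ∈ B i}`.
`StageB`: `S.image (φ i)` gives `t i`; colours `∀ i, Fin (t i)`; `V c = {x | ∀ i, φ i x ∈ V i (c i)}`;
`F ↦ φ i '' F`; `B = {z | z ∈ closure S ∧ ∀ i, φ i z ∈ B i}`.
`StageC`: for `P`, `B` use `P.image (φ i)` and `φ i '' B`: `N i`, functions `g i (φ i x)`, finite sets `E i`. Then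
`x⁻¹ * y ∈ {z ∈ closure P | ∀ i, φ i z ∈ E i}`, which is finite: the fibres of
`z ↦ (φ i z)_i` on `closure P` are translates of `{g ∈ closure P | ∀ i, φ i g = 1}` (`hker P`); cf. the
end of the proof of `thin_of_homs` in `Helper58/GI/Assemble.lean`.
If `n = 0` everything is fine too (then `closure P` is finite).
-/

set_option autoImplicit false

namespace Pool.Agent.Helper64.TS

open Pool.Agent.Helper65.TH

universe v w

private theorem near_family {n : ℕ} {N : Fin n → ℕ} (u v : ∀ i, Fin (N i) → ℝ) (ε : ℝ)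
    (h : Near (fun m : Fin (∑ i, N i) => u (finSigmaFinEquiv.symm m).1 (finSigmaFinEquiv.symm m).2)
      (fun m => v (finSigmaFinEquiv.symm m).1 (finSigmaFinEquiv.symm m).2) ε) (i : Fin n) :
    Near (u i) (v i) ε := by
  intro l
  have key : ∀ p q : (Σ i, Fin (N i)), p = q →
      |u p.1 p.2 - v p.1 p.2| ≤ ε → |u q.1 q.2 - v q.1 q.2| ≤ ε := by
    rintro p _ rfl hp
    exact hp
  exact key _ ⟨i, l⟩ (Equiv.symm_apply_apply _ _) (h (finSigmaFinEquiv ⟨i, l⟩))

private theorem image_closure {G : Type v} [Group G] {H : Type w} [Group H] [DecidableEq H]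
    (f : G →* H) (S : Finset G) {z : G} (hz : z ∈ Subgroup.closure (S : Set G)) :
    f z ∈ Subgroup.closure ((S.image f : Finset H) : Set H) := by
  rw [Finset.coe_image, ← MonoidHom.map_closure]
  exact Subgroup.mem_map_of_mem _ hz

private theorem finite_fibres {G : Type v} [Group G] {n : ℕ} {H : Fin n → Type w}
    [∀ i, Group (H i)] (φ : ∀ i, G →* H i) (T : Finset G)
    (hker : {g : G | g ∈ Subgroup.closure (T : Set G) ∧ ∀ i, φ i g = 1}.Finite)
    (E : ∀ i, Finset (H i)) :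
    {h : G | h ∈ Subgroup.closure (T : Set G) ∧ ∀ i, φ i h ∈ E i}.Finite := by
  have hpi : {e : ∀ i, H i | ∀ i, e i ∈ (E i : Set (H i))}.Finite :=
    Set.Finite.pi' (fun i => (E i).finite_toSet)
  have hcover : {h : G | h ∈ Subgroup.closure (T : Set G) ∧ ∀ i, φ i h ∈ E i} ⊆
      ⋃ e ∈ {e : ∀ i, H i | ∀ i, e i ∈ (E i : Set (H i))},
        {h : G | h ∈ Subgroup.closure (T : Set G) ∧ ∀ i, φ i h = e i} := by
    rintro h ⟨hh, hhE⟩
    simp only [Set.mem_iUnion]
    exact ⟨fun i => φ i h, fun i => hhE i, hh, fun _ => rfl⟩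
  refine (hpi.biUnion fun e _ => ?_).subset hcover
  by_cases he : ∃ g₀ ∈ Subgroup.closure (T : Set G), ∀ i, φ i g₀ = e i
  · obtain ⟨g₀, hg₀, hφ⟩ := he
    refine (hker.image (fun g => g₀ * g)).subset ?_
    rintro g ⟨hg, hge⟩
    refine ⟨g₀⁻¹ * g, ⟨Subgroup.mul_mem _ (Subgroup.inv_mem _ hg₀) hg, fun i => ?_⟩, by simp⟩
    rw [map_mul, map_inv, hge i, hφ i, inv_mul_cancel]
  · have hempty : {h : G | h ∈ Subgroup.closure (T : Set G) ∧ ∀ i, φ i h = e i} = ∅ := by
      rw [Set.eq_empty_iff_forall_notMem]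
      rintro g ⟨hg, hge⟩
      exact he ⟨g, hg, hge⟩
    rw [hempty]
    exact Set.finite_empty

theorem TwoStage.of_homs {G : Type v} [Group G] {n : ℕ} {H : Fin n → Type w} [∀ i, Group (H i)]
    (φ : ∀ i, G →* H i) (h : ∀ i, TwoStage (H i))
    (hker : ∀ T : Finset G,
      {g : G | g ∈ Subgroup.closure (T : Set G) ∧ ∀ i, φ i g = 1}.Finite) : TwoStage G := by
  classical
  choose Bd hBd hA hB hC using h
  have hout : ∀ (S : Finset G) (B : ∀ i, Set (H i)), (∀ i, Bd i (B i)) →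
      (∃ S' : Finset G, ∀ z ∈ {z | z ∈ Subgroup.closure (S : Set G) ∧ ∀ i, φ i z ∈ B i},
        z ∈ Subgroup.closure (S' : Set G)) ∧
      ∀ i, Bd i (φ i '' {z | z ∈ Subgroup.closure (S : Set G) ∧ ∀ i, φ i z ∈ B i}) := by
    intro S B hBB
    refine ⟨⟨S, fun z hz => hz.1⟩, fun i => (hBd i).subset _ _ (hBB i) ?_⟩
    rintro _ ⟨z, hz, rfl⟩
    exact hz.2 i
  refine ⟨fun B => (∃ S : Finset G, ∀ z ∈ B, z ∈ Subgroup.closure (S : Set G)) ∧
    ∀ i, Bd i (φ i '' B), ⟨?_, ?_, ?_, ?_, ?_⟩, ?_, ?_, ?_⟩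
  · intro A hfin
    refine ⟨⟨hfin.toFinset, fun z hz => Subgroup.subset_closure ?_⟩,
      fun i => (hBd i).finite _ (hfin.image _)⟩
    rw [Set.Finite.coe_toFinset]
    exact hz
  · rintro A B ⟨⟨S, hS⟩, h1⟩ hAB
    exact ⟨⟨S, fun z hz => hS z (hAB hz)⟩,
      fun i => (hBd i).subset _ _ (h1 i) (Set.image_mono hAB)⟩
  · rintro A B ⟨⟨S, hS⟩, h1⟩ ⟨⟨S', hS'⟩, h2⟩
    refine ⟨⟨S ∪ S', ?_⟩, fun i => ?_⟩
    · rintro z (hz | hz)
      · exact Subgroup.closure_mono (Finset.coe_subset.2 Finset.subset_union_left) (hS z hz)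
      · exact Subgroup.closure_mono (Finset.coe_subset.2 Finset.subset_union_right) (hS' z hz)
    · rw [Set.image_union]
      exact (hBd i).union _ _ (h1 i) (h2 i)
  · rintro A B ⟨⟨S, hS⟩, h1⟩ ⟨⟨S', hS'⟩, h2⟩
    refine ⟨⟨S ∪ S', ?_⟩, fun i => ?_⟩
    · rintro z ⟨a, ha, b, hb, rfl⟩
      exact Subgroup.mul_mem _
        (Subgroup.closure_mono (Finset.coe_subset.2 Finset.subset_union_left) (hS a ha))
        (Subgroup.closure_mono (Finset.coe_subset.2 Finset.subset_union_right) (hS' b hb))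
    · refine (hBd i).subset _ _ ((hBd i).mul _ _ (h1 i) (h2 i)) ?_
      rintro _ ⟨z, ⟨a, ha, b, hb, rfl⟩, rfl⟩
      exact ⟨φ i a, ⟨a, ha, rfl⟩, φ i b, ⟨b, hb, rfl⟩, map_mul _ _ _⟩
  · rintro A ⟨⟨S, hS⟩, h1⟩
    refine ⟨⟨S, fun z hz => (Subgroup.inv_mem_iff _).1 (hS _ hz)⟩, fun i => ?_⟩
    refine (hBd i).subset _ _ ((hBd i).inv _ (h1 i)) ?_
    rintro _ ⟨z, hz, rfl⟩
    exact ⟨z⁻¹, hz, map_inv _ _⟩
  · intro T
    choose N hN using fun i => hA i (T.image (φ i))
    refine ⟨∑ i, N i, fun F ε hε => ?_⟩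
    choose g B hB1 hstep hlight using fun i => hN i (F.image (φ i)) ε hε
    refine ⟨fun x m => g (finSigmaFinEquiv.symm m).1 (φ (finSigmaFinEquiv.symm m).1 x)
      (finSigmaFinEquiv.symm m).2,
      {z | z ∈ Subgroup.closure (T : Set G) ∧ ∀ i, φ i z ∈ B i}, hout T B hB1, ?_, ?_⟩
    · intro x s hs m
      have h1 := hstep (finSigmaFinEquiv.symm m).1 (φ (finSigmaFinEquiv.symm m).1 x)
        (φ (finSigmaFinEquiv.symm m).1 s) (Finset.mem_image_of_mem _ hs) (finSigmaFinEquiv.symm m).2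
      rw [← map_mul] at h1
      exact h1
    · intro x y hxy
      refine ⟨hxy.mem_subgroup _ (fun s hs => hs.2), fun i => ?_⟩
      have hc : Chain {s | s ∈ F.image (φ i) ∧
          s ∈ Subgroup.closure ((T.image (φ i) : Finset (H i)) : Set (H i))}
          (fun b => Near (g i b) (g i (φ i x)) 1) (φ i x) (φ i y) := by
        refine hxy.map (φ i) ?_
        intro a b hs hb
        refine ⟨?_, near_family (fun i => g i (φ i b)) (fun i => g i (φ i x)) 1 hb i⟩
        rw [← map_inv, ← map_mul]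
        exact ⟨Finset.mem_image_of_mem _ hs.1, image_closure _ _ hs.2⟩
      have h3 := hlight i _ _ hc
      rwa [← map_inv, ← map_mul] at h3
  · intro S
    choose t ht using fun i => hB i (S.image (φ i))
    let c : (∀ i, Fin (t i)) ≃ Fin (Fintype.card (∀ i, Fin (t i))) := Fintype.equivFin _
    refine ⟨Fintype.card (∀ i, Fin (t i)), fun F hF hFS => ?_⟩
    choose V B hB1 hV hVb using fun i => ht i (φ i '' F) (hF.2 i) (by
      rintro _ ⟨z, hz, rfl⟩
      exact image_closure _ _ (hFS z hz))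
    refine ⟨fun j => {x | ∀ i, φ i x ∈ V i (c.symm j i)},
      {z | z ∈ Subgroup.closure (S : Set G) ∧ ∀ i, φ i z ∈ B i}, hout S B hB1, ?_, ?_⟩
    · intro x
      choose k hk using fun i => hV i (φ i x)
      refine ⟨c k, fun i => ?_⟩
      rw [Equiv.symm_apply_apply]
      exact hk i
    · intro j x hx y hxy
      refine ⟨hxy.mem_subgroup _ hFS, fun i => ?_⟩
      have hc : Chain (φ i '' F) (fun b => b ∈ V i (c.symm j i)) (φ i x) (φ i y) := by
        refine hxy.map (φ i) ?_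
        intro a b hs hb
        exact ⟨⟨a⁻¹ * b, hs, by rw [map_mul, map_inv]⟩, hb i⟩
      have h3 := hVb i _ _ (hx i) _ hc
      rwa [← map_inv, ← map_mul] at h3
  · intro P B hBB
    choose N hN using fun i => hC i (P.image (φ i)) (φ i '' B) (hBB.2 i)
    refine ⟨∑ i, N i, fun F ε hε => ?_⟩
    choose g E hstep hlight using fun i => hN i (F.image (φ i)) ε hε
    refine ⟨fun x m => g (finSigmaFinEquiv.symm m).1 (φ (finSigmaFinEquiv.symm m).1 x)
      (finSigmaFinEquiv.symm m).2, (finite_fibres φ P (hker P) E).toFinset, ?_, ?_⟩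
    · intro x s hs m
      have h1 := hstep (finSigmaFinEquiv.symm m).1 (φ (finSigmaFinEquiv.symm m).1 x)
        (φ (finSigmaFinEquiv.symm m).1 s) (Finset.mem_image_of_mem _ hs) (finSigmaFinEquiv.symm m).2
      rw [← map_mul] at h1
      exact h1
    · intro x y hxy
      rw [Set.Finite.mem_toFinset]
      refine ⟨hxy.mem_subgroup _ (fun s hs => hs.2), fun i => ?_⟩
      have hc : Chain {s | s ∈ F.image (φ i) ∧
          s ∈ Subgroup.closure ((P.image (φ i) : Finset (H i)) : Set (H i))}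
          (fun b => (φ i x)⁻¹ * b ∈ φ i '' B ∧ Near (g i b) (g i (φ i x)) 1) (φ i x) (φ i y) := by
        refine hxy.map (φ i) ?_
        intro a b hs hb
        refine ⟨?_, ⟨x⁻¹ * b, hb.1, by rw [map_mul, map_inv]⟩,
          near_family (fun i => g i (φ i b)) (fun i => g i (φ i x)) 1 hb.2 i⟩
        rw [← map_inv, ← map_mul]
        exact ⟨Finset.mem_image_of_mem _ hs.1, image_closure _ _ hs.2⟩
      have h3 := hlight i _ _ hc
      rwa [← map_inv, ← map_mul] at h3

end Pool.Agent.Helper64.TS
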