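import Pool.Agent.Helper64.TS.BornLin

/-!
TS-06. Bounded sets of steps in a finitely generated subgroup.

Proof. Given `S` choose `i` with `S ⊆ H i` (`exists_ge`), `Γ = closure S`, `m = n i + n i`,
`φ = (dbl (n i)).comp ((ρ i).comp (Subgroup.inclusion _)) : Γ →* GL (Fin m) K`. Let `E` be the finite set of all
`ent (ρ i t) s`, `t ∈ S`; then `ent (ρ i h) s ∈ Subring.closure E` for `h ∈ ⟨S⟩` (copy `hring` from the
proof of `finite_of_ring` in `Helper58/GI/Tower.lean`). `hK E` gives `p`, `v`. The number is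
`t = Fintype.card (Fin p × Fin m → Bool)`, (or `2 ^ (p * m)`).
Given `F` with `D.Bd F`, `F ⊆ Γ`: by `bd_at` (index `i`, finite set `S`) for every `c : Fin p` there is `C c` with
`v c (ent (ρ i h) s) ≤ C c` for `h ∈ F`. Let `τ ≥ 1` be at least all `C c`; all entries of `φ s` and of
`φ s⁻¹` have value at most `τ` for `s ∈ F` (as elements of `Γ`; an entry of `dbl` is `0` or an entry of
`ent`, see `dbl_apply`). Let `R = 2 * m * log τ + 1 > 0`. For `c : Fin p`, `j : Fin m` let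
`h x (c, j) = rowLog (v c) (φ x) j / R` on `Γ`. By `rowLog_slow` (file `Helper58/GI/Light.lean`) it changes by at
most `m * log τ / R ≤ 1 / 2` along steps in `F`. Extend `h` to `G` (for instance with `part` of `Extend.lean`:
`h' x = h (part Γ x)`; steps in `F` lie in `Γ`). The sets are
`V i = {x | ∀ q, decide (Even ⌊h' x q⌋) = e.symm i q}`, as in `asdim_of_thin`
(`Helper65/TH/ThinAsdim.lean`, `floor_eq_of_near`): along a chain in `V i` with steps in `F` the floors are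
constant, so `|h' b q - h' x q| ≤ 1` and `|rowLog ... b - rowLog ... x| ≤ R`; `rowLog_light` for `v c`, `τ`, `R`
gives `v c (entries of φ (x'⁻¹ * y')) ≤ ρ c`, hence `v c (ent (ρ i (x⁻¹ * y)) s) ≤ ρ c` (`dbl_pos`).
`B = {z | z ∈ closure S ∧ ∃ hz : z ∈ H i, ∀ c s, v c (ent (ρ i ⟨z, hz⟩) s) ≤ k}`, `k = ∑ c, |ρ c|`: bounded
by the first part of `hK E` for `k`.
-/

set_option autoImplicit false

namespace Pool.Agent.Helper64.TS

open Pool.Agent.Helper65.TH Pool.Agent.Helper58.GI Pool.Agent.Helper58.AR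

universe u w

private theorem ring_of_closure {K : Type u} [Field K] {G : Type w} [Group G] {H : Subgroup G} {n : ℕ}
    (ρ : H →* GL (Fin n) K) (T : Finset G) (hT : ∀ t ∈ T, t ∈ H) :
    ∃ E : Finset K, ∀ h ∈ Subgroup.closure (T : Set G), ∀ (hg : h ∈ H) s,
      ent (ρ ⟨h, hg⟩) s ∈ Subring.closure (E : Set K) := by
  classical
  have hcl : ∀ h ∈ Subgroup.closure (T : Set G), h ∈ H := fun h hh =>
    (Subgroup.closure_le H).2 hT hh
  let E : Finset K := T.attach.biUnion fun t => Finset.univ.image (ent (ρ ⟨t.1, hT t.1 t.2⟩))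
  refine ⟨E, ?_⟩
  intro h hh
  induction hh using Subgroup.closure_induction with
  | mem x hx =>
    intro hg s
    apply Subring.subset_closure
    simp only [E, Finset.coe_biUnion, Finset.coe_image, Finset.coe_univ, Set.image_univ,
      Set.mem_iUnion, Set.mem_range]
    exact ⟨⟨x, hx⟩, Finset.mem_coe.2 (Finset.mem_attach _ _), s, rfl⟩
  | one =>
    intro hg s
    have h1 : ρ ⟨1, hg⟩ = 1 := map_one ρ
    rw [h1]
    exact ent_one_mem _ s
  | mul x z hx hz ihx ihz =>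
    intro hg s
    have h1 : ρ ⟨x * z, hg⟩ = ρ ⟨x, hcl x hx⟩ * ρ ⟨z, hcl z hz⟩ := by
      rw [← map_mul]; rfl
    rw [h1]
    exact ent_mul_mem _ (ihx (hcl x hx)) (ihz (hcl z hz)) s
  | inv x hx ihx =>
    intro hg s
    have h1 : ρ ⟨x⁻¹, hg⟩ = (ρ ⟨x, hcl x hx⟩)⁻¹ := by
      rw [← map_inv]; rfl
    rw [h1, ent_inv]
    exact ihx (hcl x hx) _

private theorem dbl_le {K : Type u} [Field K] {n : ℕ} (g : GL (Fin n) K) (v : AbsoluteValue K ℝ)
    {τ : ℝ} (hτ : 0 ≤ τ) (h : ∀ s, v (ent g s) ≤ τ) (a b : Fin (n + n)) :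
    v ((dbl n g : Matrix (Fin (n + n)) (Fin (n + n)) K) a b) ≤ τ := by
  obtain ⟨a, rfl⟩ := finSumFinEquiv.surjective a
  obtain ⟨b, rfl⟩ := finSumFinEquiv.surjective b
  rw [dbl_apply]
  rcases a with a | a <;> rcases b with b | b
  · rw [Matrix.fromBlocks_apply₁₁]
    exact h (Sum.inl (a, b))
  · rw [Matrix.fromBlocks_apply₁₂, Matrix.zero_apply, map_zero]
    exact hτ
  · rw [Matrix.fromBlocks_apply₂₁, Matrix.zero_apply, map_zero]
    exact hτ
  · rw [Matrix.fromBlocks_apply₂₂, Matrix.transpose_apply]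
    exact h (Sum.inr (b, a))

private theorem floor_near {u v : ℝ} (h : |u - v| ≤ 1 / 2) (hp : Even ⌊u⌋ ↔ Even ⌊v⌋) :
    ⌊u⌋ = ⌊v⌋ := by
  have h0 := abs_le.1 h
  have h1 := Int.floor_le u
  have h2 := Int.lt_floor_add_one u
  have h3 := Int.floor_le v
  have h4 := Int.lt_floor_add_one v
  have h5 : (⌊u⌋ : ℝ) < (⌊v⌋ : ℝ) + 2 := by linarith
  have h6 : (⌊v⌋ : ℝ) < (⌊u⌋ : ℝ) + 2 := by linarith
  have h7 : ⌊u⌋ < ⌊v⌋ + 2 := by exact_mod_cast h5
  have h8 : ⌊v⌋ < ⌊u⌋ + 2 := by exact_mod_cast h6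
  rw [Int.even_iff, Int.even_iff] at hp
  omega

theorem LinData.stageB {K : Type u} [Field K] (hK : WideField K) {G : Type w} [Group G]
    (D : LinData K G) : StageB D.Bd := by
  classical
  intro S
  obtain ⟨i0, -⟩ := D.cov 1
  obtain ⟨i, -, hS⟩ := D.exists_ge i0 S
  obtain ⟨E, hring⟩ := ring_of_closure (D.ρ i) S hS
  obtain ⟨p, v, hv, hk⟩ := hK E
  have hΓ : Subgroup.closure (S : Set G) ≤ D.H i := (Subgroup.closure_le _).2 hS
  set Γ : Subgroup G := Subgroup.closure (S : Set G) with hΓd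
  let φ : Γ →* GL (Fin (D.n i + D.n i)) K :=
    (dbl (D.n i)).comp ((D.ρ i).comp (Subgroup.inclusion hΓ))
  have hφ : ∀ z : Γ, φ z = dbl (D.n i) (D.ρ i ⟨z.1, hΓ z.2⟩) := fun z => rfl
  refine ⟨Fintype.card (Fin p × Fin (D.n i + D.n i) → Bool), ?_⟩
  intro F hF hFS
  have hC : ∀ c : Fin p, ∃ C : ℝ, ∀ h : D.H i, (h : G) ∈ F → ∀ s,
      v c (ent (D.ρ i h) s) ≤ C := fun c => D.bd_at hF i S hS hFS (v c) (hv c)
  choose C hC using hC
  obtain ⟨τ, hτ1, hτC⟩ : ∃ τ : ℝ, 1 ≤ τ ∧ ∀ c, C c ≤ τ := by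
    refine ⟨1 + ∑ c, |C c|, ?_, fun c => ?_⟩
    · have := Finset.sum_nonneg (s := Finset.univ) fun (c : Fin p) _ => abs_nonneg (C c)
      linarith
    · have h1 := Finset.single_le_sum (s := Finset.univ) (f := fun c : Fin p => |C c|)
        (fun c _ => abs_nonneg (C c)) (Finset.mem_univ c)
      have h2 := le_abs_self (C c)
      exact h2.trans (h1.trans (by linarith))
  have hτ0 : (0 : ℝ) ≤ τ := zero_le_one.trans hτ1
  have hent : ∀ (c : Fin p) (s : Γ), (s : G) ∈ F → ∀ a b,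
      v c ((φ s : Matrix (Fin (D.n i + D.n i)) (Fin (D.n i + D.n i)) K) a b) ≤ τ := by
    intro c s hs a b
    rw [hφ]
    exact dbl_le _ _ hτ0 (fun q => (hC c ⟨s.1, hΓ s.2⟩ hs q).trans (hτC c)) a b
  have hent' : ∀ (c : Fin p) (s : Γ), (s : G) ∈ F → ∀ a b,
      v c ((φ s⁻¹ : Matrix (Fin (D.n i + D.n i)) (Fin (D.n i + D.n i)) K) a b) ≤ τ := by
    intro c s hs a b
    rw [map_inv, hφ, ← map_inv]
    refine dbl_le _ _ hτ0 (fun q => ?_) a b
    rw [ent_inv]
    exact (hC c ⟨s.1, hΓ s.2⟩ hs q.swap).trans (hτC c)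
  have hlog : 0 ≤ Real.log τ := Real.log_nonneg hτ1
  obtain ⟨m, hm⟩ : ∃ m : ℝ, m = ((D.n i + D.n i : ℕ) : ℝ) := ⟨_, rfl⟩
  have hm0 : 0 ≤ m := by
    rw [hm]
    exact Nat.cast_nonneg _
  set R : ℝ := 2 * (m * Real.log τ) + 1 with hR
  have hmlog : 0 ≤ m * Real.log τ := mul_nonneg hm0 hlog
  have hR0 : 0 < R := by
    rw [hR]
    linarith
  let h : G → Fin p × Fin (D.n i + D.n i) → ℝ := fun x q =>
    rowLog (v q.1) (φ (part Γ x) : Matrix (Fin (D.n i + D.n i)) (Fin (D.n i + D.n i)) K) q.2 / R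
  have hpart : ∀ x, ∀ s, ∀ hs : s ∈ F, part Γ (x * s) = part Γ x * ⟨s, hFS s hs⟩ := by
    intro x s hs
    have hmem : x⁻¹ * (x * s) ∈ Γ := by
      rw [inv_mul_cancel_left]
      exact hFS s hs
    have h1 := part_mul Γ hmem
    rw [← inv_mul_eq_iff_eq_mul, h1]
    apply Subtype.ext
    show x⁻¹ * (x * s) = s
    rw [inv_mul_cancel_left]
  have hslow : ∀ x, ∀ s ∈ F, ∀ q, |h (x * s) q - h x q| ≤ 1 / 2 := by
    intro x s hs q
    have h1 : |rowLog (v q.1) ((φ (part Γ x) : Matrix (Fin (D.n i + D.n i))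
        (Fin (D.n i + D.n i)) K) * (φ ⟨s, hFS s hs⟩ : Matrix (Fin (D.n i + D.n i))
        (Fin (D.n i + D.n i)) K)) q.2 - rowLog (v q.1) (φ (part Γ x) : Matrix
        (Fin (D.n i + D.n i)) (Fin (D.n i + D.n i)) K) q.2| ≤
        ((D.n i + D.n i : ℕ) : ℝ) * Real.log τ := by
      refine rowLog_slow (hv q.1) _ _
        (φ (⟨s, hFS s hs⟩ : Γ)⁻¹ : Matrix (Fin (D.n i + D.n i)) (Fin (D.n i + D.n i)) K)
        ((Matrix.isUnit_iff_isUnit_det _).1 (φ (part Γ x)).isUnit) ?_ hτ1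
        (hent q.1 _ hs) (hent' q.1 _ hs) q.2
      rw [← Units.val_mul, ← map_mul, mul_inv_cancel, map_one, Units.val_one]
    rw [← hm] at h1
    have h2 : h (x * s) q - h x q = (rowLog (v q.1) ((φ (part Γ x) : Matrix (Fin (D.n i + D.n i))
        (Fin (D.n i + D.n i)) K) * (φ ⟨s, hFS s hs⟩ : Matrix (Fin (D.n i + D.n i))
        (Fin (D.n i + D.n i)) K)) q.2 - rowLog (v q.1) (φ (part Γ x) : Matrix
        (Fin (D.n i + D.n i)) (Fin (D.n i + D.n i)) K) q.2) / R := by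
      simp only [h]
      rw [hpart x s hs, map_mul, Units.val_mul, sub_div]
    rw [h2, abs_div, abs_of_pos hR0, div_le_iff₀ hR0]
    refine h1.trans ?_
    rw [hR]
    linarith
  have hlight : ∀ c : Fin p, ∃ r : ℝ, ∀ x y : Γ, Chain {s : Γ | (s : G) ∈ F}
      (fun z => ∀ j, |rowLog (v c) (φ z : Matrix (Fin (D.n i + D.n i)) (Fin (D.n i + D.n i)) K) j -
        rowLog (v c) (φ x : Matrix (Fin (D.n i + D.n i)) (Fin (D.n i + D.n i)) K) j| ≤ R) x y →
      ∀ a b, v c ((φ (x⁻¹ * y) : Matrix (Fin (D.n i + D.n i)) (Fin (D.n i + D.n i)) K) a b) ≤ r := by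
    intro c
    obtain ⟨r, hr⟩ := rowLog_light (hv c) (D.n i + D.n i) τ R
    exact ⟨r, fun x y hxy => hr φ {s : Γ | (s : G) ∈ F} (fun s hs a b => hent c s hs a b) x y hxy⟩
  choose r hr using hlight
  obtain ⟨k, hkr⟩ : ∃ k : ℝ, ∀ c, r c ≤ k := by
    refine ⟨∑ c, |r c|, fun c => ?_⟩
    have h1 := Finset.single_le_sum (s := Finset.univ) (f := fun c : Fin p => |r c|)
      (fun c _ => abs_nonneg (r c)) (Finset.mem_univ c)
    exact (le_abs_self _).trans h1
  let e : (Fin p × Fin (D.n i + D.n i) → Bool) ≃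
      Fin (Fintype.card (Fin p × Fin (D.n i + D.n i) → Bool)) := Fintype.equivFin _
  refine ⟨fun j => {x | ∀ q, decide (Even ⌊h x q⌋) = e.symm j q},
    {z | z ∈ Γ ∧ ∃ hz : z ∈ D.H i, ∀ c s, v c (ent (D.ρ i ⟨z, hz⟩) s) ≤ k}, ?_, ?_, ?_⟩
  · refine ⟨i, S, hS, fun z hz => hz.1, fun u hu => ?_⟩
    obtain ⟨C', hC'⟩ := (hk k).1 u hu
    refine ⟨C', fun g hg s => ?_⟩
    obtain ⟨hg1, hg2, hg3⟩ := hg
    exact hC' _ (hring _ hg1 g.2 s) (fun c => hg3 c s)
  · intro x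
    refine ⟨e (fun q => decide (Even ⌊h x q⌋)), fun q => ?_⟩
    rw [Equiv.symm_apply_apply]
  · intro j x hx y hxy
    have hmem : x⁻¹ * y ∈ Γ := hxy.mem_subgroup Γ hFS
    have h1 := hxy.strengthen (R := fun b => ∀ q, ⌊h b q⌋ = ⌊h x q⌋) (fun _ => rfl) (by
      intro a b hxa ha hs hb q
      have haA : a ∈ {x | ∀ q, decide (Even ⌊h x q⌋) = e.symm j q} := hxa.last hx
      rw [← ha q]
      have h2 := hslow a (a⁻¹ * b) hs q
      rw [mul_inv_cancel_left] at h2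
      refine floor_near h2 ?_
      have h3 := haA q
      have h4 := hb q
      rw [← h4] at h3
      exact (decide_eq_decide.1 h3).symm)
    have hch : ∀ c : Fin p, Chain {s : Γ | (s : G) ∈ F}
        (fun z => ∀ l, |rowLog (v c) (φ z : Matrix (Fin (D.n i + D.n i))
          (Fin (D.n i + D.n i)) K) l - rowLog (v c) (φ (part Γ x) : Matrix (Fin (D.n i + D.n i))
          (Fin (D.n i + D.n i)) K) l| ≤ R) (part Γ x) (part Γ y) := by
      intro c
      refine Chain.map (part Γ) ?_ h1.1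
      intro a b hs hb
      refine ⟨?_, fun l => ?_⟩
      · show (((part Γ a)⁻¹ * part Γ b : Γ) : G) ∈ F
        rw [part_mul Γ (hFS _ hs)]
        exact hs
      · have h2 := hb.2 (c, l)
        have h3 := Int.floor_le (h b (c, l))
        have h4 := Int.lt_floor_add_one (h b (c, l))
        have h5 := Int.floor_le (h x (c, l))
        have h6 := Int.lt_floor_add_one (h x (c, l))
        rw [h2] at h3 h4
        have h7 : |h b (c, l) - h x (c, l)| ≤ 1 := by
          rw [abs_le]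
          constructor <;> linarith
        have h8 : h b (c, l) - h x (c, l) = (rowLog (v c) (φ (part Γ b) : Matrix
            (Fin (D.n i + D.n i)) (Fin (D.n i + D.n i)) K) l - rowLog (v c) (φ (part Γ x) : Matrix
            (Fin (D.n i + D.n i)) (Fin (D.n i + D.n i)) K) l) / R := by
          simp only [h]
          rw [sub_div]
        rw [h8, abs_div, abs_of_pos hR0, div_le_iff₀ hR0, one_mul] at h7
        exact h7
    refine ⟨hmem, hΓ hmem, fun c s => ?_⟩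
    have h2 := hr c _ _ (hch c) (pos s).1 (pos s).2
    rw [part_mul Γ hmem, hφ, dbl_pos] at h2
    exact h2.trans (hkr c)

end Pool.Agent.Helper64.TS
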