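import Pool.Agent.Helper64.TS.BornLin

/-!
TS-07. The second stage for a directed union of linear groups.

Proof. Given `P`, `B` with `D.Bd B`, choose `i` with `P ⊆ H i` (`exists_ge`). `finite_of_ring` (file
`Helper58/GI/Tower.lean`, for `ρ i`, `P`, with `D.ker i P _`) gives a finite `E ⊆ K` such that
`{x ∈ Subring.closure E | x ∈ C}` finite implies `{h ∈ closure P | ∀ s, ent (ρ i h) s ∈ C}` finite.
`hK E` gives `p`, `v`. `B' = {z ∈ B | z ∈ closure P}` is bounded (`born_bd.subset`), so by `bd_at` there is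
`k` with `v c (ent (ρ i h) s) ≤ k` for `h ∈ B'`, all `c`, `s`. The second part of `hK E` for `k` gives
`f`, `σ : Fin f → K →+* ℂ`. Put `d = card ((Fin (n i) × Fin (n i)) ⊕ (Fin (n i) × Fin (n i)))`,
`N = f * (d * 2 + (d * 2 + 1))`. Given `F`, `ε`: `j` above `i` with `P ∪ F ⊆ H j`, `Γ = ⟨P ∪ F⟩`,
`L = (closure P).subgroupOf Γ`, `φ = (dbl (n j)).comp ...`, `y`, the polynomials as in the proof of
`thin_of_properUnionA` (`Helper58/AR/TowerA.lean`). For every `c : Fin f` the theorem `local_light_complex` (file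
`Helper58/AR/LightC.lean`) for `(Matrix.GeneralLinearGroup.map (σ c)).comp φ`, `fun h l => σ c (y h l)` and the
polynomials `MvPolynomial.map (σ c) _` (see `local_place` and `map_eval_poly` in
`Helper58/AR/TowerA.lean`, private there, copy) gives `g c`, `ρ' c`. Combine by `finProdFinEquiv`, extend to
`G` by `extend_light` with `C = fun z => z ∈ B`, `L = closure P`. A chain gives
`‖σ c (entries of φ (x'⁻¹ * y'))‖ ≤ ρ' c`, so `‖σ c (ent (ρ i (x⁻¹ * y)) s)‖ ≤ R c` by the `BddInA` in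
`ProperLeA (ρ i) (ρ j)` for the place `x ↦ ‖σ c x‖` (the absolute value
`(IsAbsoluteValue.toAbsoluteValue (norm : ℂ → ℝ)).comp (σ c).injective`, `Or.inr ⟨σ c, fun _ => rfl⟩`). The last
point of a nontrivial chain satisfies `x⁻¹ * y ∈ B` (`Chain.last` if `1 ∈ B`; in general the chain is
trivial and `x⁻¹ * y = 1`, or `x⁻¹ * y ∈ B`: `Relation.ReflTransGen.cases_tail`), so
`E' = {1} ∪ {z ∈ closure P | v c (ent) ≤ k, ‖σ c (ent)‖ ≤ ∑ |R|}` is finite and contains `x⁻¹ * y`.
-/

set_option autoImplicit false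

namespace Pool.Agent.Helper64.TS

open Pool.Agent.Helper65.TH Pool.Agent.Helper58.GI Pool.Agent.Helper58.AR

universe u w

private theorem stageC_map_eval {K L : Type*} [Field K] [Field L] (σ : K →+* L) {d : ℕ}
    (y : Fin d → K) (P : MvPolynomial (Fin d) K) :
    σ (MvPolynomial.eval y P) =
      MvPolynomial.eval (fun l => σ (y l)) (MvPolynomial.map σ P) := by
  rw [MvPolynomial.eval_map]
  have h := MvPolynomial.eval₂_comp_left σ (RingHom.id K) y P
  rw [RingHom.comp_id] at h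
  exact h

/-- the local theorem for an embedding into the complex numbers -/
private theorem stageC_local {K : Type u} [Field K] (σ : K →+* ℂ)
    {Γ : Type*} [Group Γ] {m d : ℕ} (φ : Γ →* GL (Fin m) K) (L : Subgroup Γ)
    (y : Γ → Fin d → K) (P : Fin m → Fin m → MvPolynomial (Fin d) K)
    (hP : ∀ h ∈ L, ∀ a b, (φ h : Matrix (Fin m) (Fin m) K) a b = MvPolynomial.eval (y h) (P a b))
    (S : Finset Γ) (ε : ℝ) (hε : 0 < ε) :
    ∃ (g : Γ → Fin (d * 2 + (d * 2 + 1)) → ℝ) (ρ : ℝ), (∀ x, ∀ s ∈ S, Near (g (x * s)) (g x) ε) ∧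
      ∀ x z, Chain {s | s ∈ S ∧ s ∈ L} (fun b => Near (g b) (g x) 1) x z →
        ∀ a b, ‖σ ((φ (x⁻¹ * z) : Matrix (Fin m) (Fin m) K) a b)‖ ≤ ρ := by
  obtain ⟨g, ρ, hg, hρ⟩ := local_light_complex ((Matrix.GeneralLinearGroup.map σ).comp φ) L
    (fun h l => σ (y h l)) (fun a b => MvPolynomial.map σ (P a b)) (by
      intro h hh a b
      rw [← stageC_map_eval, ← hP h hh a b]
      rfl) S ε hε
  refine ⟨g, ρ, hg, ?_⟩
  intro x z hxz a b
  exact hρ x z hxz a b

theorem LinData.stageC {K : Type u} [Field K] (hK : WideField K) {G : Type w} [Group G]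
    (D : LinData K G) : StageC D.Bd := by
  classical
  intro P B hBd
  obtain ⟨i₀, _⟩ := D.cov 1
  obtain ⟨i, _, hPi⟩ := D.exists_ge i₀ P
  have hcl : ∀ h ∈ Subgroup.closure (P : Set G), h ∈ D.H i := fun h hh =>
    (Subgroup.closure_le (D.H i)).2 hPi hh
  obtain ⟨E, hE⟩ := finite_of_ring (D.ρ i) P hPi (D.ker i P hPi)
  obtain ⟨p, v, hv, hvk⟩ := hK E
  have hB' : D.Bd {z | z ∈ B ∧ z ∈ Subgroup.closure (P : Set G)} :=
    D.born_bd.subset _ _ hBd (fun z hz => hz.1)
  choose k hk using fun c : Fin p => D.bd_at hB' i P hPi (fun z hz => hz.2) (v c) (hv c)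
  obtain ⟨_, f, σ, hfin⟩ := hvk (∑ c, |k c|)
  let τ := (Fin (D.n i) × Fin (D.n i)) ⊕ (Fin (D.n i) × Fin (D.n i))
  let e : τ ≃ Fin (Fintype.card τ) := Fintype.equivFin τ
  refine ⟨f * (Fintype.card τ * 2 + (Fintype.card τ * 2 + 1)), fun F ε hε => ?_⟩
  obtain ⟨j, ⟨hij, hij1, hij2⟩, hSj⟩ := D.exists_ge i (P ∪ F)
  have hcS : Subgroup.closure ((P ∪ F : Finset G) : Set G) ≤ D.H j :=
    (Subgroup.closure_le (D.H j)).2 hSj
  obtain ⟨Q, hQ⟩ := hij1.ent
  let y : Subgroup.closure ((P ∪ F : Finset G) : Set G) → Fin (Fintype.card τ) → K :=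
    fun g l => if hg : (g : G) ∈ D.H i then ent (D.ρ i ⟨g, hg⟩) (e.symm l) else 0
  have hy : ∀ (g : Subgroup.closure ((P ∪ F : Finset G) : Set G)) (hg : (g : G) ∈ D.H i)
      (s : τ), y g (e s) = ent (D.ρ i ⟨g, hg⟩) s := by
    intro g hg s
    simp only [y, dif_pos hg, Equiv.symm_apply_apply]
  have hloc := fun c : Fin f => stageC_local (σ c)
    ((dbl (D.n j)).comp ((D.ρ j).comp (Subgroup.inclusion hcS)))
    ((Subgroup.closure (P : Set G)).subgroupOf (Subgroup.closure ((P ∪ F : Finset G) : Set G)))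
    y
    (fun a b => MvPolynomial.rename e
      (match finSumFinEquiv.symm a, finSumFinEquiv.symm b with
        | Sum.inl a, Sum.inl b => Q (Sum.inl (a, b))
        | Sum.inr a, Sum.inr b => Q (Sum.inr (b, a))
        | Sum.inl _, Sum.inr _ => 0
        | Sum.inr _, Sum.inl _ => 0))
    (by
      rintro ⟨h, hS⟩ hT
      rw [Subgroup.mem_subgroupOf] at hT
      have hi := hcl h hT
      have hyh : (y ⟨h, hS⟩ ∘ e : τ → K) = ent (D.ρ i ⟨h, hi⟩) :=
        funext fun s => hy ⟨h, hS⟩ hi s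
      have hφ : ((dbl (D.n j)).comp ((D.ρ j).comp (Subgroup.inclusion hcS))) ⟨h, hS⟩ =
          dbl (D.n j) (((D.ρ j).comp (Subgroup.inclusion hij)) ⟨h, hi⟩) := rfl
      rw [hφ]
      intro a b
      rw [MvPolynomial.eval_rename, hyh]
      obtain ⟨a, rfl⟩ := (finSumFinEquiv (m := D.n j) (n := D.n j)).surjective a
      obtain ⟨b, rfl⟩ := (finSumFinEquiv (m := D.n j) (n := D.n j)).surjective b
      rw [Equiv.symm_apply_apply, Equiv.symm_apply_apply]
      rcases a with a | a <;> rcases b with b | b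
      · have h1 := dbl_pos (((D.ρ j).comp (Subgroup.inclusion hij)) ⟨h, hi⟩) (Sum.inl (a, b))
        rw [hQ] at h1
        exact h1
      · rw [dbl_apply]
        simp
      · rw [dbl_apply]
        simp
      · have h1 := dbl_pos (((D.ρ j).comp (Subgroup.inclusion hij)) ⟨h, hi⟩) (Sum.inr (b, a))
        rw [hQ] at h1
        exact h1)
    (F.subtype (fun x => x ∈ Subgroup.closure ((P ∪ F : Finset G) : Set G))) ε hε
  choose g ρ' hg hρ' using hloc
  -- the absolute values
  let w : Fin f → AbsoluteValue K ℝ := fun c =>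
    (IsAbsoluteValue.toAbsoluteValue (norm : ℂ → ℝ)).comp (σ c).injective
  have hw : ∀ c, IsPlace (w c) := fun c => Or.inr ⟨σ c, fun _ => rfl⟩
  choose R hR using fun c : Fin f => hij2 (w c) (hw c) (ρ' c)
  obtain ⟨g', hg', hch⟩ := extend_light (Subgroup.closure ((P ∪ F : Finset G) : Set G))
    (F : Set G) (fun s hs => Subgroup.subset_closure (by
      rw [Finset.coe_union]
      exact Or.inr hs))
    (fun x q => g (finProdFinEquiv.symm q).1 x (finProdFinEquiv.symm q).2) ε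
    (fun x s hs q => hg _ x s (Finset.mem_subtype.2 hs) _)
  have hfinE := hE {x | (∀ c, v c x ≤ ∑ c, |k c|) ∧ ∀ c, ‖σ c x‖ ≤ ∑ c, |R c|} (hfin _)
  refine ⟨g', insert 1 (hfinE.image (fun h : D.H i => (h : G))).toFinset, fun x s hs => hg' x s hs,
    ?_⟩
  intro x z hxz
  obtain ⟨x', z', hxz', hch'⟩ := hch (Subgroup.closure (P : Set G) : Set G) (fun z => z ∈ B) x z hxz
  rw [Finset.mem_insert]
  -- the last point of the chain
  have hlast : x⁻¹ * z = 1 ∨ x⁻¹ * z ∈ B := by
    rcases Relation.ReflTransGen.cases_tail hxz with h | ⟨b, _, _, hb, _⟩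
    · left
      rw [h, inv_mul_cancel]
    · right
      exact hb
  rcases hlast with h1 | hB
  · exact Or.inl h1
  · right
    have hL : x⁻¹ * z ∈ Subgroup.closure (P : Set G) :=
      hxz.mem_subgroup _ (fun s hs => hs.2)
    rw [Set.Finite.mem_toFinset]
    refine ⟨⟨x⁻¹ * z, hcl _ hL⟩, ⟨hL, fun s => ⟨fun c => ?_, fun c => ?_⟩⟩, rfl⟩
    · refine (hk c ⟨x⁻¹ * z, hcl _ hL⟩ ⟨hB, hL⟩ s).trans ((le_abs_self _).trans ?_)
      exact Finset.single_le_sum (f := fun c' => |k c'|) (fun c' _ => abs_nonneg _)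
        (Finset.mem_univ c)
    · have h1 : ∀ a b, ‖σ c ((((dbl (D.n j)).comp ((D.ρ j).comp (Subgroup.inclusion hcS)))
          (x'⁻¹ * z') : Matrix (Fin (D.n j + D.n j)) (Fin (D.n j + D.n j)) K) a b)‖ ≤ ρ' c := by
        refine hρ' c x' z' (hch'.mono ?_ ?_)
        · rintro s ⟨hs1, hs2⟩
          exact ⟨Finset.mem_subtype.2 hs1, Subgroup.mem_subgroupOf.2 hs2⟩
        · rintro b ⟨_, hb⟩ l
          have h2 := hb (finProdFinEquiv (c, l))
          simp only [Equiv.symm_apply_apply] at h2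
          exact h2
      have h2 := hR c ⟨x⁻¹ * z, hcl _ hL⟩ (fun s => by
        have h3 : ((D.ρ j).comp (Subgroup.inclusion hij)) ⟨x⁻¹ * z, hcl _ hL⟩ =
            ((D.ρ j).comp (Subgroup.inclusion hcS)) (x'⁻¹ * z') := by
          simp only [MonoidHom.comp_apply]
          congr 1
          apply Subtype.ext
          exact hxz'.symm
        rw [h3, ← dbl_pos]
        exact h1 _ _) s
      refine h2.trans ((le_abs_self _).trans ?_)
      exact Finset.single_le_sum (f := fun c' => |R c'|) (fun c' _ => abs_nonneg _)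
        (Finset.mem_univ c)

end Pool.Agent.Helper64.TS
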