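import Pool.Agent.Helper64.TS.TwoStage
import Pool.Agent.Helper65.TH.ThinAsdim
import Pool.Agent.Helper65.TH.AsdimSub

/-!
TS-09. Groups in which the finitely generated subgroups are thin have two stages, with
`Bd B := B.Finite`.

Proof. `Born`: products and inverses of finite sets are finite (`Set.Finite.image2`, `Set.Finite.preimage`).
`StageA`: `Thin (closure T) N` with `B = E`. `StageB`: `asdim_of_thin_subgroup` (file
`Helper65/TH/ThinAsdim.lean`) gives `AsdimLT (closure S) (2 ^ N)`; a finite `F ⊆ closure S`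
(`Set.Finite.toFinset`); `AsdimLT.lift` (`Helper65/TH/AsdimSub.lean`) gives the finite `E` and the sets `A i`
for chains in `G`. `StageC`: `N = 0`, `g` arbitrary, `E` = the finite set `B ∪ {1}`: the last point of a
chain satisfies `x⁻¹ * y ∈ B` or the chain is trivial.
-/

set_option autoImplicit false

namespace Pool.Agent.Helper64.TS

open Pool.Agent.Helper65.TH

theorem twoStage_of_thin {G : Type*} [Group G]
    (h : ∀ T : Finset G, ∃ N, Thin (Subgroup.closure (T : Set G)) N) : TwoStage G := by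
  classical
  refine ⟨fun B => B.Finite, ⟨fun A hA => hA, fun A B hB hAB => hB.subset hAB,
    fun A B hA hB => hA.union hB, ?_, ?_⟩, ?_, ?_, ?_⟩
  · intro A B hA hB
    refine (hA.image2 (fun a b => a * b) hB).subset ?_
    rintro z ⟨a, ha, b, hb, rfl⟩
    exact ⟨a, ha, b, hb, rfl⟩
  · intro A hA
    exact hA.preimage (fun a _ b _ hab => inv_injective hab)
  · intro T
    obtain ⟨N, hN⟩ := h T
    refine ⟨N, fun F ε hε => ?_⟩
    obtain ⟨g, E, hg, hE⟩ := hN F ε hε
    exact ⟨g, (E : Set G), E.finite_toSet, hg, hE⟩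
  · intro S
    obtain ⟨N, hN⟩ := h S
    refine ⟨2 ^ N, fun F hF hFS => ?_⟩
    obtain ⟨E, A, hA, hE⟩ := AsdimLT.lift (Subgroup.closure (S : Set G))
      (asdim_of_thin_subgroup hN) hF.toFinset (fun s hs => hFS s (hF.mem_toFinset.1 hs))
    rw [hF.coe_toFinset] at hE
    exact ⟨A, (E : Set G), E.finite_toSet, hA, hE⟩
  · intro P B hB
    refine ⟨0, fun F ε _ => ⟨fun _ i => i.elim0, insert 1 hB.toFinset, fun _ _ _ i => i.elim0, ?_⟩⟩
    intro x y hxy
    refine hxy.rec' (R := fun z => x⁻¹ * z ∈ insert 1 hB.toFinset) ?_ ?_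
    · rw [inv_mul_cancel]
      exact Finset.mem_insert_self _ _
    · intro a b _ _ _ hb
      exact Finset.mem_insert_of_mem (hB.mem_toFinset.2 hb.1)

end Pool.Agent.Helper64.TS
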