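import Pool.Agent.Helper64.TS.Lin
import Pool.Agent.Helper61.Apc.Final

/-!
TS-21. Fields of positive characteristic: the second stage is empty.

Proof. `exists_places_charP_of` (see `enoughPlaces_charP` in `Helper61/Apc/Final.lean`) gives `p'`, `v` with
`{x ∈ Subring.closure E | ∀ i, v i x ≤ k}` finite for every `k`. A function is bounded on a finite set; `f = 0`.
-/

set_option autoImplicit false

namespace Pool.Agent.Helper64.TS

open Pool.Agent.Helper61.Apc

universe u

theorem wideField_charP {K : Type u} [Field K] (p : ℕ) [Fact p.Prime] [CharP K p] :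
    WideField K := by
  classical
  intro T
  obtain ⟨m, v, hv, hfin⟩ := exists_places_charP_of (K := K) p
    (fun A L _ _ _ _ _ v hv => exists_abv_fractionField v hv)
    (fun F E _ _ _ _ v hv => exists_extensions v hv)
    (fun F E _ _ _ v hv => exists_abv_extension v hv) T
  refine ⟨m, v, fun i x y => hv i x y, fun k => ⟨fun u _ => ?_, 0, Fin.elim0, fun _ => ?_⟩⟩
  · obtain ⟨C, hC⟩ := ((hfin k).image u).bddAbove
    exact ⟨C, fun x hx hxk => hC ⟨x, ⟨hx, hxk⟩, rfl⟩⟩
  · refine (hfin k).subset ?_
    rintro x ⟨hx, hxk, _⟩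
    exact ⟨hx, hxk⟩

end Pool.Agent.Helper64.TS
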