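import Mathlib

/-!
TS-16. A finitely generated subring of a field of characteristic zero is integral over a polynomial ring over
the integers up to powers of one polynomial.

Proof. Among the elements of `E` choose a transcendence basis of the field generated by `E`: there is
`x : Fin s → K` with values in `E`, algebraically independent over `ℤ` (equivalently over `ℚ`), such that
all elements of `E` are algebraic over `Algebra.adjoin ℤ (range x)` (`exists_isTranscendenceBasis_subset`,
`AlgebraicIndependent` maximal subsets of the finite set `E`; or any other way). Put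
`φ = MvPolynomial.eval₂Hom (Int.castRingHom K) x`, injective. With the algebra structure `φ.toAlgebra` on `K`
every `t ∈ E` is algebraic over `MvPolynomial (Fin s) ℤ`, so there is `N t ≠ 0` with `φ (N t) * t` integral
(`IsAlgebraic.exists_integral_multiple` or `exists_integral_multiple`). `N = ∏ N t`; then `φ N * t` is integral
for all `t ∈ E`. Induction over `Subring.closure`: `0`, `1`, `-x`; sums: `φ N ^ max`; products: exponents
add (`φ N ^ e * x` integral implies `φ N ^ e' * x` integral for `e' ≥ e`).
-/

set_option autoImplicit false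

namespace Pool.Agent.Helper64.TS

/-- transport of integrality along a ring isomorphism onto the subalgebra -/
private theorem basis_integral_transport {K : Type*} [Field K] {s : ℕ} {x : Fin s → K}
    (hx : AlgebraicIndependent ℤ x) {z : K}
    (hz : IsIntegral (Algebra.adjoin ℤ (Set.range x)) z) :
    (MvPolynomial.aeval x : MvPolynomial (Fin s) ℤ →ₐ[ℤ] K).toRingHom.IsIntegralElem z := by
  obtain ⟨p, hp, h0⟩ := hz
  let e := hx.aevalEquiv
  let ψ : Algebra.adjoin ℤ (Set.range x) →+* MvPolynomial (Fin s) ℤ :=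
    (e.symm : Algebra.adjoin ℤ (Set.range x) →ₐ[ℤ] MvPolynomial (Fin s) ℤ).toRingHom
  refine ⟨p.map ψ, hp.map ψ, ?_⟩
  have hc : (MvPolynomial.aeval x : MvPolynomial (Fin s) ℤ →ₐ[ℤ] K).toRingHom.comp ψ =
      algebraMap (Algebra.adjoin ℤ (Set.range x)) K := by
    refine RingHom.ext fun a => ?_
    have h := hx.algebraMap_aevalEquiv (e.symm a)
    have h2 : hx.aevalEquiv (e.symm a) = a := e.apply_symm_apply a
    rw [h2] at h
    exact h.symm
  rw [Polynomial.eval₂_map, hc]
  exact h0

/-- multiples of integral elements -/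
private theorem basis_mul_left {K : Type*} [Field K] {s : ℕ}
    (φ : MvPolynomial (Fin s) ℤ →+* K) (a : MvPolynomial (Fin s) ℤ) {z : K}
    (hz : φ.IsIntegralElem z) : φ.IsIntegralElem (φ a * z) :=
  (φ.isIntegralElem_map).mul φ hz

theorem exists_basis {K : Type*} [Field K] [CharZero K] (E : Finset K) :
    ∃ (s : ℕ) (φ : MvPolynomial (Fin s) ℤ →+* K) (N : MvPolynomial (Fin s) ℤ),
      Function.Injective φ ∧ N ≠ 0 ∧
      ∀ x ∈ Subring.closure (E : Set K), ∃ e : ℕ, φ.IsIntegralElem (φ N ^ e * x) := by
  classical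
  obtain ⟨u, -, hu⟩ := exists_maximal_algebraicIndependent (R := ℤ) (∅ : Set K) (E : Set K)
    (Set.empty_subset _)
    ((algebraicIndependent_empty_iff ..).mpr <| FaithfulSMul.algebraMap_injective ℤ K)
  have hfin : u.Finite := E.finite_toSet.subset hu.prop.2
  have : Fintype u := hfin.fintype
  let s := Fintype.card u
  let f : Fin s ≃ u := (Fintype.equivFin u).symm
  let x : Fin s → K := fun i => (f i : K)
  have hx : AlgebraicIndependent ℤ x := hu.prop.1.comp f f.injective
  have hr : Set.range x = u := by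
    ext y
    constructor
    · rintro ⟨i, rfl⟩
      exact (f i).2
    · intro hy
      exact ⟨f.symm ⟨y, hy⟩, by simp [x]⟩
  have halg : ∀ t ∈ E, IsAlgebraic (Algebra.adjoin ℤ (Set.range x)) t := by
    intro t ht
    rw [hr]
    by_contra hcon
    have hins : AlgebraicIndepOn ℤ id (insert t u) :=
      AlgebraicIndepOn.insert hu.prop.1 (by rwa [Set.image_id])
    have hsub : insert t u ⊆ (E : Set K) := Set.insert_subset (Finset.mem_coe.mpr ht) hu.prop.2
    have hle := hu.le_of_ge ⟨hins, hsub⟩ (Set.subset_insert t u)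
    have htu : t ∈ u := hle (Set.mem_insert t u)
    apply hcon
    exact isAlgebraic_algebraMap (⟨t, Algebra.subset_adjoin htu⟩ : Algebra.adjoin ℤ u)
  let φ : MvPolynomial (Fin s) ℤ →+* K :=
    (MvPolynomial.aeval x : MvPolynomial (Fin s) ℤ →ₐ[ℤ] K).toRingHom
  have hφ : Function.Injective φ := hx
  have hex : ∀ t : K, ∃ n : MvPolynomial (Fin s) ℤ, n ≠ 0 ∧
      (t ∈ E → φ.IsIntegralElem (φ n * t)) := by
    intro t
    by_cases ht : t ∈ E
    · obtain ⟨y, hy0, hy⟩ := (halg t ht).exists_integral_multiple
      refine ⟨hx.aevalEquiv.symm y, ?_, fun _ => ?_⟩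
      · intro h
        apply hy0
        have := congrArg hx.aevalEquiv h
        rwa [AlgEquiv.apply_symm_apply, map_zero] at this
      · have h1 := basis_integral_transport hx hy
        have h2 : φ (hx.aevalEquiv.symm y) = (y : K) := by
          have h := hx.algebraMap_aevalEquiv (hx.aevalEquiv.symm y)
          rw [AlgEquiv.apply_symm_apply] at h
          exact h.symm
        rw [h2]
        exact h1
    · exact ⟨1, one_ne_zero, fun h => absurd h ht⟩
  choose n hn0 hn using hex
  refine ⟨s, φ, ∏ t ∈ E, n t, hφ, Finset.prod_ne_zero_iff.mpr fun t _ => hn0 t, ?_⟩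
  set N := ∏ t ∈ E, n t with hN
  have hmono : ∀ (e e' : ℕ) (z : K), e ≤ e' → φ.IsIntegralElem (φ N ^ e * z) →
      φ.IsIntegralElem (φ N ^ e' * z) := by
    intro e e' z hee hz
    obtain ⟨d, rfl⟩ := Nat.exists_eq_add_of_le' hee
    have h := basis_mul_left φ (N ^ d) hz
    rwa [map_pow, ← mul_assoc, ← pow_add] at h
  intro y hy
  induction hy using Subring.closure_induction with
  | mem t ht =>
    refine ⟨1, ?_⟩
    have htE : t ∈ E := Finset.mem_coe.mp ht
    have h := basis_mul_left φ (∏ r ∈ E.erase t, n r) (hn t htE)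
    have hNe : N = (∏ r ∈ E.erase t, n r) * n t := (Finset.prod_erase_mul _ _ htE).symm
    rw [pow_one, hNe, map_mul, mul_assoc]
    exact h
  | zero => exact ⟨0, by rw [mul_zero]; exact φ.isIntegralElem_zero⟩
  | one => exact ⟨0, by rw [pow_zero, mul_one]; exact φ.isIntegralElem_one⟩
  | add a b _ _ ha hb =>
    obtain ⟨i, hi⟩ := ha
    obtain ⟨j, hj⟩ := hb
    refine ⟨max i j, ?_⟩
    rw [mul_add]
    exact (hmono i _ a (le_max_left _ _) hi).add φ (hmono j _ b (le_max_right _ _) hj)
  | neg a _ ha =>
    obtain ⟨i, hi⟩ := ha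
    refine ⟨i, ?_⟩
    rw [mul_neg]
    exact hi.neg φ
  | mul a b _ _ ha hb =>
    obtain ⟨i, hi⟩ := ha
    obtain ⟨j, hj⟩ := hb
    refine ⟨i + j, ?_⟩
    have h := hi.mul φ hj
    have he : φ N ^ i * a * (φ N ^ j * b) = φ N ^ (i + j) * (a * b) := by ring
    rwa [he] at h

end Pool.Agent.Helper64.TS
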