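import Mathlib

/-!
TS-19. Denominators of the coefficients of a minimal polynomial.

Proof. `y = N ^ e * x` is integral over `A`, so the coefficients of `minpoly L y` lie in `A`
(`minpoly.isIntegrallyClosed_eq_field_fractions'` for the fraction field `L`; see
`exists_places_of_integral` in `Helper70/AQ/PlacesP.lean`). Let `d = (minpoly L x).natDegree` and `n = N ^ e` in
`L`, `n ≠ 0`. `minpoly L (n • x)` has the coefficients `(minpoly L x).coeff i * n ^ (d - i)`:
for instance `(minpoly L x).scaleRoots n` is monic of the same degree with the root `n * x`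
(`Polynomial.scaleRoots_aeval_eq_zero`), and the degrees of the minimal polynomials of `x` and `n * x` agree
(they generate the same field; or use `minpoly.dvd` in both directions with `scaleRoots n⁻¹`), so it is
the minimal polynomial (`minpoly.eq_of_irreducible_of_monic` or
`minpoly.dvd` and equal degrees). So `(minpoly L x).coeff i * (N ^ e) ^ (d - i)` is in the image of `A`.
-/

set_option autoImplicit false

namespace Pool.Agent.Helper64.TS

theorem coeff_minpoly_mul {A L K : Type*} [CommRing A] [IsDomain A] [IsIntegrallyClosed A]
    [Field L] [Algebra A L] [IsFractionRing A L] [Field K] [Algebra A K] [Algebra L K]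
    [IsScalarTower A L K] (N : A) (hN : N ≠ 0) (x : K) (e : ℕ)
    (h : IsIntegral A (algebraMap A K N ^ e * x)) (i : ℕ) :
    ∃ (r : ℕ) (a : A), (minpoly L x).coeff i * algebraMap A L N ^ r = algebraMap A L a := by
  have hN' : algebraMap A L N ≠ 0 := by
    simpa using (map_ne_zero_iff _ (IsFractionRing.injective A L)).2 hN
  set n : L := algebraMap A L N ^ e with hn
  have hn0 : n ≠ 0 := pow_ne_zero _ hN'
  have hy : algebraMap A K N ^ e * x = n • x := by
    rw [Algebra.smul_def, hn, map_pow, ← IsScalarTower.algebraMap_apply]
  rw [hy] at h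
  have hyL : IsIntegral L (n • x) := h.tower_top
  have hxL : IsIntegral L x := by
    have := hyL.smul n⁻¹
    rwa [smul_smul, inv_mul_cancel₀ hn0, one_smul] at this
  have hmp : minpoly L (n • x) = (minpoly L x).scaleRoots n :=
    IsIntegrallyClosed.minpoly_smul hn0 hxL
  have hA : minpoly L (n • x) = (minpoly A (n • x)).map (algebraMap A L) :=
    minpoly.isIntegrallyClosed_eq_field_fractions' L h
  have hc := congrArg (fun p => p.coeff i) (hmp.symm.trans hA)
  simp only [Polynomial.coeff_scaleRoots, Polynomial.coeff_map] at hc
  refine ⟨e * ((minpoly L x).natDegree - i), (minpoly A (n • x)).coeff i, ?_⟩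
  rw [← hc, hn, pow_mul]

end Pool.Agent.Helper64.TS
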