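import Pool.Agent.Helper65.TH.Basic

/-!
TS. Extension of functions from a subgroup to the group, coset by coset.
-/

set_option autoImplicit false

namespace Pool.Agent.Helper64.TS

open Pool.Agent.Helper65.TH

section Part

variable {G : Type*} [Group G] (Γ : Subgroup G)

/-- the component of `x` in `Γ`, with respect to a fixed set of representatives of the left
cosets of `Γ` -/
noncomputable def part (x : G) : Γ :=
  ⟨(Quotient.out (x : G ⧸ Γ))⁻¹ * x, by
    rw [← QuotientGroup.eq]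
    exact Quotient.out_eq _⟩

theorem part_mul {x y : G} (h : x⁻¹ * y ∈ Γ) :
    ((part Γ x)⁻¹ * part Γ y : Γ) = ⟨x⁻¹ * y, h⟩ := by
  have hq : (x : G ⧸ Γ) = (y : G ⧸ Γ) := QuotientGroup.eq.2 h
  apply Subtype.ext
  simp only [part, Subgroup.coe_mul, Subgroup.coe_inv, hq]
  group

end Part

/-- a slow function on a subgroup extends to a slow function on the group, and the chains for the
extension with steps in the subgroup come from chains in the subgroup -/
theorem extend_light {G : Type*} [Group G] (Γ : Subgroup G) {N : ℕ} (F : Set G)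
    (hF : ∀ s ∈ F, s ∈ Γ) (g₀ : Γ → Fin N → ℝ) (ε : ℝ)
    (hg : ∀ x : Γ, ∀ s : Γ, (s : G) ∈ F → Near (g₀ (x * s)) (g₀ x) ε) :
    ∃ g : G → Fin N → ℝ, (∀ x, ∀ s ∈ F, Near (g (x * s)) (g x) ε) ∧
      ∀ (L : Set G) (C : G → Prop) (x y : G),
        Chain {s | s ∈ F ∧ s ∈ L} (fun b => C (x⁻¹ * b) ∧ Near (g b) (g x) 1) x y →
        ∃ x' y' : Γ, ((x'⁻¹ * y' : Γ) : G) = x⁻¹ * y ∧
          Chain {s : Γ | (s : G) ∈ F ∧ (s : G) ∈ L}
            (fun b => C ((x'⁻¹ * b : Γ) : G) ∧ Near (g₀ b) (g₀ x') 1) x' y' := by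
  refine ⟨fun x => g₀ (part Γ x), ?_, ?_⟩
  · intro x s hs
    have hm : x⁻¹ * (x * s) ∈ Γ := by
      rw [inv_mul_cancel_left]
      exact hF s hs
    have h1 := part_mul Γ hm
    have h2 : part Γ (x * s) = part Γ x * ⟨s, hF s hs⟩ := by
      rw [← inv_mul_eq_iff_eq_mul, h1]
      apply Subtype.ext
      show x⁻¹ * (x * s) = s
      rw [inv_mul_cancel_left]
    show Near (g₀ (part Γ (x * s))) (g₀ (part Γ x)) ε
    rw [h2]
    exact hg _ _ hs
  · intro L C x y hxy
    have hR := hxy.rec' (R := fun z => x⁻¹ * z ∈ Γ ∧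
      Chain {s : Γ | (s : G) ∈ F ∧ (s : G) ∈ L}
        (fun b => C (((part Γ x)⁻¹ * b : Γ) : G) ∧ Near (g₀ b) (g₀ (part Γ x)) 1)
        (part Γ x) (part Γ z))
      ⟨by rw [inv_mul_cancel]; exact Γ.one_mem, Chain.refl _ _ _⟩ (by
        rintro a b _ ⟨ha, hch⟩ hs ⟨hbC, hbN⟩
        have hab : a⁻¹ * b ∈ Γ := hF _ hs.1
        have hxb : x⁻¹ * b ∈ Γ := by
          have : x⁻¹ * b = (x⁻¹ * a) * (a⁻¹ * b) := by group
          rw [this]
          exact Γ.mul_mem ha hab
        refine ⟨hxb, hch.step ?_ ⟨?_, hbN⟩⟩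
        · rw [part_mul Γ hab]
          exact hs
        · rw [part_mul Γ hxb]
          exact hbC)
    refine ⟨part Γ x, part Γ y, ?_, hR.2⟩
    rw [part_mul Γ hR.1]

end Pool.Agent.Helper64.TS
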