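import Pool.Agent.Helper64.TS.TwoStage
import Pool.Agent.Helper64.TS.Extend
import Pool.Agent.Helper58.AR.TowerA

/-!
TS. Definitions: fields with two stages of places, directed unions of linear groups, the class of
bounded sets.
-/

set_option autoImplicit false

namespace Pool.Agent.Helper64.TS

open Pool.Agent.Helper65.TH Pool.Agent.Helper58.GI Pool.Agent.Helper58.AR

universe u w

/-- For every finitely generated subring there are finitely many non-archimedean absolute values `v i` such
that the elements `x` of the subring with `v i x ≤ k` for all `i` are bounded at every non-archimedean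
absolute value, and discrete for finitely many embeddings into `ℂ` (depending on `k`). -/
def WideField (K : Type u) [Field K] : Prop :=
  ∀ E : Finset K, ∃ (p : ℕ) (v : Fin p → AbsoluteValue K ℝ), (∀ i, IsNonarchimedean (v i)) ∧
    ∀ k : ℝ,
      (∀ u : AbsoluteValue K ℝ, IsNonarchimedean u → ∃ C : ℝ,
        ∀ x ∈ Subring.closure (E : Set K), (∀ i, v i x ≤ k) → u x ≤ C) ∧
      ∃ (f : ℕ) (σ : Fin f → K →+* ℂ), ∀ B : ℝ,
        {x : K | x ∈ Subring.closure (E : Set K) ∧ (∀ i, v i x ≤ k) ∧ ∀ j, ‖σ j x‖ ≤ B}.Finite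

/-- `G` as a directed union of linear groups over `K` -/
structure LinData (K : Type u) [Field K] (G : Type w) [Group G] where
  /-- the index set -/
  ι : Type w
  /-- the subgroups -/
  H : ι → Subgroup G
  /-- the degrees -/
  n : ι → ℕ
  /-- the representations -/
  ρ : ∀ i, H i →* GL (Fin (n i)) K
  cov : ∀ g, ∃ i, g ∈ H i
  ker : ∀ i (T : Finset G), (∀ t ∈ T, t ∈ H i) →
    {h : H i | (h : G) ∈ Subgroup.closure (T : Set G) ∧ ρ i h = 1}.Finite
  dir : ∀ i j, ∃ k, ProperLeA (ρ i) (ρ k) ∧ ProperLeA (ρ j) (ρ k)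

namespace LinData

variable {K : Type u} [Field K] {G : Type w} [Group G] (D : LinData K G)

/-- bounded sets: contained in a finitely generated subgroup, with matrices and inverse matrices bounded
at every non-archimedean absolute value -/
def Bd (B : Set G) : Prop :=
  ∃ (i : D.ι) (S : Finset G), (∀ s ∈ S, s ∈ D.H i) ∧
    (∀ z ∈ B, z ∈ Subgroup.closure (S : Set G)) ∧
    ∀ u : AbsoluteValue K ℝ, IsNonarchimedean u → ∃ C : ℝ,
      ∀ h : D.H i, (h : G) ∈ B → ∀ s, u (ent (D.ρ i h) s) ≤ C

theorem exists_ge (i : D.ι) (S : Finset G) :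
    ∃ j, ProperLeA (D.ρ i) (D.ρ j) ∧ ∀ s ∈ S, s ∈ D.H j := by
  classical
  induction S using Finset.induction_on with
  | empty => exact ⟨i, ProperLeA.refl _, by simp⟩
  | insert a S _ ih =>
    obtain ⟨j, hij, hj⟩ := ih
    obtain ⟨k, hk⟩ := D.cov a
    obtain ⟨l, hjl, hkl⟩ := D.dir j k
    refine ⟨l, hij.trans hjl, ?_⟩
    intro s hs
    rcases Finset.mem_insert.1 hs with rfl | hs
    · exact hkl.1 hk
    · exact hjl.1 (hj s hs)

end LinData

end Pool.Agent.Helper64.TS
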