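import Pool.Agent.Helper64.TS.EmbedExt

/-!
TS-18. Finitely many embeddings into `ℂ` control the minimal polynomials.

Proof. `E' = IntermediateField.adjoin L E` is finite over `L`, countable (`L` is countable). Make `ℂ` an `L`-algebra
by `σ`. There are finitely many `L`-homomorphisms `E' → ℂ` (`Fintype (E' →ₐ[L] ℂ)`, `L` has characteristic zero
since it embeds in `ℂ`); extend each of them to `K` by `exists_embedding_extension`. For `x ∈ Subring.closure E`,
`x' ∈ E'`: the roots in `ℂ` of `minpoly L x' = minpoly L x` are the values `ψ x'`, `ψ : E' →ₐ[L] ℂ`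
(`Algebra.IsAlgebraic.range_eval_eq_rootSet_minpoly`), so all roots have norm at most `B`, the degree is at most
`d = finrank L E'`, and the coefficients are bounded by `2 ^ d * max B 1 ^ d`: `Polynomial.coeff_le_of_roots_le`
(see `NumberField.Embeddings.coeff_bdd_of_norm_le` in
`Mathlib/NumberTheory/NumberField/InfinitePlace/Embeddings.lean` for the same argument).
-/

set_option autoImplicit false

namespace Pool.Agent.Helper64.TS

private theorem countable_of_finiteDimensional {L : Type*} {M : Type*} [Field L] [AddCommGroup M]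
    [Module L M] [FiniteDimensional L M] (hL : Countable L) : Countable M := by
  have e := (Module.finBasis L M).equivFun
  exact e.toEquiv.injective.countable

theorem exists_embedding_family {L K : Type*} [Field L] [Field K] [Algebra L K] (hL : Countable L)
    (hK : Cardinal.mk K ≤ Cardinal.continuum) (E : Finset K) (hE : ∀ t ∈ E, IsAlgebraic L t)
    (σ : L →+* ℂ) :
    ∃ (f : ℕ) (τ : Fin f → K →+* ℂ), ∀ B : ℝ, ∃ C : ℝ, ∀ x ∈ Subring.closure (E : Set K),
      (∀ j, ‖τ j x‖ ≤ B) → ∀ i, ‖σ ((minpoly L x).coeff i)‖ ≤ C := by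
  classical
  letI : Algebra L ℂ := σ.toAlgebra
  haveI : CharZero L := (σ.charZero_iff σ.injective).mpr inferInstance
  let E' : IntermediateField L K := IntermediateField.adjoin L (E : Set K)
  haveI hfin : FiniteDimensional L E' :=
    IntermediateField.finiteDimensional_adjoin (K := L) (S := (E : Set K))
      (fun x hx => (hE x (by simpa using hx)).isIntegral)
  haveI : Algebra.IsAlgebraic L E' := Algebra.IsAlgebraic.of_finite L E'
  have hcount : Countable E' := countable_of_finiteDimensional (L := L) hL
  haveI : Finite (E' →ₐ[L] ℂ) := inferInstance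
  obtain ⟨f, ⟨e⟩⟩ := Finite.exists_equiv_fin (E' →ₐ[L] ℂ)
  have hext : ∀ ψ : E' →ₐ[L] ℂ, ∃ τ : K →+* ℂ, ∀ a : E', τ (algebraMap E' K a) = ψ a := by
    intro ψ
    exact exists_embedding_extension hcount hK (ψ : E' →+* ℂ)
  choose τ hτ using hext
  refine ⟨f, fun j => τ (e.symm j), fun B => ?_⟩
  refine ⟨max B 1 ^ Module.finrank L E' *
    (Module.finrank L E').choose (Module.finrank L E' / 2), ?_⟩
  intro x hx hB i
  -- `x` lies in `E'`
  have hxE : x ∈ E' := by
    have hle : Subring.closure (E : Set K) ≤ E'.toSubfield.toSubring := by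
      rw [Subring.closure_le]
      intro y hy
      exact IntermediateField.subset_adjoin L (E : Set K) hy
    exact hle hx
  let x' : E' := ⟨x, hxE⟩
  have hmin : minpoly L x = minpoly L x' := by
    have h := minpoly.algebraMap_eq (A := L) (B := E') (B' := K) (algebraMap E' K).injective x'
    exact h
  have hint : IsIntegral L x' := Algebra.IsIntegral.isIntegral x'
  rw [hmin]
  have hcoe : σ ((minpoly L x').coeff i) =
      (Polynomial.map (algebraMap L ℂ) (minpoly L x')).coeff i := by
    rw [Polynomial.coeff_map]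
    rfl
  rw [hcoe]
  refine Polynomial.coeff_bdd_of_roots_le _ (minpoly.monic hint)
      (IsAlgClosed.splits _) (minpoly.natDegree_le x') (fun z hz => ?_) i
  have hz' : z ∈ (minpoly L x').rootSet ℂ := by
    rw [Polynomial.rootSet, Finset.mem_coe, Multiset.mem_toFinset]
    exact hz
  rw [← Algebra.IsAlgebraic.range_eval_eq_rootSet_minpoly (F := L) (K := E') ℂ x'] at hz'
  obtain ⟨ψ, hψ⟩ := hz'
  have h1 := hB (e ψ)
  have h2 : τ ψ x = ψ x' := hτ ψ x'
  simp only [Equiv.symm_apply_apply] at h1
  rw [h2] at h1
  have h3 : ψ x' = z := hψ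
  rw [h3] at h1
  exact h1

end Pool.Agent.Helper64.TS
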