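import Pool.Agent.Helper61.AQ.Ext

/-!
TS-17. Finitely many non-archimedean absolute values control the minimal polynomials.

Proof. As in `exists_places_of_integral` in `Helper70/AQ/PlacesP.lean`: `E' = IntermediateField.adjoin L E` is
finite over `L`; `exists_extensions` (file `Helper61/AQ/Alg.lean`) for `L`, `E'` and every `v i` gives finitely many
absolute values on `E'` with `v i (coefficients of minpoly L x') ≤ B ^ natDegree` if all of them are at most
`B` at `x'`; extend all of them to `K` by `exists_abv_extension` (file `Helper61/AQ/Ext.lean`); index the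
disjoint union over `i : Fin p` by a `Fin p'` (`Fintype.equivFin` of the sigma type). `d` is the degree of `E'`
over `L`; `minpoly L x = minpoly L x'` (`minpoly.algebraMap_eq`), `minpoly.natDegree_le`,
`B ^ natDegree ≤ B ^ d` as `1 ≤ B`.
-/

set_option autoImplicit false

namespace Pool.Agent.Helper64.TS

open Pool.Agent.Helper61.Apc

theorem exists_abv_family {L K : Type*} [Field L] [Field K] [Algebra L K] (E : Finset K)
    (hE : ∀ t ∈ E, IsAlgebraic L t) {p : ℕ} (v : Fin p → AbsoluteValue L ℝ)
    (hv : ∀ i, IsNonarchimedean (v i)) :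
    ∃ (p' : ℕ) (w : Fin p' → AbsoluteValue K ℝ) (d : ℕ), (∀ i, IsNonarchimedean (w i)) ∧
      ∀ x ∈ Subring.closure (E : Set K), (minpoly L x).natDegree ≤ d ∧
        ∀ B : ℝ, 1 ≤ B → (∀ i, w i x ≤ B) → ∀ i j, v i ((minpoly L x).coeff j) ≤ B ^ d := by
  classical
  let E' : IntermediateField L K := IntermediateField.adjoin L (E : Set K)
  have hE' : FiniteDimensional L E' := by
    apply IntermediateField.finiteDimensional_adjoin
    intro x hx
    exact (hE x (by simpa using hx)).isIntegral
  choose q u hu huB using fun i => exists_extensions (E := E') (v i) (hv i)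
  choose e he hee using fun (i : Fin p) (l : Fin (q i)) =>
    exists_abv_extension (E := K) (u i l) (hu i l)
  let f := Fintype.equivFin (Σ i : Fin p, Fin (q i))
  refine ⟨Fintype.card (Σ i : Fin p, Fin (q i)), fun a => e (f.symm a).1 (f.symm a).2,
    Module.finrank L E', fun a => he _ _, fun x hx => ?_⟩
  have hxE : x ∈ E' := by
    refine Subring.closure_induction (p := fun y _ => y ∈ E')
      ?_ (zero_mem _) (one_mem _) ?_ ?_ ?_ hx
    · intro y hy
      exact IntermediateField.subset_adjoin L _ hy
    · intro y z _ _ h1 h2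
      exact add_mem h1 h2
    · intro y _ h1
      exact neg_mem h1
    · intro y z _ _ h1 h2
      exact mul_mem h1 h2
  let x' : E' := ⟨x, hxE⟩
  have hmin : minpoly L x = minpoly L x' :=
    minpoly.algebraMap_eq (A := L) (B := E') (B' := K) (algebraMap E' K).injective x'
  have hdeg : (minpoly L x).natDegree ≤ Module.finrank L E' := by
    rw [hmin]
    exact minpoly.natDegree_le x'
  refine ⟨hdeg, fun B hB hB2 i j => ?_⟩
  have h1 : ∀ l, u i l x' ≤ B := by
    intro l
    have h2 := hB2 (f ⟨i, l⟩)
    beta_reduce at h2
    rw [Equiv.symm_apply_apply] at h2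
    have h3 := hee i l x'
    have h4 : algebraMap E' K x' = x := rfl
    rw [h4] at h3
    rw [← h3]
    exact h2
  have h2 := huB i B hB x' h1 j
  rw [← hmin] at h2
  exact h2.trans (pow_le_pow_right₀ hB hdeg)

end Pool.Agent.Helper64.TS
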