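import Pool.Agent.Helper64.TS.Density

/-!
TS-15. Polynomials with integral coefficients and bounded degree are discrete for finitely many
embeddings of the polynomial ring into `ℂ`.

Proof. Let `V = MvPolynomial.restrictTotalDegree (Fin s) ℂ D`, a finite-dimensional vector space over `ℂ`
(instance). For `θ : Fin s → ℂ` let `ev θ : V →ₗ[ℂ] ℂ`. By `exists_algebraicIndependent_eval_ne` the
intersection of the kernels of all `ev θ`, `θ` algebraically independent over `ℚ`, is `0`. So finitely many
`θ 0, ..., θ (f - 1)` suffice: choose a finite list for which the `finrank` of the intersection of the kernels is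
minimal; if a nonzero `c` is in the intersection then adding a `θ` with `ev θ c ≠ 0` makes it smaller
(`Submodule.finrank_lt_finrank_of_lt`). The linear map `ev : V → (Fin f → ℂ)` is injective, `V` is
finite-dimensional, so there is `C` with `‖coefficients of c‖ ≤ C * ‖ev c‖`
(`LinearMap.exists_antilipschitzWith` for the map to `Fin f → ℂ` after choosing a norm on `V`, or compose a left
inverse `Fin f → ℂ → V` (`LinearMap.exists_leftInverse_of_injective`) with the coefficient functionals: every
linear map `(Fin f → ℂ) → ℂ` is bounded by `∑ ‖a j‖ * ‖z j‖`). Hence for `c` with integral coefficients and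
`‖θ j c‖ ≤ B` for all `j` the coefficients are integers of absolute value at most `C B`, and there are finitely
many monomials of degree at most `D`: finitely many `c` (inject `c` into functions on the finite set of
the exponents of degree at most `D`, cf. `finite_totalDegree_le` in `Helper61/AQ/Base.lean`).
The embeddings of `MvPolynomial (Fin s) ℤ` are `MvPolynomial.eval₂Hom (Int.castRingHom ℂ) (θ j)`, injective
because `θ j` is algebraically independent over `ℚ`, hence over `ℤ` (`AlgebraicIndependent.restrictScalars`).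
-/

set_option autoImplicit false

namespace Pool.Agent.Helper64.TS

open MvPolynomial

/-- integral polynomials of bounded degree with bounded coefficients -/
private theorem finite_coeff (s D : ℕ) (N : ℤ) :
    {f : MvPolynomial (Fin s) ℤ | f.totalDegree ≤ D ∧ ∀ m, |f.coeff m| ≤ N}.Finite := by
  classical
  let Φ : ((Fin s → Fin (D + 1)) → Set.Icc (-N) N) → MvPolynomial (Fin s) ℤ := fun g =>
    ∑ e : Fin s → Fin (D + 1),
      monomial (Finsupp.equivFunOnFinite.symm fun i => (e i : ℕ)) (g e : ℤ)
  refine (Set.finite_range Φ).subset ?_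
  intro f hf
  have hfD : f.totalDegree ≤ D := hf.1
  refine ⟨fun e => ⟨f.coeff (Finsupp.equivFunOnFinite.symm fun i => (e i : ℕ)),
    abs_le.1 (hf.2 _)⟩, ?_⟩
  ext m
  simp only [Φ, coeff_sum, coeff_monomial]
  by_cases hm : ∀ i, m i ≤ D
  · rw [Finset.sum_eq_single (fun i => (⟨m i, by have := hm i; omega⟩ : Fin (D + 1)))]
    · have h1 : (Finsupp.equivFunOnFinite.symm fun i => m i) = m := by
        ext i; simp
      simp only [h1, if_true]
    · intro e _ he
      rw [if_neg]
      intro h
      apply he
      funext i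
      apply Fin.ext
      show (e i : ℕ) = m i
      rw [← h]
      simp
    · intro h
      exact absurd (Finset.mem_univ _) h
  · have h0 : f.coeff m = 0 := by
      by_contra h
      apply hm
      intro i
      have h1 : m ∈ f.support := mem_support_iff.2 h
      have h2 := le_totalDegree h1
      have h3 : m i ≤ m.sum fun _ e => e := by
        rw [Finsupp.sum_fintype _ _ (fun _ => rfl)]
        exact Finset.single_le_sum (f := fun i => m i) (fun _ _ => Nat.zero_le _)
          (Finset.mem_univ i)
      omega
    rw [h0]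
    refine Finset.sum_eq_zero fun e _ => ?_
    rw [if_neg]
    intro h
    apply hm
    intro i
    rw [← h]
    simp only [Finsupp.coe_equivFunOnFinite_symm]
    have := (e i).2
    omega

/-- a finite-dimensional space is separated by finitely many members of a separating family of
functionals -/
private theorem finite_separating {V : Type*} [AddCommGroup V] [Module ℂ V] [Module.Finite ℂ V]
    {ι : Type*} (l : ι → V →ₗ[ℂ] ℂ) (h : ∀ v, (∀ i, l i v = 0) → v = 0) :
    ∃ (f : ℕ) (e : Fin f → ι), ∀ v, (∀ j, l (e j) v = 0) → v = 0 := by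
  classical
  obtain ⟨s, hs⟩ := Finset.exists_inf_le (fun i => LinearMap.ker (l i))
  refine ⟨s.card, fun j => (s.equivFin.symm j : ι), fun v hv => h v fun i => ?_⟩
  have h1 : v ∈ s.inf (fun i => LinearMap.ker (l i)) := by
    rw [Submodule.mem_finsetInf]
    intro k hk
    rw [LinearMap.mem_ker]
    have := hv (s.equivFin ⟨k, hk⟩)
    simpa using this
  exact LinearMap.mem_ker.1 (hs i h1)

theorem exists_points (s D : ℕ) :
    ∃ (f : ℕ) (θ : Fin f → MvPolynomial (Fin s) ℤ →+* ℂ), (∀ j, Function.Injective (θ j)) ∧
      ∀ B : ℝ, {c : MvPolynomial (Fin s) ℤ | c.totalDegree ≤ D ∧ ∀ j, ‖θ j c‖ ≤ B}.Finite := by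
  classical
  let V := restrictTotalDegree (Fin s) ℂ D
  let l : {t : Fin s → ℂ // AlgebraicIndependent ℚ t} → V →ₗ[ℂ] ℂ := fun t =>
    (aeval (R := ℂ) t.1).toLinearMap ∘ₗ V.subtype
  obtain ⟨f, e, he⟩ := finite_separating l (by
    intro v hv
    by_contra h0
    obtain ⟨t, ht, h1⟩ := exists_algebraicIndependent_eval_ne (v : MvPolynomial (Fin s) ℂ)
      (fun h2 => h0 (Subtype.ext h2))
    apply h1
    have h3 := hv ⟨t, ht⟩
    simpa [l, aeval_eq_eval] using h3)
  refine ⟨f, fun j => eval₂Hom (Int.castRingHom ℂ) (e j).1, fun j => ?_, fun B => ?_⟩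
  · have h1 : AlgebraicIndependent ℤ (e j).1 :=
      AlgebraicIndependent.restrictScalars (K := ℚ) (algebraMap ℤ ℚ).injective_int (e j).2
    exact h1
  · let ev : V →ₗ[ℂ] (Fin f → ℂ) := LinearMap.pi fun j => l (e j)
    have hker : LinearMap.ker ev = ⊥ := by
      rw [LinearMap.ker_eq_bot']
      intro v hv
      exact he v fun j => congrFun hv j
    obtain ⟨g, hg⟩ := ev.exists_leftInverse_of_injective hker
    let cf : (Fin s →₀ ℕ) → (Fin f → ℂ) →ₗ[ℂ] ℂ := fun m =>
      MvPolynomial.lcoeff ℂ m ∘ₗ V.subtype ∘ₗ g
    have hcf : ∀ (m : Fin s →₀ ℕ) (v : V), (v : MvPolynomial (Fin s) ℂ).coeff m = cf m (ev v) := by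
      intro m v
      have h1 : g (ev v) = v := LinearMap.congr_fun hg v
      show _ = (g (ev v) : MvPolynomial (Fin s) ℂ).coeff m
      rw [h1]
    have hbd : ∀ (m : Fin s →₀ ℕ) (v : V), (∀ j, ‖l (e j) v‖ ≤ B) →
        ‖(v : MvPolynomial (Fin s) ℂ).coeff m‖ ≤ (∑ j, ‖cf m (Pi.single j 1)‖) * |B| := by
      intro m v hv
      rw [hcf]
      have h1 : cf m (ev v) = ∑ j, ev v j * cf m (Pi.single j 1) := by
        conv_lhs => rw [← Finset.univ_sum_single (ev v)]
        rw [map_sum]
        refine Finset.sum_congr rfl fun j _ => ?_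
        have h2 : (Pi.single j (ev v j) : Fin f → ℂ) = ev v j • Pi.single j 1 := by
          rw [← Pi.single_smul]
          simp
        rw [h2, map_smul, smul_eq_mul]
      rw [h1, Finset.sum_mul]
      refine (norm_sum_le _ _).trans (Finset.sum_le_sum fun j _ => ?_)
      rw [norm_mul, mul_comm]
      exact mul_le_mul_of_nonneg_left ((hv j).trans (le_abs_self B)) (norm_nonneg _)
    let E : (Fin s → Fin (D + 1)) → (Fin s →₀ ℕ) := fun a =>
      Finsupp.equivFunOnFinite.symm fun i => (a i : ℕ)
    let C : (Fin s →₀ ℕ) → ℝ := fun m => (∑ j, ‖cf m (Pi.single j 1)‖) * |B|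
    have hC : ∀ m, 0 ≤ C m := fun m =>
      mul_nonneg (Finset.sum_nonneg fun _ _ => norm_nonneg _) (abs_nonneg B)
    refine (finite_coeff s D ⌈∑ a, C (E a)⌉).subset ?_
    rintro c ⟨hc, hcB⟩
    refine ⟨hc, fun m => ?_⟩
    have hN : 0 ≤ ∑ a, C (E a) := Finset.sum_nonneg fun a _ => hC _
    by_cases hm : c.coeff m = 0
    · rw [hm, abs_zero]
      exact Int.ceil_nonneg hN
    · have hmD : ∀ i, m i < D + 1 := by
        intro i
        have h1 : m ∈ c.support := mem_support_iff.2 hm
        have h2 := le_totalDegree h1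
        have h3 : m i ≤ m.sum fun _ e => e := by
          rw [Finsupp.sum_fintype _ _ (fun _ => rfl)]
          exact Finset.single_le_sum (f := fun i => m i) (fun _ _ => Nat.zero_le _)
            (Finset.mem_univ i)
        omega
      have hmE : m = E fun i => ⟨m i, hmD i⟩ := by
        ext i
        simp [E]
      have hv : (c.map (Int.castRingHom ℂ)) ∈ V := by
        rw [mem_restrictTotalDegree]
        exact (Finset.sup_mono (support_map_subset _ _)).trans hc
      have h1 := hbd m ⟨_, hv⟩ (fun j => by
        have h2 : l (e j) ⟨c.map (Int.castRingHom ℂ), hv⟩ =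
            eval₂Hom (Int.castRingHom ℂ) (e j).1 c := by
          show aeval (e j).1 (c.map (Int.castRingHom ℂ)) = _
          rw [aeval_def, eval₂_map]
          rfl
        rw [h2]
        exact hcB j)
      have h3 : ‖(c.map (Int.castRingHom ℂ)).coeff m‖ = ((|c.coeff m| : ℤ) : ℝ) := by
        rw [coeff_map]
        simp
      have h4 : C m ≤ ∑ a, C (E a) := by
        rw [hmE]
        exact Finset.single_le_sum (f := fun a => C (E a)) (fun a _ => hC _) (Finset.mem_univ _)
      have h5 : ((|c.coeff m| : ℤ) : ℝ) ≤ ∑ a, C (E a) := by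
        rw [← h3]
        exact h1.trans h4
      exact_mod_cast h5.trans (Int.le_ceil _)

end Pool.Agent.Helper64.TS
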