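import Pool.Agent.Helper64.TS.PlacesZ
import Pool.Agent.Helper64.TS.Points
import Pool.Agent.Helper64.TS.Basis
import Pool.Agent.Helper64.TS.MinNon
import Pool.Agent.Helper64.TS.MinArch
import Pool.Agent.Helper64.TS.Coef
import Pool.Agent.Helper64.TS.Lin

/-!
TS-20. Fields of characteristic zero and cardinality at most the continuum have two stages of places.

Proof. Let `E` be finite. `exists_basis` gives `s`, `φ`, `N`. `A = MvPolynomial (Fin s) ℤ`,
`L = FractionRing A` (countable), `K` is an `A`-algebra by `φ` and an `L`-algebra by `FractionRing.liftAlgebra`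
(see the proof of `exists_places_charP_of` in `Helper70/AQ/PlacesP.lean` for the instances). Every `x` in
`R = Subring.closure E` is algebraic over `L`, and by `coeff_minpoly_mul` for every coefficient `c` of
`minpoly L x` there are `r`, `a` with `c * N ^ r = a ∈ A` (`A` is integrally closed: it is a unique
factorization domain). `exists_places_int s N` gives `m`, `u` on `L`; `exists_abv_family` for `u` gives `p'`, `w`, `d`:
these are the absolute values `v := w`. Given `k`, let `k₁ = max k 1`, `B = k₁ ^ d`, and `b`, `D` from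
`exists_places_int` for `B`: for `x ∈ R` with `w i x ≤ k` every coefficient `c` of `minpoly L x` is
`a' / N ^ b` with `a'.totalDegree ≤ D`.
(i) For `u'` non-archimedean on `K`: let `q = max 1 (max over i of u' (φ (X i)))`; `u' (φ a') ≤ q ^ D` for
`a'.totalDegree ≤ D` (integers have value at most `1`, `abv_natCast_le_one`), so the coefficients
have `u'`-value at most `C₀ = max 1 (q ^ D / u' (φ N) ^ b)`, and a root `x` of a monic polynomial with coefficients of
value at most `C₀` (`C₀ ≥ 1`) has `u' x ≤ C₀`: if `u' x > C₀` then `u' (x ^ n) > u' (c_j x ^ j)` for all `j < n`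
(or use `exists_bound_root`-like arguments with the triangle inequality: `u' x ≤ 1 + d * C₀`).
(ii) `exists_points s D` gives `f`, `θ`; every `θ j` extends to `L` (`IsFractionRing.lift`, injective), and
`exists_embedding_family` gives finitely many `τ : K → ℂ` for each `j`; take all of them (sigma type). For
`x ∈ R` with `w i x ≤ k` and `‖τ x‖ ≤ B'` for all of them: `‖θ j c‖ ≤ C j` for all coefficients `c` of
`minpoly L x`, so `‖θ j a'‖ ≤ C j * ‖θ j N‖ ^ b`, so `a'` is in a finite set, `c` is in a finite set `U`, and `x` is a root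
of a nonzero polynomial of degree at most `d` with coefficients in the finite set `U`
(`Polynomial.bUnion_roots_finite`, see the end of the proof of `exists_places_of_integral`).
-/

set_option autoImplicit false

namespace Pool.Agent.Helper64.TS

universe u

private theorem na_sum {R ι : Type*} [Ring R] (v : AbsoluteValue R ℝ) (hv : IsNonarchimedean v)
    (S : Finset ι) (f : ι → R) {C : ℝ} (hC : 0 ≤ C) (h : ∀ i ∈ S, v (f i) ≤ C) :
    v (∑ i ∈ S, f i) ≤ C := by
  classical
  induction S using Finset.induction_on with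
  | empty => simpa using hC
  | insert a S ha ih =>
    rw [Finset.sum_insert ha]
    refine (hv _ _).trans (max_le (h a (Finset.mem_insert_self _ _)) (ih ?_))
    intro i hi
    exact h i (Finset.mem_insert_of_mem hi)

private theorem na_nat {K : Type*} [Field K] (v : AbsoluteValue K ℝ) (hv : IsNonarchimedean v)
    (n : ℕ) : v (n : K) ≤ 1 := by
  induction n with
  | zero => simp
  | succ n ih =>
    rw [Nat.cast_succ]
    refine (hv _ _).trans (max_le ih ?_)
    rw [map_one]

private theorem na_int {K : Type*} [Field K] (v : AbsoluteValue K ℝ) (hv : IsNonarchimedean v)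
    (n : ℤ) : v (n : K) ≤ 1 := by
  rcases Int.eq_nat_or_neg n with ⟨m, rfl | rfl⟩
  · rw [Int.cast_natCast]
    exact na_nat v hv m
  · rw [Int.cast_neg, Int.cast_natCast, AbsoluteValue.map_neg]
    exact na_nat v hv m

private theorem na_poly {K : Type*} [Field K] (v : AbsoluteValue K ℝ) (hv : IsNonarchimedean v)
    {s : ℕ} (φ : MvPolynomial (Fin s) ℤ →+* K) {q : ℝ} (hq : 1 ≤ q)
    (hX : ∀ i, v (φ (MvPolynomial.X i)) ≤ q) (a : MvPolynomial (Fin s) ℤ) {D : ℕ}
    (hD : a.totalDegree ≤ D) : v (φ a) ≤ q ^ D := by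
  classical
  have h0 : (0 : ℝ) ≤ q := zero_le_one.trans hq
  rw [a.as_sum, map_sum]
  refine na_sum v hv _ _ (pow_nonneg h0 _) ?_
  intro m hm
  rw [MvPolynomial.monomial_eq, map_mul, map_mul, Finsupp.prod, map_prod, map_prod]
  have h1 : v (φ (MvPolynomial.C (MvPolynomial.coeff m a))) ≤ 1 := by
    have h2 : φ (MvPolynomial.C (MvPolynomial.coeff m a)) = ((MvPolynomial.coeff m a : ℤ) : K) := by
      rw [← eq_intCast (φ.comp MvPolynomial.C)]
      rfl
    rw [h2]
    exact na_int v hv _
  have h3 : ∏ i ∈ m.support, v (φ (MvPolynomial.X i ^ m i)) ≤ ∏ i ∈ m.support, q ^ m i := by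
    refine Finset.prod_le_prod (fun i _ => v.nonneg _) ?_
    intro i _
    rw [map_pow, map_pow]
    exact pow_le_pow_left₀ (v.nonneg _) (hX i) _
  have h4 : ∏ i ∈ m.support, q ^ m i ≤ q ^ D := by
    rw [Finset.prod_pow_eq_pow_sum]
    refine pow_le_pow_right₀ hq (le_trans ?_ hD)
    exact MvPolynomial.le_totalDegree hm
  calc v (φ (MvPolynomial.C (MvPolynomial.coeff m a))) *
        ∏ i ∈ m.support, v (φ (MvPolynomial.X i ^ m i))
      ≤ 1 * q ^ D := by
        refine mul_le_mul h1 (h3.trans h4) ?_ zero_le_one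
        exact Finset.prod_nonneg (fun i _ => v.nonneg _)
    _ = q ^ D := one_mul _

private theorem na_root {L K : Type*} [Field L] [Field K] [Algebra L K] (v : AbsoluteValue K ℝ)
    (hv : IsNonarchimedean v) {C : ℝ} (hC : 1 ≤ C) (x : K) (hx : IsIntegral L x)
    (h : ∀ j, v (algebraMap L K ((minpoly L x).coeff j)) ≤ C) : v x ≤ C := by
  rcases le_total (v x) 1 with h1 | h1
  · exact h1.trans hC
  have h0 : (0 : ℝ) ≤ C := zero_le_one.trans hC
  have hm := minpoly.monic hx
  have hn : 0 < (minpoly L x).natDegree := minpoly.natDegree_pos hx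
  obtain ⟨n, hn'⟩ := Nat.exists_eq_succ_of_ne_zero hn.ne'
  have ha := minpoly.aeval L x
  rw [Polynomial.aeval_eq_sum_range, hn', Finset.sum_range_succ] at ha
  have hlead : (minpoly L x).coeff n.succ = 1 := by
    rw [← hn']
    exact hm
  rw [hlead, one_smul] at ha
  have hxn : x ^ n.succ = - ∑ i ∈ Finset.range n.succ, (minpoly L x).coeff i • x ^ i := by
    rw [eq_neg_iff_add_eq_zero, add_comm]
    exact ha
  have hle : v (x ^ n.succ) ≤ C * v x ^ n := by
    rw [hxn, AbsoluteValue.map_neg]
    refine na_sum v hv _ _ (mul_nonneg h0 (pow_nonneg (v.nonneg _) _)) ?_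
    intro i hi
    rw [Algebra.smul_def, map_mul, map_pow]
    refine mul_le_mul (h i) ?_ (pow_nonneg (v.nonneg _) _) h0
    exact pow_le_pow_right₀ h1 (Nat.lt_succ_iff.1 (Finset.mem_range.1 hi))
  rw [map_pow, pow_succ, mul_comm] at hle
  have hpos : 0 < v x ^ n := pow_pos (lt_of_lt_of_le zero_lt_one h1) _
  exact le_of_mul_le_mul_right hle hpos

theorem wideField_charZero {K : Type u} [Field K] [CharZero K]
    (hK : Cardinal.mk K ≤ Cardinal.continuum) : WideField K := by
  classical
  intro E
  obtain ⟨s, φ, N, hφ, hN, hint⟩ := exists_basis (K := K) E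
  let _ : Algebra (MvPolynomial (Fin s) ℤ) K := φ.toAlgebra
  have : FaithfulSMul (MvPolynomial (Fin s) ℤ) K :=
    (faithfulSMul_iff_algebraMap_injective _ _).2 hφ
  let _ : Algebra (FractionRing (MvPolynomial (Fin s) ℤ)) K := FractionRing.liftAlgebra _ _
  have hmapN : algebraMap (MvPolynomial (Fin s) ℤ) K N ≠ 0 := by
    intro h
    exact hN (hφ (h.trans (map_zero φ).symm))
  have hmapNL : algebraMap (MvPolynomial (Fin s) ℤ) (FractionRing (MvPolynomial (Fin s) ℤ)) N ≠ 0 :=
    fun h => hN ((IsFractionRing.injective (MvPolynomial (Fin s) ℤ)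
      (FractionRing (MvPolynomial (Fin s) ℤ))) (h.trans (map_zero _).symm))
  have htow : ∀ a : MvPolynomial (Fin s) ℤ,
      algebraMap (FractionRing (MvPolynomial (Fin s) ℤ)) K (algebraMap _ _ a) = φ a := by
    intro a
    exact (IsScalarTower.algebraMap_apply (MvPolynomial (Fin s) ℤ)
      (FractionRing (MvPolynomial (Fin s) ℤ)) K a).symm
  have hintA : ∀ x ∈ Subring.closure (E : Set K), ∃ e : ℕ,
      IsIntegral (MvPolynomial (Fin s) ℤ) (algebraMap (MvPolynomial (Fin s) ℤ) K N ^ e * x) := by
    intro x hx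
    obtain ⟨e, he⟩ := hint x hx
    exact ⟨e, he⟩
  have hintL : ∀ x ∈ Subring.closure (E : Set K),
      IsIntegral (FractionRing (MvPolynomial (Fin s) ℤ)) x := by
    intro x hx
    obtain ⟨e, he⟩ := hintA x hx
    have h1 : IsIntegral (FractionRing (MvPolynomial (Fin s) ℤ))
        (algebraMap (MvPolynomial (Fin s) ℤ) K N ^ e * x) := he.tower_top
    have h2 : x = algebraMap (FractionRing (MvPolynomial (Fin s) ℤ)) K
        ((algebraMap (MvPolynomial (Fin s) ℤ) (FractionRing (MvPolynomial (Fin s) ℤ)) N ^ e)⁻¹) *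
        (algebraMap (MvPolynomial (Fin s) ℤ) K N ^ e * x) := by
      rw [map_inv₀, map_pow, htow]
      have h3 : φ N ^ e ≠ 0 := pow_ne_zero _ hmapN
      have h4 : algebraMap (MvPolynomial (Fin s) ℤ) K N = φ N := rfl
      rw [h4, inv_mul_cancel_left₀ h3]
    rw [h2]
    exact isIntegral_algebraMap.mul h1
  obtain ⟨m, v₀, hv₀, hB₀⟩ := exists_places_int s
    (L := FractionRing (MvPolynomial (Fin s) ℤ)) N hN
  have hE : ∀ t ∈ E, IsAlgebraic (FractionRing (MvPolynomial (Fin s) ℤ)) t := fun t ht =>
    (hintL t (Subring.subset_closure (by simpa using ht))).isAlgebraic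
  obtain ⟨p, w, d, hw, hwd⟩ := exists_abv_family E hE v₀ hv₀
  refine ⟨p, w, hw, fun k => ?_⟩
  obtain ⟨b, D, hbD⟩ := hB₀ ((max k 1) ^ d)
  -- the coefficients of the minimal polynomials
  have hcoef : ∀ x ∈ Subring.closure (E : Set K), (∀ i, w i x ≤ k) → ∀ j,
      ∃ a : MvPolynomial (Fin s) ℤ, a.totalDegree ≤ D ∧
        (minpoly (FractionRing (MvPolynomial (Fin s) ℤ)) x).coeff j *
          algebraMap (MvPolynomial (Fin s) ℤ) (FractionRing (MvPolynomial (Fin s) ℤ)) N ^ b =
        algebraMap (MvPolynomial (Fin s) ℤ) (FractionRing (MvPolynomial (Fin s) ℤ)) a := by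
    intro x hx hxk j
    obtain ⟨e, he⟩ := hintA x hx
    refine hbD _ ?_ ?_
    · exact coeff_minpoly_mul N hN x e he j
    · intro i
      exact (hwd x hx).2 (max k 1) (le_max_right _ _) (fun i => (hxk i).trans (le_max_left _ _)) i j
  refine ⟨?_, ?_⟩
  · intro v hv
    refine ⟨max 1 ((1 + ∑ i, v (φ (MvPolynomial.X i))) ^ D / v (φ N) ^ b), ?_⟩
    intro x hx hxk
    have hq : (1 : ℝ) ≤ 1 + ∑ i, v (φ (MvPolynomial.X i)) := by
      have := Finset.sum_nonneg (s := Finset.univ) (fun (i : Fin s) _ =>
        v.nonneg (φ (MvPolynomial.X i)))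
      linarith
    have hX : ∀ i, v (φ (MvPolynomial.X i)) ≤ 1 + ∑ i, v (φ (MvPolynomial.X i)) := by
      intro i
      have := Finset.single_le_sum (s := Finset.univ)
        (f := fun (i : Fin s) => v (φ (MvPolynomial.X i)))
        (fun i _ => v.nonneg _) (Finset.mem_univ i)
      linarith
    refine na_root v hv (le_max_left _ _) x (hintL x hx) ?_
    intro j
    obtain ⟨a, ha, hae⟩ := hcoef x hx hxk j
    have h1 := congrArg (algebraMap (FractionRing (MvPolynomial (Fin s) ℤ)) K) hae
    rw [map_mul, map_pow, htow, htow] at h1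
    have h2 := congrArg v h1
    rw [map_mul, map_pow] at h2
    have hpos : 0 < v (φ N) ^ b := pow_pos (v.pos hmapN) _
    refine le_max_of_le_right ?_
    rw [le_div_iff₀ hpos, h2]
    exact na_poly v hv φ hq hX a ha
  · obtain ⟨f, θ, hθ, hfin⟩ := exists_points s D
    have hLc : Countable (FractionRing (MvPolynomial (Fin s) ℤ)) := by
      have h1 : Countable (MvPolynomial (Fin s) ℤ) := by
        rw [← Cardinal.mk_le_aleph0_iff]
        refine (MvPolynomial.cardinalMk_le_max (σ := Fin s) (R := ℤ)).trans ?_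
        simp
      have h2 : Function.Surjective (fun z : MvPolynomial (Fin s) ℤ ×
          nonZeroDivisors (MvPolynomial (Fin s) ℤ) =>
          IsLocalization.mk' (FractionRing (MvPolynomial (Fin s) ℤ)) z.1 z.2) := by
        intro z
        obtain ⟨x, y, h⟩ := IsLocalization.exists_mk'_eq
          (nonZeroDivisors (MvPolynomial (Fin s) ℤ)) z
        exact ⟨(x, y), h⟩
      exact h2.countable
    choose g τ hτ using fun j : Fin f => exists_embedding_family hLc hK E hE
      (IsFractionRing.lift (K := FractionRing (MvPolynomial (Fin s) ℤ)) (hθ j))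
    let e := Fintype.equivFin (Σ j : Fin f, Fin (g j))
    refine ⟨Fintype.card (Σ j : Fin f, Fin (g j)), fun i => τ (e.symm i).1 (e.symm i).2, ?_⟩
    intro B
    choose C hC using fun j : Fin f => hτ j B
    have hS := hfin (∑ j, |C j| * ‖θ j N‖ ^ b)
    have hU := hS.image (fun a => algebraMap (MvPolynomial (Fin s) ℤ)
      (FractionRing (MvPolynomial (Fin s) ℤ)) a /
        algebraMap (MvPolynomial (Fin s) ℤ) (FractionRing (MvPolynomial (Fin s) ℤ)) N ^ b)
    refine (Polynomial.bUnion_roots_finite
      (algebraMap (FractionRing (MvPolynomial (Fin s) ℤ)) K) d hU).subset ?_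
    rintro x ⟨hx, hxk, hxB⟩
    have hne : minpoly (FractionRing (MvPolynomial (Fin s) ℤ)) x ≠ 0 :=
      minpoly.ne_zero (hintL x hx)
    simp only [Set.mem_iUnion]
    refine ⟨minpoly (FractionRing (MvPolynomial (Fin s) ℤ)) x, ⟨(hwd x hx).1, fun i => ?_⟩, ?_⟩
    · obtain ⟨a, ha, hae⟩ := hcoef x hx hxk i
      refine ⟨a, ⟨ha, ?_⟩, ?_⟩
      · intro j
        have h1 : ‖IsFractionRing.lift (K := FractionRing (MvPolynomial (Fin s) ℤ)) (hθ j)
            ((minpoly (FractionRing (MvPolynomial (Fin s) ℤ)) x).coeff i)‖ ≤ C j := by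
          refine hC j x hx ?_ i
          intro l
          have h2 : ‖τ (e.symm (e ⟨j, l⟩)).1 (e.symm (e ⟨j, l⟩)).2 x‖ ≤ B := hxB (e ⟨j, l⟩)
          rw [Equiv.symm_apply_apply] at h2
          exact h2
        have h3 := congrArg (IsFractionRing.lift
          (K := FractionRing (MvPolynomial (Fin s) ℤ)) (hθ j)) hae
        rw [map_mul, map_pow, IsFractionRing.lift_algebraMap, IsFractionRing.lift_algebraMap] at h3
        rw [← h3, norm_mul, norm_pow]
        refine le_trans (mul_le_mul_of_nonneg_right (h1.trans (le_abs_self _))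
          (pow_nonneg (norm_nonneg _) _)) ?_
        exact Finset.single_le_sum (s := Finset.univ) (f := fun j => |C j| * ‖θ j N‖ ^ b)
          (fun j _ => mul_nonneg (abs_nonneg _) (pow_nonneg (norm_nonneg _) _))
          (Finset.mem_univ j)
      · simp only
        rw [← hae, mul_div_assoc, div_self (pow_ne_zero _ hmapNL), mul_one]
    · rw [Finset.mem_coe, Multiset.mem_toFinset, Polynomial.mem_roots', Polynomial.IsRoot.def,
        Polynomial.eval_map_algebraMap]
      exact ⟨Polynomial.map_ne_zero hne, minpoly.aeval _ x⟩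

end Pool.Agent.Helper64.TS
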