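import Pool.Agent.Helper64.TS.StageA
import Pool.Agent.Helper64.TS.StageB
import Pool.Agent.Helper64.TS.StageC
import Pool.Agent.Helper64.TS.WideZero
import Pool.Agent.Helper64.TS.WideP
import Pool.Agent.Helper64.TS.Countable
import Pool.Agent.Helper64.TS.Homs
import Pool.Agent.Helper64.TS.ThinTwo
import Pool.Agent.Helper64.TS.Fam

/-!
TS-22. Assembly: groups of units of locally finite-dimensional algebras over arbitrary fields, directed unions of
linear groups over fields of characteristic `p` or of cardinality at most the continuum.
-/

set_option autoImplicit false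

namespace Pool.Agent.Helper64.TS

open Pool.Agent.Helper65.TH Pool.Agent.Helper58.GI Pool.Agent.Helper58.AR

universe u v w

theorem LinData.twoStage {K : Type u} [Field K] (hK : WideField K) {G : Type w} [Group G]
    (D : LinData K G) : TwoStage G :=
  ⟨D.Bd, D.born_bd, D.stageA hK, D.stageB hK, D.stageC hK⟩

/-- fields of positive characteristic and fields of cardinality at most the continuum -/
theorem wideField_of {K : Type u} [Field K]
    (hK : (∃ p : ℕ, p.Prime ∧ CharP K p) ∨ Cardinal.mk K ≤ Cardinal.continuum) : WideField K := by
  obtain ⟨q, hq⟩ := CharP.exists K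
  rcases CharP.char_is_prime_or_zero K q with h | h
  · have : Fact q.Prime := ⟨h⟩
    exact wideField_charP q
  · subst h
    have h0 : CharZero K := CharP.charP_to_charZero K
    rcases hK with ⟨p, hp, hpK⟩ | hK
    · exact absurd (CharP.eq K hq hpK) hp.ne_zero.symm
    · exact wideField_charZero hK

/-- a countable subgroup of the group of units of a locally finite-dimensional algebra -/
theorem twoStage_units {K : Type u} [Field K] {A : Type w} [Ring A] [Algebra K A]
    (hA : LocFinDim K A) {G : Type w} [Group G] [Countable G] (f : G →* Aˣ)
    (hf : Function.Injective f) : TwoStage G := by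
  obtain ⟨K₀, hK₀, h⟩ := ((polyUnion_units hA).of_injective f hf).countable
  obtain ⟨D⟩ := h.linData
  refine D.twoStage (wideField_of (Or.inr ?_))
  exact (Cardinal.mk_le_aleph0_iff.2 hK₀).trans Cardinal.aleph0_le_continuum

/-- a group with a proper metric is countable -/
theorem countable_of_proper {G : Type v} [Group G] [MetricSpace G]
    (hprop : ∀ r : ℝ, (Metric.closedBall (1 : G) r).Finite) : Countable G := by
  rw [← Set.countable_univ_iff]
  refine (Set.countable_iUnion fun n : ℕ => (hprop n).countable).mono ?_
  intro x _
  rw [Set.mem_iUnion]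
  obtain ⟨n, hn⟩ := exists_nat_ge (dist x 1)
  exact ⟨n, hn⟩

/-- the groups of the theorem: groups of units of locally finite-dimensional algebras over arbitrary fields, directed
unions of linear groups over `K`, and groups with thin finitely generated subgroups -/
def Good (H : Type w) [Group H] : Prop :=
  (∃ (K : Type u) (_ : Field K) (A : Type w) (_ : Ring A) (_ : Algebra K A), LocFinDim K A ∧
    ∃ f : H →* Aˣ, Function.Injective f) ∨
  (∃ (K : Type u) (_ : Field K), ((∃ p : ℕ, p.Prime ∧ CharP K p) ∨
    Cardinal.mk K ≤ Cardinal.continuum) ∧ Nonempty (LinData K H)) ∨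
  ∀ T : Finset H, ∃ N, Thin (Subgroup.closure (T : Set H)) N

theorem TwoStage.of_injective {G : Type v} [Group G] {H : Type w} [Group H] (h : TwoStage H)
    (f : G →* H) (hf : Function.Injective f) : TwoStage G := by
  refine TwoStage.of_homs (n := 1) (H := fun _ => H) (fun _ => f) (fun _ => h) fun T => ?_
  refine (Set.finite_singleton 1).subset ?_
  rintro g ⟨_, hg⟩
  exact hf ((hg 0).trans (map_one f).symm)

theorem twoStage_of_good {G : Type v} [Group G] [Countable G] {n : ℕ} {H : Fin n → Type w}
    [∀ i, Group (H i)] (φ : ∀ i, G →* H i) (h : ∀ i, Good.{u, w} (H i))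
    (hker : ∀ T : Finset G,
      {g : G | g ∈ Subgroup.closure (T : Set G) ∧ ∀ i, φ i g = 1}.Finite) : TwoStage G := by
  have key : ∀ i, TwoStage (φ i).range := by
    intro i
    have hc : Countable (φ i).range :=
      Function.Surjective.countable (MonoidHom.rangeRestrict_surjective (φ i))
    rcases h i with ⟨K, _, A, _, _, hA, f, hf⟩ | ⟨K, _, hK, ⟨D⟩⟩ | h3
    · exact twoStage_units hA (f.comp (φ i).range.subtype)
        (hf.comp (φ i).range.subtype_injective)
    · exact (D.twoStage (wideField_of hK)).of_injective (φ i).range.subtype
        (φ i).range.subtype_injective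
    · exact (twoStage_of_thin h3).of_injective (φ i).range.subtype
        (φ i).range.subtype_injective
  refine TwoStage.of_homs (fun i => (φ i).rangeRestrict) key fun T => ?_
  refine (hker T).subset ?_
  rintro g ⟨hg, hg1⟩
  refine ⟨hg, fun i => ?_⟩
  have := congrArg Subtype.val (hg1 i)
  exact this

end Pool.Agent.Helper64.TS
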