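import Pool.Agent.Helper64.TS.TwoStage
import Pool.Agent.Helper65.GN.GoodExt

/-!
TR-10. Two stages imply asymptotic property C in the language of finite sets and chains; finitely many
homomorphisms.

Proof of `TwoStage.apcC`. Given `T` and `S 1, S 2, ...`: `exists_sets h T` gives `N₁`; `P = T ∪ ⋃ i ≤ N₁, S i`; it
gives `N₂`; the last finite set is `P ∪ ⋃ i ≤ N₁ + N₂, S i`. `n = N₁ + N₂`. `Bdd` (file `Helper65/GN/Defs.lean`) is
the statement on chains, monotone in the set of steps (`Chain.mono`).
Proof of `apcC_of_homs`. Induction over `Fin n` (or a finite set of indices): for a finite `T'` with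
`φ i s = 1` for `s ∈ T'`, `i < k`, and `k` decreasing: `good_ext (φ k) T' (h k _) (...)` (file
`Helper65/GN/GoodExt.lean`); for `k = n` the finite set `T'` lies in the finite group of the elements of `closure T'`
with `φ i g = 1` for all `i`, so all its chains with steps in `T'` are bounded: `Good T'` with `n = 0`,
`A 0 = univ`.
-/

set_option autoImplicit false

namespace Pool.Agent.Helper64.TS

open Pool.Agent.Helper65.TH Pool.Agent.Helper65.GN

universe v w

theorem TwoStage.apcC {G : Type v} [Group G] (h : TwoStage G) : ApcC G := by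
  classical
  intro T S
  obtain ⟨N₁, h1⟩ := exists_sets h T
  obtain ⟨N₂, h2⟩ := h1 (T ∪ (Finset.range (1 + N₁)).biUnion S) Finset.subset_union_left
  obtain ⟨A, E, hc, hb0, hb1, hb2⟩ := h2
    ((T ∪ (Finset.range (1 + N₁)).biUnion S) ∪ (Finset.range (1 + N₁ + N₂)).biUnion S)
    Finset.subset_union_left
  refine ⟨N₁ + N₂, A, E, fun x => ?_, hb0, fun i hi hi' x hx y hxy => ?_⟩
  · obtain ⟨j, hj, hx⟩ := hc x
    exact ⟨j, by omega, hx⟩
  · by_cases hlt : i < 1 + N₁
    · refine hb1 i hi hlt x hx y (hxy.mono ?_ fun b hb => hb)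
      intro s hs
      refine Finset.mem_coe.2 (Finset.mem_union_right _ (Finset.mem_biUnion.2 ⟨i, ?_, hs⟩))
      exact Finset.mem_range.2 hlt
    · refine hb2 i (by omega) (by omega) x hx y (hxy.mono ?_ fun b hb => hb)
      intro s hs
      refine Finset.mem_coe.2 (Finset.mem_union_right _ (Finset.mem_biUnion.2 ⟨i, ?_, hs⟩))
      exact Finset.mem_range.2 (by omega)

/-- asymptotic property C relative to finitely many homomorphisms -/
private theorem rel_homs {G : Type v} [Group G] {ι : Type*} {H : ι → Type w} [∀ i, Group (H i)]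
    (φ : ∀ i, G →* H i) (h : ∀ i, ApcC (H i)) (s : Finset ι) :
    ∀ S : ℕ → Finset G, ∃ (N : ℕ) (A : ℕ → Set G) (E : ∀ i, Finset (H i)),
      (∀ x, ∃ k ≤ N, x ∈ A k) ∧ ∀ k ≤ N, ∀ x ∈ A k, ∀ y,
        Chain (S k : Set G) (fun b => b ∈ A k) x y → ∀ i ∈ s, φ i (x⁻¹ * y) ∈ E i := by
  classical
  induction s using Finset.induction_on with
  | empty =>
    intro S
    exact ⟨0, fun _ => Set.univ, fun _ => ∅, fun x => ⟨0, le_refl _, Set.mem_univ _⟩,
      fun k _ x _ y _ i hi => absurd hi (by simp)⟩
  | insert a s ha ih =>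
    intro S
    have ih' := fun j => ih (fun i => S (Nat.pair j i))
    choose N A E hc hb using ih'
    obtain ⟨n', B, E', hBc, hB0, hB1⟩ := h a
      (((Finset.range (N 0 + 1)).biUnion fun i => S (Nat.pair 0 i)).image (φ a))
      (fun j => ((Finset.range (N j + 1)).biUnion fun i => S (Nat.pair j i)).image (φ a))
    have hB : ∀ j ≤ n', Bdd ((((Finset.range (N j + 1)).biUnion fun i =>
        S (Nat.pair j i)).image (φ a) : Finset (H a)) : Set (H a)) (B j) E' := by
      intro j hj
      rcases Nat.eq_zero_or_pos j with h0 | h0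
      · subst h0
        exact hB0
      · exact hB1 j h0 hj
    refine ⟨(Finset.range (n' + 1)).sup fun j => (Finset.range (N j + 1)).sup fun i => Nat.pair j i,
      fun k => {x | x ∈ A (Nat.unpair k).1 (Nat.unpair k).2 ∧ φ a x ∈ B (Nat.unpair k).1 ∧
        (Nat.unpair k).2 ≤ N (Nat.unpair k).1 ∧ (Nat.unpair k).1 ≤ n'},
      Function.update (fun i => (Finset.range (n' + 1)).biUnion fun j => E j i) a E', ?_, ?_⟩
    · intro x
      obtain ⟨j, hj, hxB⟩ := hBc (φ a x)
      obtain ⟨i, hi, hxA⟩ := hc j x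
      refine ⟨Nat.pair j i, ?_, ?_⟩
      · have h1 : Nat.pair j i ≤ (Finset.range (N j + 1)).sup fun i => Nat.pair j i :=
          Finset.le_sup (f := fun i => Nat.pair j i) (Finset.mem_range.2 (by omega))
        have h2 : ((Finset.range (N j + 1)).sup fun i => Nat.pair j i) ≤
            (Finset.range (n' + 1)).sup fun j => (Finset.range (N j + 1)).sup fun i =>
              Nat.pair j i :=
          Finset.le_sup (f := fun j => (Finset.range (N j + 1)).sup fun i => Nat.pair j i)
            (Finset.mem_range.2 (by omega))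
        exact h1.trans h2
      · show x ∈ A (Nat.unpair (Nat.pair j i)).1 (Nat.unpair (Nat.pair j i)).2 ∧ _
        rw [Nat.unpair_pair]
        exact ⟨hxA, hxB, hi, hj⟩
    · intro k _ x hx y hxy i hi
      obtain ⟨j, l, rfl⟩ : ∃ j l, k = Nat.pair j l := ⟨_, _, (Nat.pair_unpair k).symm⟩
      have hmem : ∀ b : G, b ∈ {x | x ∈ A (Nat.unpair (Nat.pair j l)).1
          (Nat.unpair (Nat.pair j l)).2 ∧ φ a x ∈ B (Nat.unpair (Nat.pair j l)).1 ∧
          (Nat.unpair (Nat.pair j l)).2 ≤ N (Nat.unpair (Nat.pair j l)).1 ∧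
          (Nat.unpair (Nat.pair j l)).1 ≤ n'} →
          b ∈ A j l ∧ φ a b ∈ B j ∧ l ≤ N j ∧ j ≤ n' := by
        intro b hb
        rwa [Nat.unpair_pair] at hb
      obtain ⟨hxA, hxB, hle, hle'⟩ := hmem x hx
      by_cases hia : i = a
      · subst hia
        rw [Function.update_self]
        have h1 : Chain ((((Finset.range (N j + 1)).biUnion fun i =>
            S (Nat.pair j i)).image (φ i) : Finset (H i)) : Set (H i)) (fun b => b ∈ B j)
            (φ i x) (φ i y) := by
          refine hxy.map (fun z => φ i z) ?_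
          intro p q hs hq
          refine ⟨?_, (hmem q hq).2.1⟩
          rw [← map_inv, ← map_mul]
          exact Finset.mem_coe.2 (Finset.mem_image_of_mem _ (Finset.mem_biUnion.2
            ⟨l, Finset.mem_range.2 (by omega), Finset.mem_coe.1 hs⟩))
        have h2 := hB j hle' _ hxB _ h1
        rwa [map_mul, map_inv]
      · have his : i ∈ s := by
          rcases Finset.mem_insert.1 hi with h1 | h1
          · exact absurd h1 hia
          · exact h1
        rw [Function.update_of_ne hia]
        refine Finset.mem_biUnion.2 ⟨j, Finset.mem_range.2 (by omega), ?_⟩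
        exact hb j l hle x hxA y (hxy.mono (fun _ h => h) fun b hq => (hmem b hq).1) i his

theorem apcC_of_homs {G : Type v} [Group G] {n : ℕ} {H : Fin n → Type w} [∀ i, Group (H i)]
    (φ : ∀ i, G →* H i) (h : ∀ i, ApcC (H i))
    (hker : ∀ T : Finset G,
      {g : G | g ∈ Subgroup.closure (T : Set G) ∧ ∀ i, φ i g = 1}.Finite) : ApcC G := by
  classical
  intro T S
  obtain ⟨N, A, E, hc, hb⟩ := rel_homs φ h Finset.univ (fun k => if k = 0 then T else S k)
  let U : Finset G := (Finset.range (N + 1)).biUnion fun k => if k = 0 then T else S k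
  have hfib : ∀ e : ∀ i, H i,
      {g : G | g ∈ Subgroup.closure (U : Set G) ∧ ∀ i, φ i g = e i}.Finite := by
    intro e
    by_cases hne : ∃ g₀, g₀ ∈ Subgroup.closure (U : Set G) ∧ ∀ i, φ i g₀ = e i
    · obtain ⟨g₀, hg₀, he⟩ := hne
      refine ((hker U).image (fun g => g * g₀)).subset ?_
      rintro g ⟨hg, hge⟩
      refine ⟨g * g₀⁻¹, ⟨Subgroup.mul_mem _ hg (Subgroup.inv_mem _ hg₀), fun i => ?_⟩, ?_⟩
      · rw [map_mul, map_inv, hge i, he i, mul_inv_cancel]
      · show g * g₀⁻¹ * g₀ = g
        rw [inv_mul_cancel_right]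
    · refine Set.finite_empty.subset ?_
      rintro g hg
      exact hne ⟨g, hg⟩
  have hfin : {g : G | g ∈ Subgroup.closure (U : Set G) ∧ ∀ i, φ i g ∈ E i}.Finite := by
    refine ((Set.finite_mem_finset (Fintype.piFinset E)).biUnion fun e _ => hfib e).subset ?_
    rintro g ⟨hg, hgE⟩
    refine Set.mem_biUnion (x := fun i => φ i g) ?_ ⟨hg, fun i => rfl⟩
    exact Fintype.mem_piFinset.2 hgE
  have key : ∀ k ≤ N, Bdd ((if k = 0 then T else S k : Finset G) : Set G) (A k)
      hfin.toFinset := by
    intro k hk x hx y hxy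
    refine hfin.mem_toFinset.2 ⟨?_, fun i => hb k hk x hx y hxy i (Finset.mem_univ i)⟩
    refine hxy.mem_subgroup _ fun s hs => Subgroup.subset_closure ?_
    exact Finset.mem_coe.2 (Finset.mem_biUnion.2 ⟨k, Finset.mem_range.2 (by omega), hs⟩)
  refine ⟨N, A, hfin.toFinset, hc, ?_, fun i hi hi' => ?_⟩
  · have := key 0 (Nat.zero_le _)
    rwa [if_pos rfl] at this
  · have := key i hi'
    rwa [if_neg (by omega)] at this

end Pool.Agent.Helper64.TS
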