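import Pool.Agent.Helper64.TS.RDefs

/-!
TR-12. Groups which act faithfully on a free module such that every element fixes all but finitely many
elements of a basis, for example the subgroups of `GL_n(R)` and of `GL_∞(R)`.
-/

set_option autoImplicit false

namespace Pool.Agent.Helper64.TS

universe u v w x

section

variable {R : Type u} [CommRing R] {M : Type v} [AddCommGroup M] [Module R M] {X : Type x}
  (b : Module.Basis X R M) {G : Type w} [Group G] (f : G →* (M ≃ₗ[R] M))

/-- the matrix coefficients -/
private noncomputable def mc (g : G) (s t : X) : R := b.repr (f g (b t)) s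

/-- `f g` fixes the basis elements outside `S` and preserves the span of the other ones -/
private def PS (S : Finset X) (g : G) : Prop :=
  (∀ t, t ∉ S → f g (b t) = b t) ∧ ∀ t ∈ S, ∀ s, s ∉ S → mc b f g s t = 0

private theorem mc_fixed {g : G} {t : X} (h : f g (b t) = b t) {s : X} (hs : s ≠ t) :
    mc b f g s t = 0 := by
  classical
  rw [mc, h, Module.Basis.repr_self, Finsupp.single_apply, if_neg (Ne.symm hs)]

private theorem mc_fixed_self {g : G} {t : X} (h : f g (b t) = b t) : mc b f g t t = 1 := by
  classical
  rw [mc, h, Module.Basis.repr_self, Finsupp.single_apply, if_pos rfl]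

private theorem apply_eq {S : Finset X} {g : G} (h : PS b f S g) {t : X} (ht : t ∈ S) :
    f g (b t) = ∑ s ∈ S, mc b f g s t • b s := by
  classical
  have h1 := b.linearCombination_repr (f g (b t))
  rw [Finsupp.linearCombination_apply, Finsupp.sum_of_support_subset _ (s := S)] at h1
  · exact h1.symm
  · intro s hs
    by_contra hs'
    exact (Finsupp.mem_support_iff.1 hs) (h.2 t ht s hs')
  · intro i _
    rw [zero_smul]

private theorem mc_mul {S : Finset X} {g h : G} (hh : PS b f S h) {s t : X}
    (ht : t ∈ S) : mc b f (g * h) s t = ∑ r ∈ S, mc b f g s r * mc b f h r t := by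
  classical
  have h1 : f (g * h) (b t) = f g (f h (b t)) := by
    rw [map_mul]
    rfl
  rw [mc, h1, apply_eq b f hh ht, map_sum, map_sum, Finsupp.finsetSum_apply]
  refine Finset.sum_congr rfl fun r _ => ?_
  rw [map_smul, map_smul, Finsupp.smul_apply, smul_eq_mul, mul_comm]
  rfl

private theorem ps_mul {S : Finset X} {g h : G} (hg : PS b f S g) (hh : PS b f S h) :
    PS b f S (g * h) := by
  constructor
  · intro t ht
    rw [map_mul]
    show f g (f h (b t)) = b t
    rw [hh.1 t ht, hg.1 t ht]
  · intro t ht s hs
    rw [mc_mul b f hh ht]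
    refine Finset.sum_eq_zero fun r hr => ?_
    rw [hg.2 r hr s hs, zero_mul]

private theorem ps_one (S : Finset X) : PS b f S 1 := by
  have h : ∀ t, f 1 (b t) = b t := by
    intro t
    rw [map_one]
    rfl
  refine ⟨fun t _ => h t, fun t ht s hs => mc_fixed b f (h t) ?_⟩
  rintro rfl
  exact hs ht

private theorem ps_mono {S S' : Finset X} (hS : S ⊆ S') {g : G} (h : PS b f S g) :
    PS b f S' g := by
  refine ⟨fun t ht => h.1 t fun ht' => ht (hS ht'), fun t ht s hs => ?_⟩
  by_cases htS : t ∈ S
  · exact h.2 t htS s fun hs' => hs (hS hs')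
  · refine mc_fixed b f (h.1 t htS) ?_
    rintro rfl
    exact hs ht

/-- the subgroup of the elements `g` such that `g` and `g⁻¹` satisfy `PS` -/
private def HS (S : Finset X) : Subgroup G where
  carrier := {g | PS b f S g ∧ PS b f S g⁻¹}
  one_mem' := by
    refine ⟨ps_one b f S, ?_⟩
    rw [inv_one]
    exact ps_one b f S
  mul_mem' := by
    rintro g h ⟨h1, h2⟩ ⟨h3, h4⟩
    refine ⟨ps_mul b f h1 h3, ?_⟩
    rw [mul_inv_rev]
    exact ps_mul b f h4 h2
  inv_mem' := by
    rintro g ⟨h1, h2⟩
    refine ⟨h2, ?_⟩
    rw [inv_inv]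
    exact h1

/-- the matrices -/
private noncomputable def MS (S : Finset X) :
    HS b f S →* Matrix (Fin S.card) (Fin S.card) R where
  toFun g := Matrix.of fun i j => mc b f g (S.equivFin.symm i) (S.equivFin.symm j)
  map_one' := by
    classical
    ext i j
    have h : ∀ t, f 1 (b t) = b t := by
      intro t
      rw [map_one]
      rfl
    rw [Matrix.of_apply, Matrix.one_apply]
    split_ifs with hij
    · subst hij
      exact mc_fixed_self b f (h _)
    · refine mc_fixed b f (h _) ?_
      intro h'
      exact hij (S.equivFin.symm.injective (Subtype.ext h'))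
  map_mul' := by
    classical
    intro g h
    ext i j
    rw [Matrix.of_apply, Matrix.mul_apply]
    have h1 := mc_mul b f (g := (g : G)) (h := (h : G)) (s := (S.equivFin.symm i : X)) h.2.1
      (S.equivFin.symm j).2
    rw [Subgroup.coe_mul, h1, ← Finset.sum_coe_sort S
      (fun r => mc b f g (S.equivFin.symm i) r * mc b f h r (S.equivFin.symm j))]
    refine Fintype.sum_equiv S.equivFin _ _ fun r => ?_
    simp

/-- the representation -/
private noncomputable def RS (S : Finset X) : HS b f S →* GL (Fin S.card) R :=
  (MS b f S).toHomUnits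

private theorem rs_apply (S : Finset X) (g : HS b f S) (i j : Fin S.card) :
    (RS b f S g : Matrix (Fin S.card) (Fin S.card) R) i j =
      mc b f g (S.equivFin.symm i) (S.equivFin.symm j) := rfl

private theorem hs_mono {S S' : Finset X} (hS : S ⊆ S') : HS b f S ≤ (HS b f S' : Subgroup G) :=
  fun _ hg => ⟨ps_mono b f hS hg.1, ps_mono b f hS hg.2⟩

private theorem rpolyLe {S S' : Finset X} (hS : S ⊆ S') : RPolyLe (RS b f S) (RS b f S') := by
  classical
  refine ⟨hs_mono b f hS, ⟨fun i j =>
    if h : ((S'.equivFin.symm i : X) ∈ S ∧ (S'.equivFin.symm j : X) ∈ S) then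
      MvPolynomial.X (Sum.inl (S.equivFin ⟨_, h.1⟩, S.equivFin ⟨_, h.2⟩))
    else MvPolynomial.C (if i = j then 1 else 0), ?_⟩, ⟨fun i j =>
    MvPolynomial.X (Sum.inl (S'.equivFin ⟨(S.equivFin.symm i : X), hS (S.equivFin.symm i).2⟩,
      S'.equivFin ⟨(S.equivFin.symm j : X), hS (S.equivFin.symm j).2⟩)), ?_⟩⟩
  · intro g i j
    have h0 : (((RS b f S').comp (Subgroup.inclusion (hs_mono b f hS))) g :
        Matrix (Fin S'.card) (Fin S'.card) R) i j =
        mc b f g (S'.equivFin.symm i) (S'.equivFin.symm j) := rfl
    rw [h0]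
    beta_reduce
    split_ifs with h h2 h2
    · rw [MvPolynomial.eval_X]
      simp [rent, rs_apply]
    · subst h2
      rw [MvPolynomial.eval_C]
      by_cases hi : (S'.equivFin.symm i : X) ∈ S
      · exact absurd ⟨hi, hi⟩ h
      · exact mc_fixed_self b f (g.2.1.1 _ hi)
    · rw [MvPolynomial.eval_C]
      have hij : (S'.equivFin.symm i : X) ≠ S'.equivFin.symm j := fun h' =>
        h2 (S'.equivFin.symm.injective (Subtype.ext h'))
      by_cases hj : (S'.equivFin.symm j : X) ∈ S
      · exact g.2.1.2 _ hj _ fun hi => h ⟨hi, hj⟩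
      · exact mc_fixed b f (g.2.1.1 _ hj) hij
  · intro g i j
    rw [MvPolynomial.eval_X]
    have h0 : rent (((RS b f S').comp (Subgroup.inclusion (hs_mono b f hS))) g)
        (Sum.inl (S'.equivFin ⟨(S.equivFin.symm i : X), hS (S.equivFin.symm i).2⟩,
          S'.equivFin ⟨(S.equivFin.symm j : X), hS (S.equivFin.symm j).2⟩)) =
        mc b f g (S'.equivFin.symm (S'.equivFin ⟨(S.equivFin.symm i : X), hS (S.equivFin.symm i).2⟩))
          (S'.equivFin.symm (S'.equivFin ⟨(S.equivFin.symm j : X), hS (S.equivFin.symm j).2⟩)) := rfl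
    rw [h0, rs_apply]
    simp

/-- Groups acting faithfully on a free module such that every element fixes all but finitely many basis
elements -/
theorem ringData_of_free (hf : Function.Injective f)
    (hfin : ∀ g, {t | f g (b t) ≠ b t}.Finite) : Nonempty (RingData R G) := by
  classical
  let sg : G → Finset X := fun g => (hfin g).toFinset ∪
    (hfin g).toFinset.biUnion fun t => (b.repr (f g (b t))).support
  have hsg : ∀ g, PS b f (sg g) g := by
    intro g
    have hmem : ∀ t, f g (b t) ≠ b t → t ∈ (hfin g).toFinset := fun t ht =>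
      (Set.Finite.mem_toFinset _).2 ht
    refine ⟨fun t ht => ?_, fun t ht s hs => ?_⟩
    · by_contra h
      exact ht (Finset.mem_union_left _ (hmem t h))
    · by_cases h : f g (b t) = b t
      · refine mc_fixed b f h ?_
        rintro rfl
        exact hs ht
      · by_contra h'
        exact hs (Finset.mem_union_right _ (Finset.mem_biUnion.2
          ⟨t, hmem t h, Finsupp.mem_support_iff.2 h'⟩))
  let S : Finset G → Finset X := fun T => T.biUnion fun g => sg g ∪ sg g⁻¹
  have hSm : ∀ T T' : Finset G, T ⊆ T' → S T ⊆ S T' := fun T T' h =>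
    Finset.biUnion_subset_biUnion_of_subset_left _ h
  refine ⟨{
    ι := Finset G
    H := fun T => HS b f (S T)
    n := fun T => (S T).card
    ρ := fun T => RS b f (S T)
    inj := ?_
    cov := ?_
    dir := ?_ }⟩
  · intro T
    rw [injective_iff_map_eq_one]
    intro g hg
    apply Subtype.ext
    apply hf
    rw [Subgroup.coe_one, map_one]
    have key : ∀ t, f g (b t) = b t := by
      intro t
      by_cases ht : t ∈ S T
      · rw [apply_eq b f g.2.1 ht, Finset.sum_eq_single t]
        · have h1 : (RS b f (S T) g : Matrix (Fin (S T).card) (Fin (S T).card) R)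
              ((S T).equivFin ⟨t, ht⟩) ((S T).equivFin ⟨t, ht⟩) = 1 := by
            rw [hg]
            simp
          rw [rs_apply] at h1
          simp only [Equiv.symm_apply_apply] at h1
          rw [h1, one_smul]
        · intro s hs hst
          have h1 : (RS b f (S T) g : Matrix (Fin (S T).card) (Fin (S T).card) R)
              ((S T).equivFin ⟨s, hs⟩) ((S T).equivFin ⟨t, ht⟩) = 0 := by
            rw [hg]
            have hne : (S T).equivFin ⟨s, hs⟩ ≠ (S T).equivFin ⟨t, ht⟩ := fun h' =>
              hst (congrArg Subtype.val ((S T).equivFin.injective h'))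
            rw [Units.val_one, Matrix.one_apply_ne hne]
          rw [rs_apply] at h1
          simp only [Equiv.symm_apply_apply] at h1
          rw [h1, zero_smul]
        · intro h
          exact absurd ht h
      · exact g.2.1.1 t ht
    have : (f g : M ≃ₗ[R] M).toLinearMap = (1 : M ≃ₗ[R] M).toLinearMap := b.ext key
    exact LinearEquiv.toLinearMap_injective this
  · intro g
    refine ⟨{g}, ps_mono b f ?_ (hsg g), ps_mono b f ?_ (hsg g⁻¹)⟩
    · intro s hs
      exact Finset.mem_biUnion.2 ⟨g, Finset.mem_singleton_self g, Finset.mem_union_left _ hs⟩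
    · intro s hs
      exact Finset.mem_biUnion.2 ⟨g, Finset.mem_singleton_self g, Finset.mem_union_right _ hs⟩
  · intro T T'
    exact ⟨T ∪ T', rpolyLe b f (hSm _ _ Finset.subset_union_left),
      rpolyLe b f (hSm _ _ Finset.subset_union_right)⟩

end

end Pool.Agent.Helper64.TS
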