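import Pool.Agent.Helper64.TS.RDefs
import Pool.Agent.Helper65.GN.Solv

/-!
TR-8. The elements which are trivial modulo the nilradical form a subgroup which is reached by an
ascending series with abelian factors.

Proof. For an ideal `I` of `R` let `K I = D.ker (Ideal.Quotient.mk I)` (a normal subgroup). For `g ∈ H i`:
`g ∈ K I` iff all entries of `ρ i g - 1` lie in `I` (`D.mem_ker`). `K ⊥ = ⊥` (`D.inj`). Commutators:
`⁅K I, K J⁆ ≤ K (I * J)` (in `H k` containing both elements: for matrices `1 + X`, `1 + Y` invertible with `X` over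
`I`, `Y` over `J` the commutator is `1 + (X Y - Y X) (1 + X)⁻¹ (1 + Y)⁻¹`). For a finitely generated ideal
`I ≤ nilradical R` there is `m` with `I ^ m = ⊥` (`Ideal.exists_pow_le_of_le_radical_of_fg`,
`nilradical = radical ⊥`), so `derivedSeries (K I) j ≤ K (I ^ (j + 1))` by induction
(`I ^ (2 (j + 1)) ≤ I ^ (j + 2)`), and `K I` is solvable. `reach_of_solvable` (file `Helper65/GN/Solv.lean`) gives
`Reach (K I)`. `D.ker (Ideal.Quotient.mk (nilradical R))` is the union (`sSup` of a directed set) of the `K I` for `I`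
finitely generated (the span of a finite subset of the nilradical): an element has finitely many
entries. `Reach.union` (file `Helper65/GN/Defs.lean`).
-/

set_option autoImplicit false

namespace Pool.Agent.Helper64.TS

open Pool.Agent.Helper65.GN

universe u w

section

variable {R : Type u} [CommRing R] {G : Type w} [Group G] (D : RingData R G)

private theorem mem_ker_iff (I : Ideal R) (i : D.ι) (g : G) (hi : g ∈ D.H i) :
    g ∈ D.ker (Ideal.Quotient.mk I) ↔ ∀ a b, (D.ρ i ⟨g, hi⟩ : Matrix _ _ R) a b -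
      (1 : Matrix (Fin (D.n i)) (Fin (D.n i)) R) a b ∈ I := by
  classical
  rw [D.mem_ker _ i g hi]
  constructor
  · intro h a b
    have h1 := congrArg (fun u : GL (Fin (D.n i)) (R ⧸ I) =>
      (u : Matrix (Fin (D.n i)) (Fin (D.n i)) (R ⧸ I)) a b) h
    have h2 : Ideal.Quotient.mk I ((D.ρ i ⟨g, hi⟩ : Matrix _ _ R) a b) =
      (1 : Matrix (Fin (D.n i)) (Fin (D.n i)) (R ⧸ I)) a b := h1
    rw [← Ideal.Quotient.eq_zero_iff_mem, map_sub, h2, sub_eq_zero, Matrix.one_apply,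
      Matrix.one_apply]
    split_ifs
    · rw [map_one]
    · rw [map_zero]
  · intro h
    apply Units.ext
    ext a b
    show Ideal.Quotient.mk I ((D.ρ i ⟨g, hi⟩ : Matrix _ _ R) a b) =
      (1 : Matrix (Fin (D.n i)) (Fin (D.n i)) (R ⧸ I)) a b
    have h1 := h a b
    rw [← Ideal.Quotient.eq_zero_iff_mem, map_sub, sub_eq_zero] at h1
    rw [h1, Matrix.one_apply, Matrix.one_apply]
    split_ifs
    · rw [map_one]
    · rw [map_zero]

private theorem ker_mono {I J : Ideal R} (h : I ≤ J) :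
    D.ker (Ideal.Quotient.mk I) ≤ D.ker (Ideal.Quotient.mk J) := by
  intro g hg
  obtain ⟨i, hi⟩ := D.cov g
  rw [mem_ker_iff D _ i g hi] at hg ⊢
  exact fun a b => h (hg a b)

private theorem ker_bot : D.ker (Ideal.Quotient.mk (⊥ : Ideal R)) = ⊥ := by
  rw [eq_bot_iff]
  intro g hg
  obtain ⟨i, hi⟩ := D.cov g
  rw [mem_ker_iff D _ i g hi] at hg
  rw [Subgroup.mem_bot]
  have h1 : D.ρ i ⟨g, hi⟩ = 1 := by
    apply Units.ext
    ext a b
    have := hg a b
    rw [Ideal.mem_bot, sub_eq_zero] at this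
    exact this
  have h2 : (⟨g, hi⟩ : D.H i) = 1 := D.inj i (h1.trans (map_one _).symm)
  exact congrArg Subtype.val h2

private theorem mul_entries {n : ℕ} {I : Ideal R} {A C : Matrix (Fin n) (Fin n) R}
    (hA : ∀ a b, A a b ∈ I) : ∀ a b, (A * C) a b ∈ I := by
  intro a b
  rw [Matrix.mul_apply]
  exact Ideal.sum_mem _ fun c _ => Ideal.mul_mem_right _ _ (hA a c)

private theorem mul_entries2 {n : ℕ} {I J : Ideal R} {A C : Matrix (Fin n) (Fin n) R}
    (hA : ∀ a b, A a b ∈ I) (hC : ∀ a b, C a b ∈ J) : ∀ a b, (A * C) a b ∈ I * J := by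
  intro a b
  rw [Matrix.mul_apply]
  exact Ideal.sum_mem _ fun c _ => Ideal.mul_mem_mul (hA a c) (hC c b)

open scoped commutatorElement in
private theorem commutator_mem (I J : Ideal R) {g h : G}
    (hg : g ∈ D.ker (Ideal.Quotient.mk I)) (hh : h ∈ D.ker (Ideal.Quotient.mk J)) :
    ⁅g, h⁆ ∈ D.ker (Ideal.Quotient.mk (I * J)) := by
  obtain ⟨i, hgi, hhi⟩ := D.exists_above g h
  have hc : ⁅g, h⁆ ∈ D.H i := by
    rw [commutatorElement_def]
    exact mul_mem (mul_mem (mul_mem hgi hhi) (inv_mem hgi)) (inv_mem hhi)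
  rw [mem_ker_iff D _ i g hgi] at hg
  rw [mem_ker_iff D _ i h hhi] at hh
  rw [mem_ker_iff D _ i _ hc]
  obtain ⟨A, hA⟩ : ∃ A, A = D.ρ i ⟨g, hgi⟩ := ⟨_, rfl⟩
  obtain ⟨C, hC⟩ : ∃ C, C = D.ρ i ⟨h, hhi⟩ := ⟨_, rfl⟩
  have h1 : D.ρ i ⟨⁅g, h⁆, hc⟩ = A * C * A⁻¹ * C⁻¹ := by
    rw [hA, hC, ← map_inv, ← map_inv, ← map_mul, ← map_mul, ← map_mul]
    congr 1
  rw [← hA] at hg
  rw [← hC] at hh
  rw [h1]
  obtain ⟨X, hX⟩ : ∃ X : Matrix (Fin (D.n i)) (Fin (D.n i)) R, X = A := ⟨_, rfl⟩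
  obtain ⟨Y, hY⟩ : ∃ Y : Matrix (Fin (D.n i)) (Fin (D.n i)) R, Y = C := ⟨_, rfl⟩
  obtain ⟨Z, hZ⟩ : ∃ Z : Matrix (Fin (D.n i)) (Fin (D.n i)) R,
    Z = ((A⁻¹ * C⁻¹ : GL (Fin (D.n i)) R) : Matrix (Fin (D.n i)) (Fin (D.n i)) R) := ⟨_, rfl⟩
  have h2 : ((A * C * A⁻¹ * C⁻¹ : GL (Fin (D.n i)) R) : Matrix (Fin (D.n i)) (Fin (D.n i)) R) - 1 =
      ((X - 1) * (Y - 1) - (Y - 1) * (X - 1)) * Z := by
    have e1 : (X - 1) * (Y - 1) - (Y - 1) * (X - 1) = X * Y - Y * X := by noncomm_ring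
    have e2 : Y * X * Z = 1 := by
      rw [hX, hY, hZ, ← Units.val_mul, ← Units.val_mul]
      have : C * A * (A⁻¹ * C⁻¹) = 1 := by group
      rw [this, Units.val_one]
    rw [e1, sub_mul, e2, hX, hY, hZ, ← Units.val_mul, ← Units.val_mul]
    simp only [mul_assoc]
  rw [← hX] at hg
  rw [← hY] at hh
  intro a b
  have h3 := congrFun (congrFun h2 a) b
  rw [Matrix.sub_apply] at h3
  rw [h3]
  refine mul_entries (I := I * J) (fun a b => ?_) a b
  rw [Matrix.sub_apply]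
  refine sub_mem (mul_entries2 (I := I) (J := J) hg hh a b) ?_
  rw [mul_comm I J]
  exact mul_entries2 (I := J) (J := I) hh hg a b

private theorem dsub_le (I : Ideal R) (r : ℕ) :
    dsub (D.ker (Ideal.Quotient.mk I)) r ≤ D.ker (Ideal.Quotient.mk (I ^ (r + 1))) := by
  induction r with
  | zero =>
    rw [zero_add, pow_one]
    exact le_rfl
  | succ r ih =>
    show ⁅dsub _ r, dsub _ r⁆ ≤ _
    rw [Subgroup.commutator_le]
    intro g hg h hh
    have h1 := commutator_mem D _ _ (ih hg) (ih hh)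
    refine ker_mono D ?_ h1
    rw [← pow_add]
    exact Ideal.pow_le_pow_right (by omega)

end

theorem RingData.reach_nil {R : Type u} [CommRing R] {G : Type w} [Group G] (D : RingData R G) :
    Reach (D.ker (Ideal.Quotient.mk (nilradical R))) := by
  classical
  have key : ∀ I : Ideal R, I.FG → I ≤ nilradical R → Reach (D.ker (Ideal.Quotient.mk I)) := by
    intro I hI hle
    obtain ⟨m, hm⟩ := Ideal.exists_pow_le_of_le_radical_of_fg hle hI
    refine reach_of_dsub m _ inferInstance ?_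
    rw [eq_bot_iff, ← ker_bot D]
    refine (dsub_le D I m).trans (ker_mono D ?_)
    exact (Ideal.pow_le_pow_right (Nat.le_succ m)).trans hm
  have hS : D.ker (Ideal.Quotient.mk (nilradical R)) =
      sSup {K | ∃ I : Ideal R, I.FG ∧ I ≤ nilradical R ∧ K = D.ker (Ideal.Quotient.mk I)} := by
    apply le_antisymm
    · intro g hg
      obtain ⟨i, hi⟩ := D.cov g
      rw [mem_ker_iff D _ i g hi] at hg
      let E : Finset R := Finset.univ.image fun p : Fin (D.n i) × Fin (D.n i) =>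
        (D.ρ i ⟨g, hi⟩ : Matrix _ _ R) p.1 p.2 -
          (1 : Matrix (Fin (D.n i)) (Fin (D.n i)) R) p.1 p.2
      have hmem : g ∈ D.ker (Ideal.Quotient.mk (Ideal.span (E : Set R))) := by
        rw [mem_ker_iff D _ i g hi]
        intro a b
        exact Ideal.subset_span (Finset.mem_coe.2 (Finset.mem_image.2
          ⟨(a, b), Finset.mem_univ _, rfl⟩))
      refine (le_sSup (a := D.ker (Ideal.Quotient.mk (Ideal.span (E : Set R)))) ?_) hmem
      refine ⟨_, ⟨E, rfl⟩, ?_, rfl⟩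
      rw [Ideal.span_le]
      intro x hx
      obtain ⟨p, _, rfl⟩ := Finset.mem_image.1 (Finset.mem_coe.1 hx)
      exact hg p.1 p.2
    · refine sSup_le ?_
      rintro K ⟨I, _, hI, rfl⟩
      exact ker_mono D hI
  rw [hS]
  refine Reach.union _ ⟨_, ⊥, Submodule.fg_bot, bot_le, rfl⟩ ?_ ?_
  · rintro _ ⟨I, hI, hI', rfl⟩ _ ⟨J, hJ, hJ', rfl⟩
    exact ⟨_, ⟨I ⊔ J, Submodule.FG.sup hI hJ, sup_le hI' hJ', rfl⟩, ker_mono D le_sup_left,
      ker_mono D le_sup_right⟩
  · rintro _ ⟨I, hI, hI', rfl⟩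
    exact key I hI hI'

end Pool.Agent.Helper64.TS
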