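import Pool.Agent.Helper64.TS.RDefs

/-!
TR-9. Reduction of a directed union of linear groups over `R` along a homomorphism of rings.

Proof. `N = D.ker ψ`, `mk : G → G ⧸ N`; the same index set, `H' i = (D.H i).map mk`, `n' i = D.n i`,
`ρ' i` the factorisation of `(Matrix.GeneralLinearGroup.map ψ).comp (D.ρ i)` through the surjection
`mk.subgroupMap (D.H i) : D.H i →* (D.H i).map mk` (`MonoidHom.liftOfSurjective`); `ρ' i (mk h) = GL.map ψ (ρ i h)`.
`inj`: if `ρ' i (mk h) = 1` then `h ∈ N` by `D.mem_ker`. `cov`: `mk` is surjective. `dir`: `D.dir` and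
`RPolyIn.map` (every element of `H' i` is `mk h`, `h ∈ H i`; the inclusion `H' i ≤ H' k` by `Subgroup.map_mono`).
-/

set_option autoImplicit false

namespace Pool.Agent.Helper64.TS

universe u v w

section

variable {R : Type v} [CommRing R] {K : Type u} [CommRing K] (ψ : R →+* K) {G : Type w} [Group G]
  (D : RingData R G)

private noncomputable def red (i : D.ι) :
    (D.H i).map (QuotientGroup.mk' (D.ker ψ)) →* GL (Fin (D.n i)) K :=
  MonoidHom.liftOfSurjective ((QuotientGroup.mk' (D.ker ψ)).subgroupMap (D.H i))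
    (MonoidHom.subgroupMap_surjective _ _)
    ⟨(Matrix.GeneralLinearGroup.map ψ).comp (D.ρ i), by
      intro h hh
      rw [MonoidHom.mem_ker] at hh ⊢
      have h1 : QuotientGroup.mk' (D.ker ψ) (h : G) = 1 := congrArg Subtype.val hh
      have h2 : (h : G) ∈ D.ker ψ := (QuotientGroup.eq_one_iff (h : G)).1 h1
      exact (D.mem_ker ψ i h h.2).1 h2⟩

private theorem red_mk (i : D.ι) (g : G) (hg : g ∈ D.H i)
    (hg' : QuotientGroup.mk' (D.ker ψ) g ∈ (D.H i).map (QuotientGroup.mk' (D.ker ψ))) :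
    red ψ D i ⟨QuotientGroup.mk' (D.ker ψ) g, hg'⟩ =
      Matrix.GeneralLinearGroup.map ψ (D.ρ i ⟨g, hg⟩) :=
  MonoidHom.liftOfRightInverse_comp_apply
    ((QuotientGroup.mk' (D.ker ψ)).subgroupMap (D.H i)) _
    (Function.rightInverse_surjInv (MonoidHom.subgroupMap_surjective _ _)) _ ⟨g, hg⟩

private theorem exists_rep (i : D.ι) (x : (D.H i).map (QuotientGroup.mk' (D.ker ψ))) :
    ∃ (g : G) (_ : g ∈ D.H i) (hg' : QuotientGroup.mk' (D.ker ψ) g ∈
      (D.H i).map (QuotientGroup.mk' (D.ker ψ))), x = ⟨QuotientGroup.mk' (D.ker ψ) g, hg'⟩ := by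
  obtain ⟨x, g, hg, rfl⟩ := x
  exact ⟨g, hg, _, rfl⟩

private theorem red_polyLe {i k : D.ι} (h : RPolyLe (D.ρ i) (D.ρ k)) :
    RPolyLe (red ψ D i) (red ψ D k) := by
  obtain ⟨hle, p1, p2⟩ := h
  refine ⟨Subgroup.map_mono hle, ?_, ?_⟩
  · obtain ⟨P, hP⟩ := p1.map ψ
    refine ⟨P, ?_⟩
    intro x a b
    obtain ⟨g, hg, hg', rfl⟩ := exists_rep ψ D i x
    have h1 : ((red ψ D k).comp (Subgroup.inclusion (Subgroup.map_mono hle)))
        ⟨QuotientGroup.mk' (D.ker ψ) g, hg'⟩ =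
        Matrix.GeneralLinearGroup.map ψ (D.ρ k ⟨g, hle hg⟩) :=
      red_mk ψ D k g (hle hg) _
    rw [h1, red_mk ψ D i g hg hg']
    exact hP ⟨g, hg⟩ a b
  · obtain ⟨P, hP⟩ := p2.map ψ
    refine ⟨P, ?_⟩
    intro x a b
    obtain ⟨g, hg, hg', rfl⟩ := exists_rep ψ D i x
    have h1 : ((red ψ D k).comp (Subgroup.inclusion (Subgroup.map_mono hle)))
        ⟨QuotientGroup.mk' (D.ker ψ) g, hg'⟩ =
        Matrix.GeneralLinearGroup.map ψ (D.ρ k ⟨g, hle hg⟩) :=
      red_mk ψ D k g (hle hg) _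
    rw [h1, red_mk ψ D i g hg hg']
    exact hP ⟨g, hg⟩ a b

end

theorem RingData.quot {R : Type v} [CommRing R] {S : Type u} [CommRing S] (ψ : R →+* S)
    {G : Type w} [Group G] (D : RingData R G) : Nonempty (RingData S (G ⧸ D.ker ψ)) := by
  refine ⟨{
    ι := D.ι
    H := fun i => (D.H i).map (QuotientGroup.mk' (D.ker ψ))
    n := D.n
    ρ := fun i => red ψ D i
    inj := ?_
    cov := ?_
    dir := ?_ }⟩
  · intro i
    rw [injective_iff_map_eq_one]
    intro x hx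
    obtain ⟨g, hg, hg', rfl⟩ := exists_rep ψ D i x
    rw [red_mk ψ D i g hg hg'] at hx
    apply Subtype.ext
    exact (QuotientGroup.eq_one_iff g).2 ((D.mem_ker ψ i g hg).2 hx)
  · intro x
    obtain ⟨g, rfl⟩ := QuotientGroup.mk'_surjective (D.ker ψ) x
    obtain ⟨i, hi⟩ := D.cov g
    exact ⟨i, Subgroup.mem_map_of_mem _ hi⟩
  · intro i j
    obtain ⟨k, h1, h2⟩ := D.dir i j
    exact ⟨k, red_polyLe ψ D h1, red_polyLe ψ D h2⟩

end Pool.Agent.Helper64.TS
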