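import Pool.Agent.Helper64.TS.Lin

/-!
TR-4. In a field with two stages of places the bounded subsets of finitely generated subrings lie in finitely
generated additive groups.

Proof. `hK E` gives `p`, `v`; by `hb` there are `C i` with `v i x ≤ C i` on `B`; let `k = max 0 (max C i)`,
`X = {x ∈ Subring.closure E | ∀ i, v i x ≤ k}`, an additive subgroup (`v i` is non-archimedean) containing `B`. The second
part of `hK E` gives `σ : Fin f → K →+* ℂ` such that `{x ∈ X | ∀ j, ‖σ j x‖ ≤ B'}` is finite for all `B'`. Consider
the additive homomorphism `s : X → (Fin f → ℂ)`, `s x j = σ j x`. Its kernel is finite, and its image is a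
discrete subgroup `Λ` of the finite-dimensional real vector space `Fin f → ℂ` (every ball contains finitely many
points), hence finitely generated (`ZLattice.module_finite`, file `Mathlib/Algebra/Module/ZLattice/Basic.lean`,
and its version for discrete subgroups which do not span; the image spans a subspace). An extension of a
finitely generated group by a finite group is finitely generated: choose finitely many `x_1, ..., x_r ∈ X` whose images
generate `Λ` and add the kernel. (If `f > 0` the kernel is trivial, if `f = 0` then `X` is finite.)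
-/

set_option autoImplicit false

namespace Pool.Agent.Helper64.TS

universe u

private theorem fg_of_finite_set {M : Type*} [AddCommGroup M] (N : Submodule ℤ M)
    (h : (N : Set M).Finite) : N.FG :=
  Submodule.fg_def.2 ⟨N, h, Submodule.span_eq N⟩

private theorem discrete_of_finite {V : Type*} [NormedAddCommGroup V] (L : Submodule ℤ V)
    (h : {x : V | x ∈ L ∧ ‖x‖ ≤ 1}.Finite) : DiscreteTopology L := by
  apply discreteTopology_of_isOpen_singleton_zero
  have h1 : IsOpen ({x : V | ‖x‖ < 1} \ ({x : V | x ∈ L ∧ ‖x‖ ≤ 1} \ {0})) := by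
    refine IsOpen.sdiff ?_ (h.subset Set.sdiff_subset).isClosed
    exact isOpen_lt continuous_norm continuous_const
  have h2 : ({0} : Set L) = Subtype.val ⁻¹' ({x : V | ‖x‖ < 1} \ ({x : V | x ∈ L ∧ ‖x‖ ≤ 1} \ {0})) := by
    ext x
    constructor
    · intro hx
      rw [Set.mem_singleton_iff] at hx
      subst hx
      constructor
      · show ‖((0 : L) : V)‖ < 1
        simp
      · intro hx
        exact hx.2 (by simp)
    · rintro ⟨hx1, hx2⟩
      by_contra hne
      apply hx2
      refine ⟨⟨x.2, le_of_lt hx1⟩, ?_⟩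
      intro h0
      apply hne
      rw [Set.mem_singleton_iff] at h0 ⊢
      exact Subtype.ext h0
  rw [h2]
  exact h1.preimage continuous_subtype_val

theorem exists_fg {K : Type u} [Field K] (hK : WideField K) (E : Finset K) (B : Set K)
    (hB : ∀ x ∈ B, x ∈ Subring.closure (E : Set K))
    (hb : ∀ u : AbsoluteValue K ℝ, IsNonarchimedean u → ∃ C : ℝ, ∀ x ∈ B, u x ≤ C) :
    ∃ X : AddSubgroup K, X.FG ∧ ∀ x ∈ B, x ∈ X := by
  classical
  obtain ⟨p, v, hv, hk⟩ := hK E
  choose C hC using fun i => hb (v i) (hv i)
  let k : ℝ := ∑ i, |C i|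
  have hk0 : 0 ≤ k := Finset.sum_nonneg fun i _ => abs_nonneg _
  have hCk : ∀ i, C i ≤ k := fun i => (le_abs_self _).trans
    (Finset.single_le_sum (f := fun i => |C i|) (fun i _ => abs_nonneg _) (Finset.mem_univ i))
  obtain ⟨-, f, σ, hσ⟩ := hk k
  -- the additive group of bounded elements
  let X : AddSubgroup K :=
    { carrier := {x | x ∈ Subring.closure (E : Set K) ∧ ∀ i, v i x ≤ k}
      zero_mem' := ⟨Subring.zero_mem _, fun i => by simpa using hk0⟩
      add_mem' := by
        rintro a b ⟨ha, ha'⟩ ⟨hb1, hb'⟩
        exact ⟨Subring.add_mem _ ha hb1, fun i => (hv i a b).trans (max_le (ha' i) (hb' i))⟩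
      neg_mem' := by
        rintro a ⟨ha, ha'⟩
        exact ⟨Subring.neg_mem _ ha, fun i => by simpa using ha' i⟩ }
  let N : Submodule ℤ K := AddSubgroup.toIntSubmodule X
  have hN : ∀ x, x ∈ N ↔ (x ∈ Subring.closure (E : Set K) ∧ ∀ i, v i x ≤ k) := fun x => Iff.rfl
  let s : K →ₗ[ℤ] (Fin f → ℂ) := LinearMap.pi fun j => (σ j).toAddMonoidHom.toIntLinearMap
  have hs : ∀ x j, s x j = σ j x := fun x j => rfl
  refine ⟨X, ?_, fun x hx => ⟨hB x hx, fun i => (hC i x hx).trans (hCk i)⟩⟩
  have hfg : N.FG := by
    refine Submodule.fg_of_fg_map_of_fg_inf_ker s ?_ ?_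
    · have hd : DiscreteTopology (N.map s) := by
        apply discrete_of_finite
        refine ((hσ 1).image s).subset ?_
        rintro y ⟨⟨x, hx, rfl⟩, hy⟩
        refine ⟨x, ⟨((hN x).1 hx).1, ((hN x).1 hx).2, fun j => ?_⟩, rfl⟩
        rw [← hs x j]
        exact (norm_le_pi_norm (s x) j).trans hy
      have : Module.Finite ℤ (N.map s) := inferInstance
      exact Module.Finite.iff_fg.1 this
    · apply fg_of_finite_set
      refine (hσ 0).subset ?_
      rintro x ⟨hx, hx0⟩
      refine ⟨((hN x).1 hx).1, ((hN x).1 hx).2, fun j => ?_⟩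
      have h0 : s x = 0 := hx0
      rw [← hs x j, h0]
      simp
  have h3 := (Submodule.fg_iff_addSubgroup_fg N).1 hfg
  exact h3

end Pool.Agent.Helper64.TS
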