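import Pool.Agent.Helper64.TS.TwoStage

/-!
TR-5. Two stages from a (possibly infinite) family of homomorphisms.

Proof. `BdG B := (∃ S : Finset G, ∀ z ∈ B, z ∈ closure S) ∧ ∀ a, Bd a (φ a '' B)`. `Born BdG` as in the proof of
`TwoStage.of_homs` (file `Homs.lean`): images of products are products of images; a finite set lies in the
closure of itself; `closure (S ∪ S')`; inverses.
`StageA`: for `T` take `J` from `hfam T`; for `a ∈ J` the stage A of `H a` for `T.image (φ a)` gives `N a`;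
`N = ∑ a ∈ J, N a` (sigma type over `J`, `Fintype.equivFin`). A chain in `G` maps to chains in `H a`, so
`φ a (x⁻¹ * y) ∈ B a` for `a ∈ J`. Put `B = {z | z ∈ closure T ∧ ∀ a ∈ J, φ a z ∈ B a}`; `Bd a (φ a '' B)` for
`a ∈ J` by `Born.subset`, hence for all `a` by the last part of `hfam T`.
`StageB`: `J` from `hfam S`, the numbers `t a` for `(S.image (φ a))`, `a ∈ J`; colours `∀ a : J, Fin (t a)`;
`V c = {x | ∀ a : J, φ a x ∈ V a (c a)}`; bounded set as before.
`StageC`: for `P`, `B`: `J` from `hfam P`; for `a ∈ J` the stage C of `H a` for `P.image (φ a)` and the bounded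
set `φ a '' B`; then `x⁻¹ * y ∈ {z | z ∈ closure P ∧ ∀ a ∈ J, φ a z ∈ E a}`, a finite set by the first part of
`hfam P` (the fibres of `z ↦ (φ a z)_(a ∈ J)` on `closure P` are translates of the kernel).
-/

set_option autoImplicit false

namespace Pool.Agent.Helper64.TS

open Pool.Agent.Helper65.TH

universe v w x

/-- the bounded sets for a family of homomorphisms -/
private def BdF {G : Type v} [Group G] {I : Type x} {H : I → Type w} [∀ a, Group (H a)]
    (φ : ∀ a, G →* H a) (Bd : ∀ a, Set (H a) → Prop) (B : Set G) : Prop :=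
  (∃ S : Finset G, ∀ z ∈ B, z ∈ Subgroup.closure (S : Set G)) ∧ ∀ a, Bd a (φ a '' B)

private theorem bdF_born {G : Type v} [Group G] {I : Type x} {H : I → Type w}
    [∀ a, Group (H a)] (φ : ∀ a, G →* H a) (Bd : ∀ a, Set (H a) → Prop)
    (h : ∀ a, Born (Bd a)) : Born (BdF φ Bd) := by
  classical
  refine ⟨?_, ?_, ?_, ?_, ?_⟩
  · intro A hA
    refine ⟨⟨hA.toFinset, fun z hz => Subgroup.subset_closure ?_⟩, fun a => ?_⟩
    · rw [Set.Finite.coe_toFinset]
      exact hz
    · exact (h a).finite _ (hA.image _)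
  · rintro A B ⟨⟨S, hS⟩, hB⟩ hAB
    exact ⟨⟨S, fun z hz => hS z (hAB hz)⟩, fun a =>
      (h a).subset _ _ (hB a) (Set.image_mono hAB)⟩
  · rintro A B ⟨⟨S, hS⟩, hA⟩ ⟨⟨S', hS'⟩, hB⟩
    refine ⟨⟨S ∪ S', ?_⟩, fun a => ?_⟩
    · rintro z (hz | hz)
      · exact Subgroup.closure_mono (by
          rw [Finset.coe_union]; exact Set.subset_union_left) (hS z hz)
      · exact Subgroup.closure_mono (by
          rw [Finset.coe_union]; exact Set.subset_union_right) (hS' z hz)
    · rw [Set.image_union]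
      exact (h a).union _ _ (hA a) (hB a)
  · rintro A B ⟨⟨S, hS⟩, hA⟩ ⟨⟨S', hS'⟩, hB⟩
    refine ⟨⟨S ∪ S', ?_⟩, fun a => ?_⟩
    · rintro z ⟨p, hp, q, hq, rfl⟩
      refine Subgroup.mul_mem _ ?_ ?_
      · exact Subgroup.closure_mono (by
          rw [Finset.coe_union]; exact Set.subset_union_left) (hS p hp)
      · exact Subgroup.closure_mono (by
          rw [Finset.coe_union]; exact Set.subset_union_right) (hS' q hq)
    · refine (h a).subset _ _ ((h a).mul _ _ (hA a) (hB a)) ?_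
      rintro _ ⟨_, ⟨p, hp, q, hq, rfl⟩, rfl⟩
      exact ⟨φ a p, ⟨p, hp, rfl⟩, φ a q, ⟨q, hq, rfl⟩, map_mul _ _ _⟩
  · rintro A ⟨⟨S, hS⟩, hA⟩
    refine ⟨⟨S, ?_⟩, fun a => ?_⟩
    · intro z hz
      have h1 := hS _ hz
      rw [Subgroup.inv_mem_iff] at h1
      exact h1
    · refine (h a).subset _ _ ((h a).inv _ (hA a)) ?_
      rintro _ ⟨z, hz, rfl⟩
      exact ⟨z⁻¹, hz, map_inv _ _⟩

/-- the image of an element of the closure -/
private theorem map_mem_closure' {G : Type v} [Group G] {K : Type w} [Group K] [DecidableEq K]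
    (φ : G →* K) (T : Finset G) {z : G} (hz : z ∈ Subgroup.closure (T : Set G)) :
    φ z ∈ Subgroup.closure ((T.image φ : Finset K) : Set K) := by
  rw [Finset.coe_image, ← MonoidHom.map_closure]
  exact Subgroup.mem_map_of_mem _ hz

/-- the fibres of the map to the product are translates of the kernel -/
private theorem finite_fib {G : Type v} [Group G] {I : Type x} {H : I → Type w}
    [∀ a, Group (H a)] (φ : ∀ a, G →* H a) (P : Finset G) (J : Finset I)
    (hker : {g : G | g ∈ Subgroup.closure (P : Set G) ∧ ∀ a ∈ J, φ a g = 1}.Finite)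
    (E : ∀ a : J, Finset (H a)) :
    {g : G | g ∈ Subgroup.closure (P : Set G) ∧ ∀ a : J, φ a g ∈ E a}.Finite := by
  classical
  have hpi : {e : ∀ a : J, H a | ∀ a : J, e a ∈ (E a : Set (H a))}.Finite :=
    Set.Finite.pi' (fun a => (E a).finite_toSet)
  have hcover : {g : G | g ∈ Subgroup.closure (P : Set G) ∧ ∀ a : J, φ a g ∈ E a} ⊆
      ⋃ e ∈ {e : ∀ a : J, H a | ∀ a : J, e a ∈ (E a : Set (H a))},
        {g : G | g ∈ Subgroup.closure (P : Set G) ∧ ∀ a : J, φ a g = e a} := by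
    rintro g ⟨hg, hgE⟩
    simp only [Set.mem_iUnion]
    exact ⟨fun a => φ a g, fun a => hgE a, hg, fun _ => rfl⟩
  refine (hpi.biUnion fun e _ => ?_).subset hcover
  by_cases he : ∃ g₀ ∈ Subgroup.closure (P : Set G), ∀ a : J, φ a g₀ = e a
  · obtain ⟨g₀, hg₀, hφ⟩ := he
    refine (hker.image (fun g => g₀ * g)).subset ?_
    rintro g ⟨hg, hge⟩
    refine ⟨g₀⁻¹ * g, ⟨Subgroup.mul_mem _ (Subgroup.inv_mem _ hg₀) hg, fun a ha => ?_⟩, by simp⟩
    have h1 := hge ⟨a, ha⟩
    have h2 := hφ ⟨a, ha⟩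
    simp only at h1 h2
    rw [map_mul, map_inv, h1, h2, inv_mul_cancel]
  · have hempty : {g : G | g ∈ Subgroup.closure (P : Set G) ∧ ∀ a : J, φ a g = e a} = ∅ := by
      rw [Set.eq_empty_iff_forall_notMem]
      rintro g ⟨hg, hge⟩
      exact he ⟨g, hg, hge⟩
    rw [hempty]
    exact Set.finite_empty

/-- transport of a coordinate along the equality of indices -/
private theorem near_coord {G : Type v} {ι : Type x} {K : ι → Type w} {N : ι → ℕ}
    (γ : ∀ i, K i → Fin (N i) → ℝ) (φ : ∀ i, G → K i)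
    {n : ℕ} (e : (Σ i, Fin (N i)) ≃ Fin n) {b c : G} {δ : ℝ}
    (hb : Near (fun m => γ (e.symm m).1 (φ (e.symm m).1 b) (e.symm m).2)
      (fun m => γ (e.symm m).1 (φ (e.symm m).1 c) (e.symm m).2) δ) (i : ι) :
    Near (γ i (φ i b)) (γ i (φ i c)) δ := by
  intro l
  have key : ∀ p q : (Σ i, Fin (N i)), p = q →
      |γ p.1 (φ p.1 b) p.2 - γ p.1 (φ p.1 c) p.2| ≤ δ →
      |γ q.1 (φ q.1 b) q.2 - γ q.1 (φ q.1 c) q.2| ≤ δ := by
    rintro p _ rfl hp
    exact hp
  exact key _ ⟨i, l⟩ (Equiv.symm_apply_apply _ _) (hb (e ⟨i, l⟩))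

theorem TwoStage.of_family {G : Type v} [Group G] {I : Type x} {H : I → Type w}
    [∀ a, Group (H a)] (φ : ∀ a, G →* H a) (Bd : ∀ a, Set (H a) → Prop)
    (h : ∀ a, Born (Bd a) ∧ StageA (Bd a) ∧ StageB (Bd a) ∧ StageC (Bd a))
    (hfam : ∀ T : Finset G, ∃ J : Finset I,
      {g : G | g ∈ Subgroup.closure (T : Set G) ∧ ∀ a ∈ J, φ a g = 1}.Finite ∧
      ∀ B : Set G, (∀ z ∈ B, z ∈ Subgroup.closure (T : Set G)) →
        (∀ a ∈ J, Bd a (φ a '' B)) → ∀ a, Bd a (φ a '' B)) : TwoStage G := by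
  classical
  have hborn := bdF_born φ Bd fun a => (h a).1
  refine ⟨BdF φ Bd, hborn, ?_, ?_, ?_⟩
  · intro T
    obtain ⟨J, hJ, hJB⟩ := hfam T
    have hA : ∀ a : J, ∃ N : ℕ, ∀ (F : Finset (H a)) (ε : ℝ), 0 < ε →
        ∃ (g : H a → Fin N → ℝ) (B : Set (H a)), Bd a B ∧
          (∀ x, ∀ s ∈ F, Near (g (x * s)) (g x) ε) ∧
          ∀ x y, Chain {s | s ∈ F ∧
              s ∈ Subgroup.closure ((T.image (φ a) : Finset (H a)) : Set (H a))}
            (fun b => Near (g b) (g x) 1) x y → x⁻¹ * y ∈ B :=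
      fun a => (h a).2.1 (T.image (φ a))
    choose N hN using hA
    let e : (Σ a : J, Fin (N a)) ≃ Fin (Fintype.card (Σ a : J, Fin (N a))) :=
      Fintype.equivFin _
    refine ⟨Fintype.card (Σ a : J, Fin (N a)), fun F ε hε => ?_⟩
    choose γ B hB hstep hlight using fun a : J => hN a (F.image (φ a)) ε hε
    refine ⟨fun x m => γ (e.symm m).1 (φ (e.symm m).1 x) (e.symm m).2,
      {z | z ∈ Subgroup.closure (T : Set G) ∧ ∀ a : J, φ a z ∈ B a}, ?_, ?_, ?_⟩
    · refine ⟨⟨T, fun z hz => hz.1⟩, hJB _ (fun z hz => hz.1) fun a ha => ?_⟩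
      refine (h a).1.subset _ _ (hB ⟨a, ha⟩) ?_
      rintro _ ⟨z, hz, rfl⟩
      exact hz.2 ⟨a, ha⟩
    · intro x s hs m
      have h1 := hstep (e.symm m).1 (φ (e.symm m).1 x)
        (φ (e.symm m).1 s) (Finset.mem_image_of_mem _ hs) (e.symm m).2
      rw [← map_mul] at h1
      exact h1
    · intro x y hch
      refine ⟨hch.mem_subgroup _ (fun s hs => hs.2), fun a => ?_⟩
      have hc : Chain {s | s ∈ F.image (φ a) ∧
          s ∈ Subgroup.closure ((T.image (φ a) : Finset (H a)) : Set (H a))}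
          (fun b => Near (γ a b) (γ a (φ a x)) 1) (φ a x) (φ a y) := by
        refine hch.map (φ a) ?_
        intro p b hs hb
        refine ⟨⟨?_, ?_⟩, ?_⟩
        · rw [← map_inv, ← map_mul]
          exact Finset.mem_image_of_mem _ hs.1
        · rw [← map_inv, ← map_mul]
          exact map_mem_closure' _ _ hs.2
        · exact near_coord γ (fun a : J => (φ a : G → H a)) e hb a
      have h3 := hlight a _ _ hc
      rwa [← map_inv, ← map_mul] at h3
  · intro S
    obtain ⟨J, hJ, hJB⟩ := hfam S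
    have hBst : ∀ a : J, ∃ t : ℕ, ∀ F : Set (H a), Bd a F →
        (∀ s ∈ F, s ∈ Subgroup.closure ((S.image (φ a) : Finset (H a)) : Set (H a))) →
        ∃ (V : Fin t → Set (H a)) (B : Set (H a)), Bd a B ∧ (∀ x, ∃ i, x ∈ V i) ∧
          ∀ i, ∀ x ∈ V i, ∀ y, Chain F (fun b => b ∈ V i) x y → x⁻¹ * y ∈ B :=
      fun a => (h a).2.2.1 (S.image (φ a))
    choose t ht using hBst
    let e : (∀ a : J, Fin (t a)) ≃ Fin (Fintype.card (∀ a : J, Fin (t a))) :=
      Fintype.equivFin _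
    refine ⟨Fintype.card (∀ a : J, Fin (t a)), fun F hF hFS => ?_⟩
    choose V B hB hV hch using fun a : J => ht a (φ a '' F) (hF.2 a) (by
      rintro _ ⟨s, hs, rfl⟩
      exact map_mem_closure' _ _ (hFS s hs))
    refine ⟨fun i => {x | ∀ a : J, φ a x ∈ V a (e.symm i a)},
      {z | z ∈ Subgroup.closure (S : Set G) ∧ ∀ a : J, φ a z ∈ B a}, ?_, ?_, ?_⟩
    · refine ⟨⟨S, fun z hz => hz.1⟩, hJB _ (fun z hz => hz.1) fun a ha => ?_⟩
      refine (h a).1.subset _ _ (hB ⟨a, ha⟩) ?_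
      rintro _ ⟨z, hz, rfl⟩
      exact hz.2 ⟨a, ha⟩
    · intro x
      choose c hc using fun a : J => hV a (φ a x)
      refine ⟨e c, fun a => ?_⟩
      rw [Equiv.symm_apply_apply]
      exact hc a
    · intro i x hx y hxy
      refine ⟨hxy.mem_subgroup _ hFS, fun a => ?_⟩
      have hc : Chain (φ a '' F) (fun b => b ∈ V a (e.symm i a)) (φ a x) (φ a y) := by
        refine hxy.map (φ a) ?_
        intro p b hs hb
        refine ⟨?_, hb a⟩
        rw [← map_inv, ← map_mul]
        exact Set.mem_image_of_mem _ hs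
      have h3 := hch a (e.symm i a) _ (hx a) _ hc
      rwa [← map_inv, ← map_mul] at h3
  · intro P B hB
    obtain ⟨J, hJ, hJB⟩ := hfam P
    have hC : ∀ a : J, ∃ N : ℕ, ∀ (F : Finset (H a)) (ε : ℝ), 0 < ε →
        ∃ (g : H a → Fin N → ℝ) (E : Finset (H a)),
          (∀ x, ∀ s ∈ F, Near (g (x * s)) (g x) ε) ∧
          ∀ x y, Chain {s | s ∈ F ∧
              s ∈ Subgroup.closure ((P.image (φ a) : Finset (H a)) : Set (H a))}
            (fun b => x⁻¹ * b ∈ φ a '' B ∧ Near (g b) (g x) 1) x y → x⁻¹ * y ∈ E :=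
      fun a => (h a).2.2.2 (P.image (φ a)) (φ a '' B) (hB.2 a)
    choose N hN using hC
    let e : (Σ a : J, Fin (N a)) ≃ Fin (Fintype.card (Σ a : J, Fin (N a))) :=
      Fintype.equivFin _
    refine ⟨Fintype.card (Σ a : J, Fin (N a)), fun F ε hε => ?_⟩
    choose γ E hstep hlight using fun a : J => hN a (F.image (φ a)) ε hε
    have hfin := finite_fib φ P J hJ E
    refine ⟨fun x m => γ (e.symm m).1 (φ (e.symm m).1 x) (e.symm m).2, hfin.toFinset, ?_, ?_⟩
    · intro x s hs m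
      have h1 := hstep (e.symm m).1 (φ (e.symm m).1 x)
        (φ (e.symm m).1 s) (Finset.mem_image_of_mem _ hs) (e.symm m).2
      rw [← map_mul] at h1
      exact h1
    · intro x y hch
      rw [Set.Finite.mem_toFinset]
      refine ⟨hch.mem_subgroup _ (fun s hs => hs.2), fun a => ?_⟩
      have hc : Chain {s | s ∈ F.image (φ a) ∧
          s ∈ Subgroup.closure ((P.image (φ a) : Finset (H a)) : Set (H a))}
          (fun b => (φ a x)⁻¹ * b ∈ φ a '' B ∧ Near (γ a b) (γ a (φ a x)) 1)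
          (φ a x) (φ a y) := by
        refine hch.map (φ a) ?_
        intro p b hs hb
        refine ⟨⟨?_, ?_⟩, ?_, ?_⟩
        · rw [← map_inv, ← map_mul]
          exact Finset.mem_image_of_mem _ hs.1
        · rw [← map_inv, ← map_mul]
          exact map_mem_closure' _ _ hs.2
        · rw [← map_inv, ← map_mul]
          exact Set.mem_image_of_mem _ hb.1
        · exact near_coord γ (fun a : J => (φ a : G → H a)) e hb.2 a
      have h3 := hlight a _ _ hc
      rwa [← map_inv, ← map_mul] at h3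

end Pool.Agent.Helper64.TS
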