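import Mathlib

/-!
TR-6. In a reduced ring finitely many primes detect the elements of a finitely generated subring.

Proof. `R₀ = Subring.closure E` is a finitely generated ring, hence Noetherian
(`isNoetherianRing_closure` / `Algebra.FiniteType.isNoetherianRing ℤ`), and reduced. It has finitely many minimal
primes (`minimalPrimes.finite_of_isNoetherianRing`), with intersection `nilradical = 0`
(`sInf_minimalPrimes` / `Ideal.sInf_minimalPrimes`, `nilradical_eq_zero`). The inclusion `R₀ → R` is injective, so
every minimal prime of `R₀` is the preimage of a prime of `R`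
(`Ideal.exists_comap_eq_of_mem_minimalPrimes_of_injective`). `J` = these primes of `R`.
-/

set_option autoImplicit false

namespace Pool.Agent.Helper64.TS

theorem exists_primes {R : Type*} [CommRing R] [IsReduced R] (E : Finset R) :
    ∃ J : Finset (PrimeSpectrum R), ∀ x ∈ Subring.closure (E : Set R),
      (∀ p ∈ J, x ∈ p.asIdeal) → x = 0 := by
  classical
  have hN : IsNoetherianRing (Subring.closure (E : Set R)) :=
    is_noetherian_subring_closure _ E.finite_toSet
  have hred : IsReduced (Subring.closure (E : Set R)) :=
    isReduced_of_injective (Subring.closure (E : Set R)).subtype Subtype.val_injective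
  have hfin : (minimalPrimes (Subring.closure (E : Set R))).Finite :=
    minimalPrimes.finite_of_isNoetherianRing _
  have hex : ∀ p : minimalPrimes (Subring.closure (E : Set R)), ∃ P : PrimeSpectrum R,
      Ideal.comap (Subring.closure (E : Set R)).subtype P.asIdeal = p.1 := by
    rintro ⟨p, hp⟩
    obtain ⟨p', hp', h⟩ := Ideal.exists_comap_eq_of_mem_minimalPrimes_of_injective
      (f := (Subring.closure (E : Set R)).subtype) Subtype.val_injective p hp
    exact ⟨⟨p', hp'⟩, h⟩
  choose F hF using hex
  have : Fintype (minimalPrimes (Subring.closure (E : Set R))) := hfin.fintype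
  refine ⟨Finset.univ.image F, fun x hx h => ?_⟩
  have hmem : (⟨x, hx⟩ : Subring.closure (E : Set R)) ∈
      sInf (minimalPrimes (Subring.closure (E : Set R))) := by
    rw [Submodule.mem_sInf]
    intro p hp
    have h1 := h (F ⟨p, hp⟩) (Finset.mem_image_of_mem _ (Finset.mem_univ _))
    have h2 : (⟨x, hx⟩ : Subring.closure (E : Set R)) ∈
        Ideal.comap (Subring.closure (E : Set R)).subtype (F ⟨p, hp⟩).asIdeal := h1
    rw [hF] at h2
    exact h2
  have h0 : sInf (minimalPrimes (Subring.closure (E : Set R))) = ⊥ := by
    have h1 : sInf (minimalPrimes (Subring.closure (E : Set R))) =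
        nilradical (Subring.closure (E : Set R)) :=
      Ideal.sInf_minimalPrimes
    rw [h1, nilradical_eq_zero]
    rfl
  rw [h0] at hmem
  have h3 := (Submodule.mem_bot _).1 hmem
  exact congrArg Subtype.val h3

end Pool.Agent.Helper64.TS
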