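import Pool.Agent.Helper64.TS.RQuot
import Pool.Agent.Helper64.TS.Family
import Pool.Agent.Helper64.TS.Primes
import Pool.Agent.Helper64.TS.FG
import Pool.Agent.Helper64.TS.WideZero
import Pool.Agent.Helper64.TS.WideP

/-!
TR-7. Directed unions of linear groups over a countable reduced ring have two stages.

Proof. For `a : PrimeSpectrum R` let `K a = FractionRing (R ⧸ a.asIdeal)` (countable field),
`ψ a : R →+* K a` the canonical map, with kernel `a.asIdeal`. `WideField (K a)`: `wideField_charP` or
`wideField_charZero` (`CharP.exists`, `CharP.char_is_prime_or_zero`; a countable set has cardinality at most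
the continuum: `Cardinal.mk_le_aleph0_iff`, `Cardinal.aleph0_le_continuum`). `exists_quot` gives `Bd a` on
`G ⧸ D.ker (ψ a)`. Apply `TwoStage.of_family` to the homomorphisms `QuotientGroup.mk'`. Given `T` choose `i`
with `T ⊆ H i` (induction as in `LinData.exists_ge`; `D.exists_above`, `D.dir`), let `E ⊆ R` be the finite set of all
`rent (ρ i t) s`, `t ∈ T`; by induction `rent (ρ i h) s ∈ Subring.closure E` for `h ∈ closure T` (see `hring` in
the proof of `finite_of_ring` in `Helper58/GI/Tower.lean`). `J` from `exists_primes E`.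
Kernel: if `g ∈ closure T` and `g ∈ D.ker (ψ a)` for all `a ∈ J` then the entries of `ρ i g - 1` lie in
`Subring.closure E` and in all `a ∈ J`, so they are `0`, `ρ i g = 1`, `g = 1` (`D.inj`).
Boundedness: let `B ⊆ closure T` with `Bd a (mk '' B)` for `a ∈ J`. Let `Y = {rent (ρ i h) s | h ∈ B, s}`, a subset
of `Subring.closure E`. For `a ∈ J` the set `ψ a '' Y` is contained in `Subring.closure (E.image (ψ a))` and bounded at
all non-archimedean absolute values of `K a` (characterization in `exists_quot`), so by `exists_fg` it is contained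
in a finitely generated additive group `X a`. `X = {x ∈ Subring.closure E | ∀ a ∈ J, ψ a x ∈ X a}` is an additive
group with an injective homomorphism to the finite product of the `X a`, `a ∈ J` (injective by the choice of
`J`), so it is finitely generated (submodules of finitely generated `ℤ`-modules). So `Y` lies in the additive group
generated by finitely many `x_1, ..., x_r ∈ R`, and for every `a` and every non-archimedean `u` on `K a`:
`u (ψ a y) ≤ max_j u (ψ a x_j)` for `y ∈ Y` (integers have absolute value at most `1`). By the characterization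
`Bd a (mk '' B)` for all `a`.
-/

set_option autoImplicit false

namespace Pool.Agent.Helper64.TS

universe u w

open Pool.Agent.Helper65.TH Pool.Agent.Helper58.GI

private theorem rent_mul_mem {R : Type*} [CommRing R] {n : ℕ} (A : Subring R) {g h : GL (Fin n) R}
    (hg : ∀ s, rent g s ∈ A) (hh : ∀ s, rent h s ∈ A) (s : (Fin n × Fin n) ⊕ (Fin n × Fin n)) :
    rent (g * h) s ∈ A := by
  rcases s with ⟨a, b⟩ | ⟨a, b⟩
  · have h1 : rent (g * h) (Sum.inl (a, b)) =
        ∑ c, rent g (Sum.inl (a, c)) * rent h (Sum.inl (c, b)) := by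
      simp only [rent, Sum.elim_inl, Units.val_mul, Matrix.mul_apply]
    rw [h1]
    exact Subring.sum_mem _ fun c _ => Subring.mul_mem _ (hg _) (hh _)
  · have h1 : rent (g * h) (Sum.inr (a, b)) =
        ∑ c, rent h (Sum.inr (a, c)) * rent g (Sum.inr (c, b)) := by
      simp only [rent, Sum.elim_inr, mul_inv_rev, Units.val_mul, Matrix.mul_apply]
    rw [h1]
    exact Subring.sum_mem _ fun c _ => Subring.mul_mem _ (hh _) (hg _)

private theorem rent_one_mem {R : Type*} [CommRing R] {n : ℕ} (A : Subring R)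
    (s : (Fin n × Fin n) ⊕ (Fin n × Fin n)) : rent (1 : GL (Fin n) R) s ∈ A := by
  rcases s with ⟨a, b⟩ | ⟨a, b⟩
  · have h1 : rent (1 : GL (Fin n) R) (Sum.inl (a, b)) = if a = b then 1 else 0 := by
      simp only [rent, Sum.elim_inl, Units.val_one, Matrix.one_apply]
    rw [h1]
    split_ifs
    · exact A.one_mem
    · exact A.zero_mem
  · have h1 : rent (1 : GL (Fin n) R) (Sum.inr (a, b)) = if a = b then 1 else 0 := by
      simp only [rent, Sum.elim_inr, inv_one, Units.val_one, Matrix.one_apply]
    rw [h1]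
    split_ifs
    · exact A.one_mem
    · exact A.zero_mem

private theorem rring_of_closure {R : Type u} [CommRing R] {G : Type w} [Group G] {H : Subgroup G}
    {n : ℕ} (ρ : H →* GL (Fin n) R) (T : Finset G) (hT : ∀ t ∈ T, t ∈ H) :
    ∃ E : Finset R, ∀ h ∈ Subgroup.closure (T : Set G), ∀ (hg : h ∈ H) s,
      rent (ρ ⟨h, hg⟩) s ∈ Subring.closure (E : Set R) := by
  classical
  have hcl : ∀ h ∈ Subgroup.closure (T : Set G), h ∈ H := fun h hh =>
    (Subgroup.closure_le H).2 hT hh
  let E : Finset R := T.attach.biUnion fun t => Finset.univ.image (rent (ρ ⟨t.1, hT t.1 t.2⟩))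
  refine ⟨E, ?_⟩
  intro h hh
  induction hh using Subgroup.closure_induction with
  | mem x hx =>
    intro hg s
    apply Subring.subset_closure
    simp only [E, Finset.coe_biUnion, Finset.coe_image, Finset.coe_univ, Set.image_univ,
      Set.mem_iUnion, Set.mem_range]
    exact ⟨⟨x, hx⟩, Finset.mem_coe.2 (Finset.mem_attach _ _), s, rfl⟩
  | one =>
    intro hg s
    have h1 : ρ ⟨1, hg⟩ = 1 := map_one ρ
    rw [h1]
    exact rent_one_mem _ s
  | mul x z hx hz ihx ihz =>
    intro hg s
    have h1 : ρ ⟨x * z, hg⟩ = ρ ⟨x, hcl x hx⟩ * ρ ⟨z, hcl z hz⟩ := by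
      rw [← map_mul]; rfl
    rw [h1]
    exact rent_mul_mem _ (ihx (hcl x hx)) (ihz (hcl z hz)) s
  | inv x hx ihx =>
    intro hg s
    have h1 : ρ ⟨x⁻¹, hg⟩ = (ρ ⟨x, hcl x hx⟩)⁻¹ := by
      rw [← map_inv]; rfl
    rw [h1, rent_inv]
    exact ihx (hcl x hx) _

private theorem index_of_finset {R : Type u} [CommRing R] {G : Type w} [Group G]
    (D : RingData R G) (T : Finset G) : ∃ i, ∀ t ∈ T, t ∈ D.H i := by
  classical
  induction T using Finset.induction_on with
  | empty =>
    obtain ⟨i, -⟩ := D.cov 1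
    exact ⟨i, by simp⟩
  | insert a S _ ih =>
    obtain ⟨j, hj⟩ := ih
    obtain ⟨k, hk⟩ := D.cov a
    obtain ⟨l, ⟨hjl, -⟩, ⟨hkl, -⟩⟩ := D.dir j k
    refine ⟨l, ?_⟩
    intro s hs
    rcases Finset.mem_insert.1 hs with rfl | hs
    · exact hkl hk
    · exact hjl (hj s hs)

/-- an additive subgroup which embeds in a finite product of finitely generated groups -/
private theorem fg_of_family {R : Type u} [CommRing R] {J : Type u} [Fintype J] {K : J → Type u}
    [∀ a, Field (K a)] (ψ : ∀ a, R →+* K a) (A : Subring R)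
    (hA : ∀ x ∈ A, (∀ a, ψ a x = 0) → x = 0) (X : ∀ a, AddSubgroup (K a)) (hX : ∀ a, (X a).FG) :
    ∃ S : Finset R, ∀ x ∈ A, (∀ a, ψ a x ∈ X a) → x ∈ AddSubgroup.closure (S : Set R) := by
  let M : AddSubgroup R :=
    { carrier := {x | x ∈ A ∧ ∀ a, ψ a x ∈ X a}
      zero_mem' := ⟨A.zero_mem, fun a => by rw [map_zero]; exact (X a).zero_mem⟩
      add_mem' := fun {x y} hx hy => ⟨A.add_mem hx.1 hy.1, fun a => by
        rw [map_add]; exact (X a).add_mem (hx.2 a) (hy.2 a)⟩
      neg_mem' := fun {x} hx => ⟨A.neg_mem hx.1, fun a => by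
        rw [map_neg]; exact (X a).neg_mem (hx.2 a)⟩ }
  have hfin : ∀ a, Module.Finite ℤ (X a) := fun a =>
    Module.Finite.iff_addGroup_fg.2 ((AddGroup.fg_iff_addSubgroup_fg _).2 (hX a))
  let f : M →+ (∀ a, X a) :=
    { toFun := fun x a => ⟨ψ a x.1, x.2.2 a⟩
      map_zero' := by
        funext a
        apply Subtype.ext
        show ψ a 0 = 0
        rw [map_zero]
      map_add' := by
        intro x y
        funext a
        apply Subtype.ext
        show ψ a (x.1 + y.1) = ψ a x.1 + ψ a y.1
        rw [map_add] }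
  have hf : Function.Injective f := by
    rw [injective_iff_map_eq_zero]
    intro x hx
    apply Subtype.ext
    refine hA x.1 x.2.1 fun a => ?_
    have h1 := congrArg Subtype.val (congrFun hx a)
    exact h1
  have hM : Module.Finite ℤ M := Module.Finite.of_injective f.toIntLinearMap hf
  have hM2 : M.FG := (AddGroup.fg_iff_addSubgroup_fg _).1 (Module.Finite.iff_addGroup_fg.1 hM)
  obtain ⟨S, hS⟩ := hM2
  refine ⟨S, fun x hx hxa => ?_⟩
  rw [hS]
  exact ⟨hx, hxa⟩

private theorem nonarch_le {R : Type u} [CommRing R] {K : Type u} [Field K] (ψ : R →+* K)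
    (u : AbsoluteValue K ℝ) (hu : IsNonarchimedean u) (S : Finset R) (x : R)
    (hx : x ∈ AddSubgroup.closure (S : Set R)) : u (ψ x) ≤ ∑ s ∈ S, u (ψ s) := by
  have h0 : 0 ≤ ∑ s ∈ S, u (ψ s) := Finset.sum_nonneg fun s _ => u.nonneg _
  induction hx using AddSubgroup.closure_induction with
  | mem x hx =>
    exact Finset.single_le_sum (f := fun s => u (ψ s)) (fun s _ => u.nonneg _)
      (Finset.mem_coe.1 hx)
  | zero =>
    rw [map_zero, map_zero]
    exact h0
  | add x y _ _ hx hy =>
    rw [map_add]
    exact (hu _ _).trans (max_le hx hy)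
  | neg x _ hx =>
    rw [map_neg, AbsoluteValue.map_neg]
    exact hx

private theorem wide_of_countable {K : Type u} [Field K] [Countable K] : WideField K := by
  obtain ⟨p, hp⟩ := CharP.exists K
  rcases CharP.char_is_prime_or_zero K p with h | h
  · have : Fact p.Prime := ⟨h⟩
    exact wideField_charP p
  · subst h
    have : CharZero K := CharP.charP_to_charZero K
    exact wideField_charZero ((Cardinal.mk_le_aleph0_iff.2 inferInstance).trans
      Cardinal.aleph0_le_continuum)

theorem RingData.twoStage_of_reduced {R : Type u} [CommRing R] [IsReduced R] [Countable R]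
    {G : Type w} [Group G] (D : RingData R G) : TwoStage G := by
  classical
  let K : PrimeSpectrum R → Type u := fun a => FractionRing (R ⧸ a.asIdeal)
  let ψ : ∀ a, R →+* K a := fun a =>
    (algebraMap (R ⧸ a.asIdeal) (FractionRing (R ⧸ a.asIdeal))).comp (Ideal.Quotient.mk a.asIdeal)
  have hψ : ∀ a x, ψ a x = 0 → x ∈ a.asIdeal := by
    intro a x hx
    have h1 : algebraMap (R ⧸ a.asIdeal) (FractionRing (R ⧸ a.asIdeal))
        (Ideal.Quotient.mk a.asIdeal x) = 0 := hx
    rw [IsFractionRing.to_map_eq_zero_iff] at h1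
    exact Ideal.Quotient.eq_zero_iff_mem.1 h1
  have hcount : ∀ a, Countable (K a) := by
    intro a
    have h1 : Countable (R ⧸ a.asIdeal) := Quotient.countable
    have h2 : Function.Surjective (fun q : (R ⧸ a.asIdeal) × nonZeroDivisors (R ⧸ a.asIdeal) =>
        (Localization.mk q.1 q.2 : FractionRing (R ⧸ a.asIdeal))) := by
      intro x
      induction x using Localization.induction_on with
      | H q => exact ⟨q, rfl⟩
    exact h2.countable
  have hW : ∀ a, WideField (K a) := fun a => by
    have := hcount a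
    exact wide_of_countable
  have hq := fun a => RingData.exists_quot (hW a) (ψ a) D
  choose Bd hBd hchar using hq
  refine TwoStage.of_family (fun a => QuotientGroup.mk' (D.ker (ψ a))) Bd hBd ?_
  intro T
  obtain ⟨i, hi⟩ := index_of_finset D T
  have hcl : ∀ h ∈ Subgroup.closure (T : Set G), h ∈ D.H i := fun h hh =>
    (Subgroup.closure_le _).2 hi hh
  obtain ⟨E, hE⟩ := rring_of_closure (D.ρ i) T hi
  obtain ⟨J, hJ⟩ := exists_primes E
  refine ⟨J, ?_, ?_⟩
  · refine (Set.finite_singleton (1 : G)).subset ?_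
    rintro g ⟨hg, hga⟩
    have hgi := hcl g hg
    have h1 : D.ρ i ⟨g, hgi⟩ = 1 := by
      apply rent_injective
      funext s
      rw [← sub_eq_zero]
      refine hJ _ (sub_mem (hE g hg hgi s) (rent_one_mem _ s)) fun a ha => ?_
      apply hψ
      rw [map_sub, ← rent_map, ← rent_map]
      have h2 : g ∈ D.ker (ψ a) := (QuotientGroup.eq_one_iff g).1 (hga a ha)
      rw [(D.mem_ker (ψ a) i g hgi).1 h2, map_one, sub_self]
    have h2 : (⟨g, hgi⟩ : D.H i) = 1 := D.inj i (h1.trans (map_one _).symm)
    exact congrArg Subtype.val h2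
  · intro B hB hBJ
    have hX : ∀ a : J, ∃ X : AddSubgroup (K a.1), X.FG ∧ ∀ h : D.H i, (h : G) ∈ B → ∀ s,
        ψ a.1 (rent (D.ρ i h) s) ∈ X := by
      intro a
      have h1 := (hchar a.1 i T hi B hB).1 (hBJ a.1 a.2)
      obtain ⟨X, hX, hX2⟩ := exists_fg (hW a.1) (E.image (ψ a.1))
        {y | ∃ h : D.H i, (h : G) ∈ B ∧ ∃ s, y = ψ a.1 (rent (D.ρ i h) s)} (by
          rintro y ⟨h, hh, s, rfl⟩
          rw [Finset.coe_image, ← RingHom.map_closure]
          exact Subring.mem_map.2 ⟨_, hE _ (hB _ hh) h.2 s, rfl⟩) (by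
          intro u hu
          obtain ⟨C, hC⟩ := h1 u hu
          refine ⟨C, ?_⟩
          rintro y ⟨h, hh, s, rfl⟩
          exact hC h hh s)
      exact ⟨X, hX, fun h hh s => hX2 _ ⟨h, hh, s, rfl⟩⟩
    choose X hXfg hXmem using hX
    obtain ⟨S, hS⟩ := fg_of_family (K := fun a : J => K a.1) (fun a : J => ψ a.1)
      (Subring.closure (E : Set R))
      (fun x hx hxa => hJ x hx fun a ha => hψ a x (hxa ⟨a, ha⟩)) X hXfg
    intro b
    refine (hchar b i T hi B hB).2 ?_
    intro u hu
    refine ⟨∑ s ∈ S, u (ψ b s), fun h hh s => ?_⟩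
    exact nonarch_le (ψ b) u hu S _ (hS _ (hE _ (hB _ hh) h.2 s) fun a => hXmem a h hh s)

end Pool.Agent.Helper64.TS
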