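import Pool.Agent.Helper64.TS.RCount
import Pool.Agent.Helper64.TS.Reduced
import Pool.Agent.Helper64.TS.NilKer
import Pool.Agent.Helper64.TS.RedQuot
import Pool.Agent.Helper64.TS.ApcC
import Pool.Agent.Helper64.TS.GLFin
import Pool.Agent.Helper64.TS.Assemble
import Pool.Agent.Helper65.GN.Metric
import Pool.Agent.Helper65.GN.Reach

/-!
TR-11. Directed unions of linear groups over arbitrary commutative rings.
-/

set_option autoImplicit false

namespace Pool.Agent.Helper64.TS

open Pool.Agent.Helper65.TH Pool.Agent.Helper65.GN

universe u v w x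

/-- extensions of groups with `ApcC` by kernels satisfying `Reach` -/
theorem apcC_of_reach {G : Type w} [Group G] (N : Subgroup G) [N.Normal] (hN : Reach N)
    (hQ : ApcC (G ⧸ N)) : ApcC G := by
  classical
  intro T
  refine good_ext (QuotientGroup.mk' N) T (hQ _) fun T' hT' => hN.good T' fun s hs => ?_
  have := hT' s hs
  rwa [← MonoidHom.mem_ker, QuotientGroup.ker_mk'] at this

/-- countable directed unions of linear groups over a commutative ring -/
theorem RingData.apcC {R : Type u} [CommRing R] {G : Type w} [Group G] [Countable G]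
    (D : RingData R G) : ApcC G := by
  obtain ⟨R₀, hR₀, ⟨D₀⟩⟩ := D.countable
  obtain ⟨D₁⟩ := D₀.quot (Ideal.Quotient.mk (nilradical R₀))
  have h1 : IsReduced (R₀ ⧸ nilradical R₀) :=
    (nilradical R₀).isRadical_iff_quotient_reduced.1 (Ideal.radical_isRadical _)
  have h2 : Countable (R₀ ⧸ nilradical R₀) := Quotient.countable
  exact apcC_of_reach _ D₀.reach_nil D₁.twoStage_of_reduced.apcC

/-- countable directed unions of linear groups over a reduced commutative ring -/
theorem RingData.twoStage {R : Type u} [CommRing R] [IsReduced R] {G : Type w} [Group G]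
    [Countable G] (D : RingData R G) : TwoStage G := by
  obtain ⟨R₀, hR₀, ⟨D₀⟩⟩ := D.countable
  have h1 : IsReduced R₀ := isReduced_of_injective R₀.subtype Subtype.val_injective
  exact D₀.twoStage_of_reduced

/-- the final form for reduced rings: the number of families depends on two radii -/
theorem RingData.families {R : Type u} [CommRing R] [IsReduced R] {G : Type w} [Group G]
    [MetricSpace G] (hinv : ∀ a b c : G, dist (a * b) (a * c) = dist b c)
    (hprop : ∀ r : ℝ, (Metric.closedBall (1 : G) r).Finite) (D : RingData R G) :
    ∃ (N : ℝ → ℕ) (n : ℝ → ℝ → ℕ), ∀ R : ℕ → ℝ, (∀ i, 0 < R i) → Monotone R →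
      Pool.Agent.Helper75.Apc.HasFamilies G R (n (R 0) (R (N (R 0)))) := by
  have hc : Countable G := countable_of_proper hprop
  exact apc_of_twoStage hinv hprop D.twoStage

/-- countable groups acting faithfully on a free module over a commutative ring, such that every
element fixes all but finitely many basis elements -/
theorem apcC_of_free {R : Type u} [CommRing R] {M : Type v} [AddCommGroup M] [Module R M]
    {X : Type x} (b : Module.Basis X R M) {G : Type w} [Group G] [Countable G]
    (f : G →* (M ≃ₗ[R] M)) (hf : Function.Injective f)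
    (hfin : ∀ g, {t | f g (b t) ≠ b t}.Finite) : ApcC G := by
  obtain ⟨D⟩ := ringData_of_free b f hf hfin
  exact D.apcC

/-- the metric form -/
theorem apc_of_apcC {G : Type w} [Group G] [MetricSpace G]
    (hinv : ∀ a b c : G, dist (a * b) (a * c) = dist b c)
    (hprop : ∀ r : ℝ, (Metric.closedBall (1 : G) r).Finite) (h : ApcC G) :
    ∀ R : ℕ → ℝ, (∀ i, 0 < R i) → Monotone R →
      ∃ n, Pool.Agent.Helper75.Apc.HasFamilies G R n :=
  fun R hR hm => apc_of_good hinv hprop h R hR hm

end Pool.Agent.Helper64.TS
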