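import Mathlib

/-!
TR-1. Directed unions of linear groups over a commutative ring.
-/

set_option autoImplicit false

namespace Pool.Agent.Helper64.TS

universe u w

/-- the entries of `g` and the entries of `g⁻¹` -/
def rent {R : Type*} [CommRing R] {n : ℕ} (g : GL (Fin n) R) :
    (Fin n × Fin n) ⊕ (Fin n × Fin n) → R :=
  Sum.elim (fun p => (g : Matrix (Fin n) (Fin n) R) p.1 p.2)
    (fun p => ((g⁻¹ : GL (Fin n) R) : Matrix (Fin n) (Fin n) R) p.1 p.2)

/-- the entries of `σ h` are polynomials in the entries of `ρ h` and `(ρ h)⁻¹` -/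
def RPolyIn {R : Type*} [CommRing R] {H : Type*} [Group H] {n m : ℕ} (ρ : H →* GL (Fin n) R)
    (σ : H →* GL (Fin m) R) : Prop :=
  ∃ P : Fin m → Fin m → MvPolynomial ((Fin n × Fin n) ⊕ (Fin n × Fin n)) R,
    ∀ h a b, (σ h : Matrix (Fin m) (Fin m) R) a b = MvPolynomial.eval (rent (ρ h)) (P a b)

/-- `H ≤ H'`, and on `H` the entries of `ρ' g` are polynomials in the entries of `ρ g` and `(ρ g)⁻¹`,
and the entries of `ρ g` are polynomials in the entries of `ρ' g` and `(ρ' g)⁻¹`. -/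
def RPolyLe {R : Type*} [CommRing R] {G : Type*} [Group G] {H H' : Subgroup G} {n m : ℕ}
    (ρ : H →* GL (Fin n) R) (ρ' : H' →* GL (Fin m) R) : Prop :=
  ∃ h : H ≤ H', RPolyIn ρ (ρ'.comp (Subgroup.inclusion h)) ∧
    RPolyIn (ρ'.comp (Subgroup.inclusion h)) ρ

/-- `G` as a directed union of subgroups which are linear over the commutative ring `R`, with
polynomial transition maps in both directions, for example a subgroup of `GL_n(R)` or of `GL_∞(R)` -/
structure RingData (R : Type u) [CommRing R] (G : Type w) [Group G] where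
  /-- the index set -/
  ι : Type w
  /-- the subgroups -/
  H : ι → Subgroup G
  /-- the degrees -/
  n : ι → ℕ
  /-- the representations -/
  ρ : ∀ i, H i →* GL (Fin (n i)) R
  inj : ∀ i, Function.Injective (ρ i)
  cov : ∀ g, ∃ i, g ∈ H i
  dir : ∀ i j, ∃ k, RPolyLe (ρ i) (ρ k) ∧ RPolyLe (ρ j) (ρ k)

theorem rent_map {R S : Type*} [CommRing R] [CommRing S] (ψ : R →+* S) {n : ℕ} (g : GL (Fin n) R)
    (s : (Fin n × Fin n) ⊕ (Fin n × Fin n)) :
    rent (Matrix.GeneralLinearGroup.map ψ g) s = ψ (rent g s) := by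
  rcases s with ⟨a, b⟩ | ⟨a, b⟩
  · rfl
  · simp only [rent, Sum.elim_inr, ← map_inv]
    rfl

theorem rent_injective {R : Type*} [CommRing R] {n : ℕ} {g h : GL (Fin n) R}
    (hgh : rent g = rent h) : g = h := by
  apply Units.ext
  ext a b
  have := congrFun hgh (Sum.inl (a, b))
  simpa [rent] using this

theorem rent_inv {R : Type*} [CommRing R] {n : ℕ} (g : GL (Fin n) R)
    (s : (Fin n × Fin n) ⊕ (Fin n × Fin n)) : rent g⁻¹ s = rent g s.swap := by
  rcases s with s | s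
  · rfl
  · simp [rent]

/-- relations over `R` give relations over `S` -/
theorem RPolyIn.map {R S : Type*} [CommRing R] [CommRing S] (ψ : R →+* S) {H : Type*} [Group H]
    {n m : ℕ} {ρ : H →* GL (Fin n) R} {σ : H →* GL (Fin m) R} (h : RPolyIn ρ σ) :
    RPolyIn ((Matrix.GeneralLinearGroup.map ψ).comp ρ)
      ((Matrix.GeneralLinearGroup.map ψ).comp σ) := by
  obtain ⟨P, hP⟩ := h
  refine ⟨fun a b => MvPolynomial.map ψ (P a b), fun h a b => ?_⟩
  have h1 : (((Matrix.GeneralLinearGroup.map ψ).comp σ) h : Matrix (Fin m) (Fin m) S) a b =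
      ψ ((σ h : Matrix (Fin m) (Fin m) R) a b) := rfl
  rw [h1, hP]
  have h2 : rent (((Matrix.GeneralLinearGroup.map ψ).comp ρ) h) = fun s => ψ (rent (ρ h) s) :=
    funext fun s => rent_map ψ (ρ h) s
  rw [h2, MvPolynomial.eval_map]
  have h3 := MvPolynomial.eval₂_comp_left ψ (RingHom.id R) (rent (ρ h)) (P a b)
  rw [RingHom.comp_id] at h3
  exact h3

/-- if `ρ h` and `ρ h'` have the same image over `S` then so have `σ h` and `σ h'` -/
theorem RPolyIn.map_eq {R S : Type*} [CommRing R] [CommRing S] (ψ : R →+* S) {H : Type*} [Group H]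
    {n m : ℕ} {ρ : H →* GL (Fin n) R} {σ : H →* GL (Fin m) R} (h : RPolyIn ρ σ) {x y : H}
    (hxy : Matrix.GeneralLinearGroup.map ψ (ρ x) = Matrix.GeneralLinearGroup.map ψ (ρ y)) :
    Matrix.GeneralLinearGroup.map ψ (σ x) = Matrix.GeneralLinearGroup.map ψ (σ y) := by
  obtain ⟨P, hP⟩ := h.map ψ
  apply Units.ext
  ext a b
  have h1 := hP x a b
  have h2 := hP y a b
  have h3 : rent (((Matrix.GeneralLinearGroup.map ψ).comp ρ) x) =
      rent (((Matrix.GeneralLinearGroup.map ψ).comp ρ) y) := by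
    show rent (Matrix.GeneralLinearGroup.map ψ (ρ x)) = rent (Matrix.GeneralLinearGroup.map ψ (ρ y))
    rw [hxy]
  rw [h3] at h1
  exact h1.trans h2.symm

namespace RingData

variable {R : Type u} [CommRing R] {G : Type w} [Group G] (D : RingData R G)

/-- whether `ρ i g` becomes trivial over `S` does not depend on `i` -/
theorem map_eq_one_iff {S : Type*} [CommRing S] (ψ : R →+* S) (i j : D.ι) (g : G)
    (hi : g ∈ D.H i) (hj : g ∈ D.H j) :
    Matrix.GeneralLinearGroup.map ψ (D.ρ i ⟨g, hi⟩) = 1 ↔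
      Matrix.GeneralLinearGroup.map ψ (D.ρ j ⟨g, hj⟩) = 1 := by
  have key : ∀ (i j : D.ι) (hi : g ∈ D.H i) (hj : g ∈ D.H j),
      Matrix.GeneralLinearGroup.map ψ (D.ρ i ⟨g, hi⟩) = 1 →
      Matrix.GeneralLinearGroup.map ψ (D.ρ j ⟨g, hj⟩) = 1 := by
    intro i j hi hj h
    obtain ⟨k, ⟨hik, p1, _⟩, ⟨hjk, _, q2⟩⟩ := D.dir i j
    have h1 := p1.map_eq ψ (x := ⟨g, hi⟩) (y := 1) (by rw [h, map_one, map_one])
    rw [map_one, map_one] at h1
    have h2 := q2.map_eq ψ (x := ⟨g, hj⟩) (y := 1) (by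
      rw [map_one, map_one]
      exact h1)
    rw [map_one, map_one] at h2
    exact h2
  exact ⟨key i j hi hj, key j i hj hi⟩

theorem exists_above (g g' : G) : ∃ i, g ∈ D.H i ∧ g' ∈ D.H i := by
  obtain ⟨i, hi⟩ := D.cov g
  obtain ⟨j, hj⟩ := D.cov g'
  obtain ⟨k, ⟨hik, _⟩, ⟨hjk, _⟩⟩ := D.dir i j
  exact ⟨k, hik hi, hjk hj⟩

/-- the elements which become trivial over `S` -/
def ker {S : Type*} [CommRing S] (ψ : R →+* S) : Subgroup G where
  carrier := {g | ∀ i (hi : g ∈ D.H i), Matrix.GeneralLinearGroup.map ψ (D.ρ i ⟨g, hi⟩) = 1}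
  one_mem' := by
    intro i hi
    have : (⟨1, hi⟩ : D.H i) = 1 := rfl
    rw [this, map_one, map_one]
  mul_mem' := by
    intro g g' hg hg' i hi
    obtain ⟨k, hk, hk'⟩ := D.exists_above g g'
    rw [D.map_eq_one_iff ψ i k _ hi (mul_mem hk hk')]
    have : (⟨g * g', mul_mem hk hk'⟩ : D.H k) = ⟨g, hk⟩ * ⟨g', hk'⟩ := rfl
    rw [this, map_mul, map_mul, hg k hk, hg' k hk', mul_one]
  inv_mem' := by
    intro g hg i hi
    have hi' : g ∈ D.H i := by simpa using inv_mem hi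
    have : (⟨g⁻¹, hi⟩ : D.H i) = (⟨g, hi'⟩ : D.H i)⁻¹ := rfl
    rw [this, map_inv, map_inv, hg i hi', inv_one]

theorem mem_ker {S : Type*} [CommRing S] (ψ : R →+* S) (i : D.ι) (g : G) (hi : g ∈ D.H i) :
    g ∈ D.ker ψ ↔ Matrix.GeneralLinearGroup.map ψ (D.ρ i ⟨g, hi⟩) = 1 := by
  constructor
  · intro h
    exact h i hi
  · intro h j hj
    rw [D.map_eq_one_iff ψ j i g hj hi]
    exact h

instance {S : Type*} [CommRing S] (ψ : R →+* S) : (D.ker ψ).Normal := by
  constructor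
  intro n hn g
  obtain ⟨k, hk, hk'⟩ := D.exists_above n g
  have hm : g * n * g⁻¹ ∈ D.H k := mul_mem (mul_mem hk' hk) (inv_mem hk')
  rw [D.mem_ker ψ k _ hm]
  have : (⟨g * n * g⁻¹, hm⟩ : D.H k) = ⟨g, hk'⟩ * ⟨n, hk⟩ * (⟨g, hk'⟩ : D.H k)⁻¹ := rfl
  rw [this, map_mul, map_mul, map_mul, map_mul, (D.mem_ker ψ k n hk).1 hn, mul_one, map_inv,
    map_inv, mul_inv_cancel]

end RingData

end Pool.Agent.Helper64.TS
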