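import Pool.Agent.Helper65.TH.Basic

/-!
TS-1. Bands (the argument of `Helper65/TH/Bands.lean` with arbitrary sets in place of finite sets).
-/

set_option autoImplicit false

namespace Pool.Agent.Helper64.TS

open Pool.Agent.Helper65.TH

/-- the fattened set `V E` -/
def Fat {G : Type*} [Group G] (V E : Set G) : Set G := {x | ∃ e ∈ E, x * e⁻¹ ∈ V}

/-- the set of the products `a s b⁻¹` with `a, b ∈ E`, `s ∈ S` -/
def Conj {G : Type*} [Group G] (E S : Set G) : Set G :=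
  {z | ∃ a ∈ E, ∃ s ∈ S, ∃ b ∈ E, z = a * s * b⁻¹}

/-- the points of the fattened set `V i E` at which the coordinate `l` of `g` is close to
`i / t` modulo the integers -/
def Band {G : Type*} [Group G] {t N : ℕ} (V : Fin t → Set G) (E : Set G) (g : G → Fin N → ℝ)
    (l : Fin N) : Set G :=
  {x | ∃ i : Fin t, x ∈ Fat (V i) E ∧ ∃ k : ℤ, |g x l - (i : ℝ) / t - k| ≤ 1 / (4 * t)}

/-- two real numbers at distance at most `w`, both at distance more than `w` from the integers, have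
the same floor -/
theorem floor_eq_of {α β w : ℝ} (hw : 0 ≤ w) (hab : |β - α| ≤ w)
    (ha : ∀ k : ℤ, w < |α - k|) (hb : ∀ k : ℤ, w < |β - k|) : ⌊β⌋ = ⌊α⌋ := by
  rcases lt_trichotomy ⌊β⌋ ⌊α⌋ with h | h | h
  · exfalso
    have h1 : β < (⌊α⌋ : ℤ) := by
      rw [← Int.floor_lt]
      exact h
    have h2 : ((⌊α⌋ : ℤ) : ℝ) ≤ α := Int.floor_le α
    have h3 := hb ⌊α⌋
    rw [abs_of_nonpos (by linarith)] at h3
    rw [abs_le] at hab
    have h4 := ha ⌊α⌋
    rw [abs_of_nonneg (by linarith)] at h4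
    linarith [hab.1]
  · exact h
  · exfalso
    have h1 : α < (⌊β⌋ : ℤ) := by
      rw [← Int.floor_lt]
      exact h
    have h2 : ((⌊β⌋ : ℤ) : ℝ) ≤ β := Int.floor_le β
    have h3 := ha ⌊β⌋
    rw [abs_of_nonpos (by linarith)] at h3
    rw [abs_le] at hab
    have h4 := hb ⌊β⌋
    rw [abs_of_nonneg (by linarith)] at h4
    linarith [hab.2]

/-- the bands of different index are separated -/
theorem index_eq {t : ℕ} (ht : 0 < t) (i j : Fin t) (a b : ℝ) (k k' : ℤ)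
    (h1 : |a - (i : ℝ) / t - k| ≤ 1 / (4 * t)) (h2 : |b - (j : ℝ) / t - k'| ≤ 1 / (4 * t))
    (h3 : |b - a| ≤ 1 / (4 * t)) : i = j := by
  have htr : (0 : ℝ) < t := by exact_mod_cast ht
  have e1 : (1 : ℝ) / (4 * t) * t = 1 / 4 := by field_simp
  rw [abs_le] at h1 h2 h3
  have key : |((i : ℝ) - j - (k' - k) * t)| < 1 := by
    have m1 := mul_le_mul_of_nonneg_right h1.1 htr.le
    have m2 := mul_le_mul_of_nonneg_right h1.2 htr.le
    have m3 := mul_le_mul_of_nonneg_right h2.1 htr.le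
    have m4 := mul_le_mul_of_nonneg_right h2.2 htr.le
    have m5 := mul_le_mul_of_nonneg_right h3.1 htr.le
    have m6 := mul_le_mul_of_nonneg_right h3.2 htr.le
    have e2 : (a - (i : ℝ) / t - k) * t = a * t - i - k * t := by field_simp
    have e3 : (b - (j : ℝ) / t - k') * t = b * t - j - k' * t := by field_simp
    rw [neg_mul, e1] at m1 m3 m5
    rw [e1] at m2 m4 m6
    rw [e2] at m1 m2
    rw [e3] at m3 m4
    rw [abs_lt]
    constructor <;> linarith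
  have key2 : |((i : ℤ) - j - (k' - k) * t)| < 1 := by
    have : ((|((i : ℤ) - j - (k' - k) * t)| : ℤ) : ℝ) < ((1 : ℤ) : ℝ) := by
      push_cast
      exact key
    exact_mod_cast this
  rw [Int.abs_lt_one_iff] at key2
  have hi := i.isLt
  have hj := j.isLt
  have hm : (k' - k) = 0 := by
    by_contra hne
    have h5 : (i : ℤ) - j = (k' - k) * t := by linarith
    have h6 : (t : ℤ) ≤ |(k' - k) * t| := by
      rw [abs_mul, abs_of_nonneg (by positivity : (0 : ℤ) ≤ t)]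
      have : 1 ≤ |k' - k| := Int.one_le_abs hne
      nlinarith
    rw [← h5] at h6
    have h7 : |((i : ℤ) - j)| < t := by
      rw [abs_lt]
      constructor <;> omega
    omega
  rw [hm, zero_mul, sub_zero] at key2
  apply Fin.ext
  omega

/-- a chain in a band comes from a chain in one of the sets `V i` -/
theorem band_chain {G : Type*} [Group G] {t N : ℕ} (ht : 0 < t) {V : Fin t → Set G} {E : Set G}
    {g : G → Fin N → ℝ} {S : Set G} (hg : ∀ x, ∀ s ∈ S, Near (g (x * s)) (g x) (1 / (4 * t)))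
    (l : Fin N) {x y : G} (hx : x ∈ Band V E g l) (h : Chain S (fun b => b ∈ Band V E g l) x y) :
    ∃ i, ∃ e ∈ E, ∃ e' ∈ E, x * e⁻¹ ∈ V i ∧
      Chain (Conj E S) (fun b => b ∈ V i) (x * e⁻¹) (y * e'⁻¹) := by
  obtain ⟨i, ⟨e, he, hxV⟩, k, hk⟩ := hx
  refine ⟨i, e, he, ?_⟩
  have hR := h.rec' (R := fun z => (∃ k : ℤ, |g z l - (i : ℝ) / t - k| ≤ 1 / (4 * t)) ∧
      ∃ e' ∈ E, z * e'⁻¹ ∈ V i ∧ Chain (Conj E S) (fun b => b ∈ V i) (x * e⁻¹) (z * e'⁻¹))
    ⟨⟨k, hk⟩, e, he, hxV, Chain.refl _ _ _⟩ (by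
      rintro a b _ ⟨⟨ka, hka⟩, ea, hea, haV, hch⟩ hs ⟨j, ⟨eb, heb, hbV⟩, kb, hkb⟩
      have hd := hg a _ hs l
      rw [mul_inv_cancel_left] at hd
      have hij := index_eq ht i j _ _ ka kb hka hkb hd
      subst hij
      refine ⟨⟨kb, hkb⟩, eb, heb, hbV, hch.step ?_ hbV⟩
      refine ⟨ea, hea, _, hs, eb, heb, ?_⟩
      group)
  obtain ⟨-, e', he', -, hch⟩ := hR
  exact ⟨e', he', hxV, hch⟩

/-- a chain outside of the bands does not change `g` much -/
theorem band_compl {G : Type*} [Group G] {t N : ℕ} {V : Fin t → Set G} {E E₁ S T : Set G}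
    {g : G → Fin N → ℝ} (hg : ∀ x, ∀ s ∈ S, Near (g (x * s)) (g x) (1 / (4 * t))) (hTS : T ⊆ S)
    (Λ : Subgroup G) (hTΛ : ∀ s ∈ T, s ∈ Λ) (C : G → G → Prop) (hC : ∀ x, C x x)
    (hl : ∀ x y, Chain {s | s ∈ S ∧ s ∈ Λ} (fun b => C x b ∧ Near (g b) (g x) 1) x y →
      x⁻¹ * y ∈ E₁)
    (hE : ∀ x a, x⁻¹ * a ∈ E₁ → x⁻¹ * a ∈ Λ → C x a →
      x⁻¹ * a ∈ E ∧ ∀ s ∈ T, x⁻¹ * a * s ∈ E)
    {x y : G} (hxV : ∃ i, x ∈ V i) (hx : ∀ l, x ∉ Band V E g l)
    (h : Chain T (fun b => (∀ l, b ∉ Band V E g l) ∧ C x b) x y) : x⁻¹ * y ∈ E₁ := by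
  obtain ⟨i, hxi⟩ := hxV
  have hR := h.rec' (R := fun b => (∀ l, b ∉ Band V E g l) ∧ C x b ∧
    Chain {s | s ∈ S ∧ s ∈ Λ} (fun b => C x b ∧ Near (g b) (g x) 1) x b ∧
    ∀ l, ⌊g b l - (i : ℝ) / t⌋ = ⌊g x l - (i : ℝ) / t⌋)
    ⟨hx, hC x, Chain.refl _ _ _, fun _ => rfl⟩ (by
      rintro a b _ ⟨haW, haC, hcha, hfa⟩ hs ⟨hbW, hbC⟩
      have hsT : a⁻¹ * b ∈ T := hs
      have hxa : x⁻¹ * a ∈ E₁ := hl x a hcha
      have hxaΛ : x⁻¹ * a ∈ Λ := hcha.mem_subgroup _ (fun s hs => hs.2)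
      obtain ⟨hE1, hE2⟩ := hE x a hxa hxaΛ haC
      have haV : a ∈ Fat (V i) E := by
        refine ⟨x⁻¹ * a, hE1, ?_⟩
        have h1 : a * (x⁻¹ * a)⁻¹ = x := by group
        rw [h1]
        exact hxi
      have hbV : b ∈ Fat (V i) E := by
        refine ⟨x⁻¹ * a * (a⁻¹ * b), hE2 _ hsT, ?_⟩
        have h1 : b * (x⁻¹ * a * (a⁻¹ * b))⁻¹ = x := by group
        rw [h1]
        exact hxi
      have hfl : ∀ l, ⌊g b l - (i : ℝ) / t⌋ = ⌊g x l - (i : ℝ) / t⌋ := by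
        intro l
        rw [← hfa l]
        have hd := hg a _ (hTS hsT) l
        rw [mul_inv_cancel_left] at hd
        refine floor_eq_of (w := 1 / (4 * t)) (by positivity) ?_ ?_ ?_
        · have : g b l - (i : ℝ) / t - (g a l - (i : ℝ) / t) = g b l - g a l := by ring
          rw [this]
          exact hd
        · intro k
          by_contra hcon
          exact haW l ⟨i, haV, k, not_lt.1 hcon⟩
        · intro k
          by_contra hcon
          exact hbW l ⟨i, hbV, k, not_lt.1 hcon⟩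
      refine ⟨hbW, hbC, hcha.step ⟨hTS hsT, hTΛ _ hsT⟩ ⟨hbC, ?_⟩, hfl⟩
      intro l
      have h1 := Int.abs_sub_lt_one_of_floor_eq_floor (hfl l)
      have h2 : g b l - (i : ℝ) / t - (g x l - (i : ℝ) / t) = g b l - g x l := by ring
      rw [h2] at h1
      exact h1.le)
  exact hl x y hR.2.2.1

end Pool.Agent.Helper64.TS
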