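import Pool.Agent.Helper64.TS.Lin

/-!
TS-04. The bounded sets of a directed union of linear groups.

Proof of `bd_at`. Let `B` be bounded by means of the index `i'` and let `P` be finite in `H i` with
`B ⊆ ⟨P⟩` (so `B ⊆ H i`). Choose `k` with `ProperLeA (ρ i) (ρ k)` and `ProperLeA (ρ i') (ρ k)` (`D.dir`). For `u`
non-archimedean: on `B` the entries `ent (ρ i' h)` are bounded, hence the entries `ent (ρ k h)` (they are
polynomials in them: `PolyIn.bddInA`, or `PolyIn.bddIn` of `Helper58/GI/Tower2.lean`), hence `ent (ρ i h)` by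
`BddInA (ρ k restricted) (ρ i)` of `ProperLeA (ρ i) (ρ k)` (`u` is a place: `Or.inl`).
Proof of `born_bd`. `finite`: `exists_ge` for the finite set itself (some index exists by `D.cov 1`), the
values are finitely many. `subset`: clear. `union`, `mul`: indices `i`, `j` and finite sets `S`, `S'`:
`k` above both by `D.dir`, `S ∪ S'` is in `H k`, use the first step of `bd_at` to move the bounds to `k`
(or `bd_at` for the index `k` and `P = S ∪ S'`); for products use that the entries of `g * h` are sums of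
products of entries (`ent (g * h) (Sum.inl (a, b)) = ∑ c, ...`, see the proof of `ent_mul_mem` in
`Helper58/GI/Tower.lean`), so `u` of them is at most `max` of the products (or the sum over `c`; the
triangle inequality is enough: `AbsoluteValue.sum_le`). `inv`: `ent_inv`.
-/

set_option autoImplicit false

namespace Pool.Agent.Helper64.TS

open Pool.Agent.Helper65.TH Pool.Agent.Helper58.GI Pool.Agent.Helper58.AR

universe u w

namespace LinData

variable {K : Type u} [Field K] {G : Type w} [Group G] (D : LinData K G)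

private theorem up {i k : D.ι} (hik : ProperLeA (D.ρ i) (D.ρ k)) {B : Set G}
    (hBi : ∀ z ∈ B, z ∈ D.H i) (u : AbsoluteValue K ℝ) (hu : IsNonarchimedean u)
    (hC : ∃ C : ℝ, ∀ h : D.H i, (h : G) ∈ B → ∀ s, u (ent (D.ρ i h) s) ≤ C) :
    ∃ C : ℝ, ∀ h : D.H k, (h : G) ∈ B → ∀ s, u (ent (D.ρ k h) s) ≤ C := by
  obtain ⟨C, hC⟩ := hC
  obtain ⟨hle, h1, _⟩ := hik
  obtain ⟨C', hC'⟩ := Pool.Agent.Helper58.AR.PolyIn.bddInA h1 u (Or.inl hu) C
  exact ⟨C', fun h hh s => hC' ⟨(h : G), hBi _ hh⟩ (fun s => hC _ hh s) s⟩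

private theorem down {i k : D.ι} (hik : ProperLeA (D.ρ i) (D.ρ k)) {B : Set G}
    (u : AbsoluteValue K ℝ) (hu : IsNonarchimedean u)
    (hC : ∃ C : ℝ, ∀ h : D.H k, (h : G) ∈ B → ∀ s, u (ent (D.ρ k h) s) ≤ C) :
    ∃ C : ℝ, ∀ h : D.H i, (h : G) ∈ B → ∀ s, u (ent (D.ρ i h) s) ≤ C := by
  obtain ⟨C, hC⟩ := hC
  obtain ⟨hle, _, h2⟩ := hik
  obtain ⟨C', hC'⟩ := h2 u (Or.inl hu) C
  exact ⟨C', fun h hh s => hC' h (fun s => hC (Subgroup.inclusion hle h) hh s) s⟩

private theorem cl_le {i : D.ι} {S : Finset G} (hS : ∀ s ∈ S, s ∈ D.H i) :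
    Subgroup.closure (S : Set G) ≤ D.H i :=
  (Subgroup.closure_le (D.H i)).2 hS

theorem bd_at {B : Set G} (hB : D.Bd B) (i : D.ι) (P : Finset G) (hP : ∀ s ∈ P, s ∈ D.H i)
    (hBP : ∀ z ∈ B, z ∈ Subgroup.closure (P : Set G)) (u : AbsoluteValue K ℝ)
    (hu : IsNonarchimedean u) : ∃ C : ℝ, ∀ h : D.H i, (h : G) ∈ B → ∀ s, u (ent (D.ρ i h) s) ≤ C := by
  obtain ⟨j, S, hS, hBS, hC⟩ := hB
  obtain ⟨k, hik, hjk⟩ := D.dir i j
  exact D.down hik u hu (D.up hjk (fun z hz => D.cl_le hS (hBS z hz)) u hu (hC u hu))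

theorem born_bd : Born D.Bd := by
  classical
  refine ⟨?_, ?_, ?_, ?_, ?_⟩
  · intro A hA
    obtain ⟨i₀, _⟩ := D.cov 1
    obtain ⟨i, _, hi⟩ := D.exists_ge i₀ hA.toFinset
    refine ⟨i, hA.toFinset, hi, fun z hz => Subgroup.subset_closure (by simpa using hz), ?_⟩
    intro u _
    have hF : {h : D.H i | (h : G) ∈ A}.Finite :=
      hA.preimage (Subtype.val_injective.injOn)
    obtain ⟨C, hC⟩ := (hF.image fun h => ∑ s, u (ent (D.ρ i h) s)).bddAbove
    refine ⟨C, fun h hh s => ?_⟩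
    have h1 : (∑ s, u (ent (D.ρ i h) s)) ≤ C := hC ⟨h, hh, rfl⟩
    exact (Finset.single_le_sum (f := fun s => u (ent (D.ρ i h) s))
      (fun s _ => apply_nonneg u _) (Finset.mem_univ s)).trans h1
  · rintro A B ⟨i, S, hS, hBS, hC⟩ hAB
    refine ⟨i, S, hS, fun z hz => hBS z (hAB hz), fun u hu => ?_⟩
    obtain ⟨C, hC⟩ := hC u hu
    exact ⟨C, fun h hh s => hC h (hAB hh) s⟩
  · rintro A B ⟨i, S, hS, hAS, hA⟩ ⟨j, S', hS', hBS, hB⟩
    obtain ⟨k, hik, hjk⟩ := D.dir i j
    have hk : ∀ s ∈ S ∪ S', s ∈ D.H k := by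
      intro s hs
      rcases Finset.mem_union.1 hs with hs | hs
      · exact hik.1 (hS s hs)
      · exact hjk.1 (hS' s hs)
    have h1 : Subgroup.closure (S : Set G) ≤ Subgroup.closure ((S ∪ S' : Finset G) : Set G) :=
      Subgroup.closure_mono (by simp)
    have h2 : Subgroup.closure (S' : Set G) ≤ Subgroup.closure ((S ∪ S' : Finset G) : Set G) :=
      Subgroup.closure_mono (by simp)
    refine ⟨k, S ∪ S', hk, ?_, fun u hu => ?_⟩
    · rintro z (hz | hz)
      · exact h1 (hAS z hz)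
      · exact h2 (hBS z hz)
    · obtain ⟨C, hC⟩ := D.up hik (fun z hz => D.cl_le hS (hAS z hz)) u hu (hA u hu)
      obtain ⟨C', hC'⟩ := D.up hjk (fun z hz => D.cl_le hS' (hBS z hz)) u hu (hB u hu)
      refine ⟨max C C', fun h hh s => ?_⟩
      rcases hh with hh | hh
      · exact (hC h hh s).trans (le_max_left _ _)
      · exact (hC' h hh s).trans (le_max_right _ _)
  · rintro A B ⟨i, S, hS, hAS, hA⟩ ⟨j, S', hS', hBS, hB⟩
    obtain ⟨k, hik, hjk⟩ := D.dir i j
    have hk : ∀ s ∈ S ∪ S', s ∈ D.H k := by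
      intro s hs
      rcases Finset.mem_union.1 hs with hs | hs
      · exact hik.1 (hS s hs)
      · exact hjk.1 (hS' s hs)
    have h1 : Subgroup.closure (S : Set G) ≤ Subgroup.closure ((S ∪ S' : Finset G) : Set G) :=
      Subgroup.closure_mono (by simp)
    have h2 : Subgroup.closure (S' : Set G) ≤ Subgroup.closure ((S ∪ S' : Finset G) : Set G) :=
      Subgroup.closure_mono (by simp)
    refine ⟨k, S ∪ S', hk, ?_, fun u hu => ?_⟩
    · rintro z ⟨a, ha, b, hb, rfl⟩
      exact Subgroup.mul_mem _ (h1 (hAS a ha)) (h2 (hBS b hb))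
    · obtain ⟨C, hC⟩ := D.up hik (fun z hz => D.cl_le hS (hAS z hz)) u hu (hA u hu)
      obtain ⟨C', hC'⟩ := D.up hjk (fun z hz => D.cl_le hS' (hBS z hz)) u hu (hB u hu)
      have hm : ∀ x y x' y' : K, u x ≤ C → u x' ≤ C' → u (x * x') ≤ |C| * |C'| := by
        intro x _ x' _ hx hx'
        rw [map_mul]
        exact mul_le_mul (hx.trans (le_abs_self _)) (hx'.trans (le_abs_self _))
          (apply_nonneg u _) (abs_nonneg _)
      refine ⟨∑ _c : Fin (D.n k), |C| * |C'|, ?_⟩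
      rintro ⟨h, hh⟩ ⟨a, ha, b, hb, hab⟩ s
      change h = a * b at hab
      subst hab
      have ha' : a ∈ D.H k := D.cl_le hk (h1 (hAS a ha))
      have hb' : b ∈ D.H k := D.cl_le hk (h2 (hBS b hb))
      have h3 : D.ρ k ⟨a * b, hh⟩ = D.ρ k ⟨a, ha'⟩ * D.ρ k ⟨b, hb'⟩ := by
        rw [← map_mul]; rfl
      rw [h3]
      have hCa := fun s => hC ⟨a, ha'⟩ ha s
      have hCb := fun s => hC' ⟨b, hb'⟩ hb s
      generalize D.ρ k ⟨a, ha'⟩ = g at hCa
      generalize D.ρ k ⟨b, hb'⟩ = g' at hCb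
      rcases s with ⟨x, y⟩ | ⟨x, y⟩
      · have h4 : ent (g * g') (Sum.inl (x, y)) =
            ∑ c, ent g (Sum.inl (x, c)) * ent g' (Sum.inl (c, y)) := by
          simp only [ent, Sum.elim_inl, Units.val_mul, Matrix.mul_apply]
        rw [h4]
        refine (AbsoluteValue.sum_le u _ _).trans (Finset.sum_le_sum fun c _ => ?_)
        exact hm _ 0 _ 0 (hCa _) (hCb _)
      · have h4 : ent (g * g') (Sum.inr (x, y)) =
            ∑ c, ent g (Sum.inr (c, y)) * ent g' (Sum.inr (x, c)) := by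
          simp only [ent, Sum.elim_inr, mul_inv_rev, Units.val_mul, Matrix.mul_apply]
          exact Finset.sum_congr rfl fun c _ => mul_comm _ _
        rw [h4]
        refine (AbsoluteValue.sum_le u _ _).trans (Finset.sum_le_sum fun c _ => ?_)
        exact hm _ 0 _ 0 (hCa _) (hCb _)
  · rintro A ⟨i, S, hS, hAS, hA⟩
    refine ⟨i, S, hS, fun z hz => ?_, fun u hu => ?_⟩
    · have h1 := hAS _ hz
      exact (Subgroup.inv_mem_iff _).1 h1
    · obtain ⟨C, hC⟩ := hA u hu
      refine ⟨C, fun h hh s => ?_⟩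
      have h1 := hC h⁻¹ hh s.swap
      rw [map_inv, ent_inv, Sum.swap_swap] at h1
      exact h1

end LinData

end Pool.Agent.Helper64.TS
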