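import Mathlib

/-!
TS-14. A nonzero complex polynomial does not vanish at all points with algebraically independent
coordinates.

Proof. Let `F₁ = IntermediateField.adjoin ℚ (f.coeff '' support)`, the field generated by the
coefficients of `f`; it is countable (algebraic over / generated by a finite set over the countable field `ℚ`; for
instance `Subfield.closure` of a countable set is countable, or
`IntermediateField`/`Algebra.adjoin` cardinality lemmas: search `Cardinal.mk` `adjoin`; alternatively
take the transcendence basis argument below for `ℚ` and a finite set of exceptions). Let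
`y : κ → ℂ` be a transcendence basis of `ℂ` over `F₁` (`exists_isTranscendenceBasis'`). `κ` is infinite:
otherwise `ℂ` is algebraic over a countable field, hence countable
(`IsAlgClosed.cardinal_eq_cardinal_transcendence_basis_of_aleph0_lt`, file
`Mathlib/FieldTheory/IsAlgClosed/Classification.lean`, gives `#κ = #ℂ` directly). So there is an injection
`Fin s → κ`, and `θ = y ∘ j` is algebraically independent over `F₁`, hence over `ℚ`
(`AlgebraicIndependent.restrictScalars`). `f` is the image of a nonzero `f₁` over `F₁`
(`MvPolynomial` with coefficients in a subfield: e.g. `MvPolynomial.mem_range_map_iff_coeffs_subset` or build it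
from the coefficients), and `MvPolynomial.eval θ f = MvPolynomial.aeval θ f₁ ≠ 0`.
-/

set_option autoImplicit false

namespace Pool.Agent.Helper64.TS

theorem exists_algebraicIndependent_eval_ne {s : ℕ} (f : MvPolynomial (Fin s) ℂ) (hf : f ≠ 0) :
    ∃ θ : Fin s → ℂ, AlgebraicIndependent ℚ θ ∧ MvPolynomial.eval θ f ≠ 0 := by
  classical
  let F : IntermediateField ℚ ℂ := IntermediateField.adjoin ℚ (f.coeffs : Set ℂ)
  have hF : Cardinal.mk F ≤ Cardinal.aleph0 := by
    have h := IntermediateField.cardinalMk_adjoin_le ℚ (f.coeffs : Set ℂ)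
    refine h.trans ?_
    refine max_le (max_le ?_ ?_) le_rfl
    · exact Cardinal.mk_le_aleph0
    · exact Cardinal.mk_le_aleph0
  obtain ⟨κ, y, hy⟩ := exists_isTranscendenceBasis' F ℂ
  have hC : Cardinal.aleph0 < Cardinal.mk ℂ := by
    rw [Cardinal.mk_complex]
    exact Cardinal.aleph0_lt_continuum
  have hκ : Cardinal.mk ℂ = Cardinal.mk κ :=
    IsAlgClosed.cardinal_eq_cardinal_transcendence_basis_of_aleph0_lt' y hy hF hC
  have hinf : Infinite κ := by
    rw [Cardinal.infinite_iff, ← hκ]
    exact hC.le
  let j : Fin s ↪ κ := (Fin.valEmbedding).trans (Infinite.natEmbedding κ)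
  have hθ : AlgebraicIndependent F (y ∘ j) := hy.1.comp j j.injective
  obtain ⟨f₁, hf₁⟩ : f ∈ Set.range (MvPolynomial.map (σ := Fin s) (algebraMap F ℂ)) := by
    rw [MvPolynomial.mem_range_map_iff_coeffs_subset]
    intro c hc
    exact ⟨⟨c, IntermediateField.subset_adjoin ℚ _ hc⟩, rfl⟩
  refine ⟨y ∘ j, ?_, ?_⟩
  · exact AlgebraicIndependent.restrictScalars (K := F) (algebraMap ℚ F).injective hθ
  · intro h0
    have h1 : MvPolynomial.aeval (y ∘ j) f₁ = 0 := by
      rw [← hf₁, MvPolynomial.eval_map] at h0
      rw [MvPolynomial.aeval_def]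
      exact h0
    have h2 : f₁ = 0 := hθ.eq_zero_of_aeval_eq_zero f₁ h1
    apply hf
    rw [← hf₁, h2, map_zero]

end Pool.Agent.Helper64.TS
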