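import Mathlib

/-!
TS-13. Embeddings of countable fields into `ℂ` extend to fields of cardinality at most the continuum.

Proof. Make `ℂ` an `E`-algebra by `σ.toAlgebra`. `exists_isTranscendenceBasis' E K` gives `ι`, `x : ι → K`, and
`exists_isTranscendenceBasis' E ℂ` gives `κ`, `y : κ → ℂ`. As `E` is countable and `ℂ` is algebraically closed
and uncountable, `#κ = #ℂ = continuum`: see
`IsAlgClosed.cardinal_eq_cardinal_transcendence_basis_of_aleph0_lt` (and the primed version) in
`Mathlib/FieldTheory/IsAlgClosed/Classification.lean`. And `#ι ≤ #K ≤ continuum` (`x` is injective: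
`AlgebraicIndependent.injective`). So there is an injection `j : ι → κ` (`Cardinal.lift_mk_le'`), and
`y ∘ j` is algebraically independent over `E` (`AlgebraicIndependent.comp`). The map
`X i ↦ y (j i)` gives an `E`-algebra isomorphism from `Algebra.adjoin E (range x)` (or
`IntermediateField.adjoin E (range x)`, by `AlgebraicIndependent.aevalEquivField`) to the corresponding
algebra in `ℂ`; see `exists_abv_extension` in `Pool/Agent/Helper61/AQ/Ext.lean` for the use of
`aevalEquivField`. `K` is algebraic over `IntermediateField.adjoin E (range x)`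
(`IsTranscendenceBasis.isAlgebraic_field`), so the embedding extends to `K` by `IsAlgClosed.lift`.
-/

set_option autoImplicit false

namespace Pool.Agent.Helper64.TS

universe u v

theorem exists_embedding_extension {E : Type u} {K : Type v} [Field E] [Field K] [Algebra E K]
    (hE : Countable E) (hK : Cardinal.mk K ≤ Cardinal.continuum) (σ : E →+* ℂ) :
    ∃ τ : K →+* ℂ, ∀ a, τ (algebraMap E K a) = σ a := by
  classical
  let _ : Algebra E ℂ := σ.toAlgebra
  obtain ⟨ι, x, hx⟩ := exists_isTranscendenceBasis' E K
  obtain ⟨κ, y, hy⟩ := exists_isTranscendenceBasis' E ℂ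
  have h1 := IsAlgClosed.cardinal_eq_cardinal_transcendence_basis_of_aleph0_lt y hy
    (Cardinal.mk_le_aleph0_iff.2 hE) (by rw [Cardinal.mk_complex]; exact Cardinal.aleph0_lt_continuum)
  have h2 : Cardinal.lift.{0} (Cardinal.mk ι) ≤ Cardinal.lift.{v} (Cardinal.mk κ) := by
    have h3 : Cardinal.mk ι ≤ Cardinal.mk K := Cardinal.mk_le_of_injective hx.1.injective
    have h4 : Cardinal.mk κ = Cardinal.continuum := by
      rw [Cardinal.lift_id, Cardinal.lift_id, Cardinal.mk_complex] at h1
      exact h1.symm
    rw [h4, Cardinal.lift_continuum, Cardinal.lift_uzero]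
    exact h3.trans hK
  obtain ⟨j⟩ := Cardinal.lift_mk_le'.1 h2
  have hyj : AlgebraicIndependent E (y ∘ j) := hy.1.comp j j.injective
  let g : FractionRing (MvPolynomial ι E) →ₐ[E] ℂ :=
    IsFractionRing.liftAlgHom (g := MvPolynomial.aeval (y ∘ j)) hyj
  let e := hx.1.aevalEquivField
  let f : IntermediateField.adjoin E (Set.range x) →ₐ[E] ℂ := g.comp e.symm.toAlgHom
  have := hx.isAlgebraic_field
  let _ : Algebra (IntermediateField.adjoin E (Set.range x)) ℂ := f.toRingHom.toAlgebra
  let τ : K →ₐ[IntermediateField.adjoin E (Set.range x)] ℂ := IsAlgClosed.lift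
  refine ⟨τ.toRingHom, fun a => ?_⟩
  have h4 : algebraMap E K a = algebraMap (IntermediateField.adjoin E (Set.range x)) K
      (algebraMap E _ a) := rfl
  rw [h4]
  have h5 := τ.commutes (algebraMap E (IntermediateField.adjoin E (Set.range x)) a)
  exact h5.trans (f.commutes a)

end Pool.Agent.Helper64.TS
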