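import Pool.Agent.Helper61.AQ.Base
import Pool.Agent.Helper65.TH.Defs

/-!
TS-12. Finitely many non-archimedean absolute values on the field of rational functions over the integers:
the degree and the multiplicities of the prime factors of `N`.

Proof. Copy of `exists_places_ufd` (file `Helper61/AQ/Base.lean`) for `A = MvPolynomial (Fin s) ℤ` and
`deg = MvPolynomial.totalDegree` (`MvPolynomial.totalDegree_mul_of_isDomain`, `totalDegree_add`); there the
finiteness `hdegfin` is only used at the end: the proof shows that with `2 ^ b > B` every `c` is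
`a' / N ^ b` with `deg a' ≤ b + b * deg N`. Take `D = b + b * N.totalDegree`.
Lean proof of this module: helper91 (after helper61's file; joint project of helper64 and helper58).
(`IsNonarchimedean u` is `∀ x y, u (x + y) ≤ max (u x) (u y)` for the function `u`.)
-/

set_option autoImplicit false

namespace Pool.Agent.Helper64.TS

open Pool.Agent.Helper61.Apc

private theorem places_aux {A L : Type*} [CommRing A] [IsDomain A] [UniqueFactorizationMonoid A]
    [Field L] [Algebra A L] [IsFractionRing A L] (deg : A → ℕ)
    (hdegmul : ∀ f g : A, f ≠ 0 → g ≠ 0 → deg (f * g) = deg f + deg g)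
    (hdegadd : ∀ f g : A, deg (f + g) ≤ max (deg f) (deg g))
    (hdeg0 : deg 0 = 0)
    (N : A) (hN : N ≠ 0) :
    ∃ (m : ℕ) (u : Fin m → AbsoluteValue L ℝ), (∀ i x y, u i (x + y) ≤ max (u i x) (u i y)) ∧
      ∀ B : ℝ, ∃ b D : ℕ, ∀ c : L, (∃ (j : ℕ) (a : A),
        c * algebraMap A L N ^ j = algebraMap A L a) → (∀ i, u i c ≤ B) →
        ∃ a' : A, deg a' ≤ D ∧ c * algebraMap A L N ^ b = algebraMap A L a' := by
  classical
  -- the degree
  obtain ⟨w₀, hw₀, hdeg⟩ := exists_abv_of_int (A := A) (fun f => (deg f : ℤ))
    (by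
      intro f g hf hg
      rw [hdegmul f g hf hg]
      push_cast
      ring)
    (by
      intro f g _ _ _
      exact_mod_cast hdegadd f g)
  obtain ⟨u₀, hu₀, hext₀⟩ := exists_abv_fractionField (K := L) w₀ hw₀
  -- the primes
  have hprime : ∀ q : {q // q ∈ (UniqueFactorizationMonoid.factors N).toFinset}, Prime (q : A) :=
    fun q => UniqueFactorizationMonoid.prime_of_factor _ (Multiset.mem_toFinset.1 q.2)
  have hpl : ∀ q : {q // q ∈ (UniqueFactorizationMonoid.factors N).toFinset},
      ∃ u : AbsoluteValue L ℝ, (∀ x y, u (x + y) ≤ max (u x) (u y)) ∧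
        ∀ f : A, f ≠ 0 → u (algebraMap A L f) = (2 : ℝ) ^ (-(multiplicity (q : A) f : ℤ)) := by
    intro q
    have hfin : ∀ f : A, f ≠ 0 → FiniteMultiplicity (q : A) f := fun f hf =>
      FiniteMultiplicity.of_prime_left (hprime q) hf
    obtain ⟨w, hw, hwf⟩ := exists_abv_of_int (A := A) (fun f => -(multiplicity (q : A) f : ℤ))
      (by
        intro f g hf hg
        rw [multiplicity_mul (hprime q) (hfin _ (mul_ne_zero hf hg))]
        push_cast
        ring)
      (by
        intro f g hf hg hfg
        have h1 := min_le_emultiplicity_add (p := (q : A)) (a := f) (b := g)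
        rw [(hfin f hf).emultiplicity_eq_multiplicity, (hfin g hg).emultiplicity_eq_multiplicity,
          (hfin _ hfg).emultiplicity_eq_multiplicity] at h1
        rcases min_le_iff.1 h1 with h2 | h2
        · rw [Nat.cast_le] at h2
          omega
        · rw [Nat.cast_le] at h2
          omega)
    obtain ⟨u, hu, hext⟩ := exists_abv_fractionField (K := L) w hw
    exact ⟨u, hu, fun f hf => by rw [hext, hwf f hf]⟩
  choose uq huq hextq using hpl
  set ι := Option {q // q ∈ (UniqueFactorizationMonoid.factors N).toFinset} with hι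
  let U : ι → AbsoluteValue L ℝ := fun i => match i with
    | none => u₀
    | some q => uq q
  have e := Fintype.equivFin ι
  refine ⟨Fintype.card ι, fun i => U (e.symm i), ?_, ?_⟩
  · intro i x y
    show U (e.symm i) (x + y) ≤ max (U (e.symm i) x) (U (e.symm i) y)
    rcases e.symm i with _ | q
    · exact hu₀ x y
    · exact huq q x y
  · intro B
    obtain ⟨b, hb⟩ := pow_unbounded_of_one_lt B (by norm_num : (1 : ℝ) < 2)
    have hNL : algebraMap A L N ≠ 0 := by
      rw [ne_eq, IsFractionRing.to_map_eq_zero_iff]
      exact hN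
    refine ⟨b, b + b * deg N, ?_⟩
    rintro c ⟨j, a, hja⟩ hc
    have hU : ∀ i : ι, U i c ≤ B := by
      intro i
      have := hc (e i)
      simpa using this
    by_cases ha : a = 0
    · refine ⟨0, by rw [hdeg0]; exact Nat.zero_le _, ?_⟩
      have : c = 0 := by
        rw [ha, map_zero] at hja
        rcases mul_eq_zero.1 hja with h | h
        · exact h
        · exact absurd h (pow_ne_zero _ hNL)
      rw [this, map_zero, zero_mul]
    have hdvd : N ^ j ∣ a * N ^ b := by
      rw [UniqueFactorizationMonoid.dvd_iff_emultiplicity_le (pow_ne_zero _ hN)]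
      intro p hp
      by_cases hpN : p ∣ N
      · obtain ⟨q, hq, hpq⟩ := UniqueFactorizationMonoid.exists_mem_factors_of_dvd hN
          hp.irreducible hpN
        have hqP : q ∈ (UniqueFactorizationMonoid.factors N).toFinset :=
          Multiset.mem_toFinset.2 hq
        have hq' := hprime ⟨q, hqP⟩
        have hfin' : ∀ f : A, f ≠ 0 → FiniteMultiplicity q f := fun f hf =>
          FiniteMultiplicity.of_prime_left hq' hf
        rw [emultiplicity_eq_of_associated_left hpq.symm,
          emultiplicity_eq_of_associated_left hpq.symm,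
          (hfin' _ (pow_ne_zero _ hN)).emultiplicity_eq_multiplicity,
          (hfin' _ (mul_ne_zero ha (pow_ne_zero _ hN))).emultiplicity_eq_multiplicity]
        have h1 := hextq ⟨q, hqP⟩ a ha
        have h2 := hextq ⟨q, hqP⟩ N hN
        have h3 := hU (some ⟨q, hqP⟩)
        have h4 : uq ⟨q, hqP⟩ c * uq ⟨q, hqP⟩ (algebraMap A L N) ^ j =
            uq ⟨q, hqP⟩ (algebraMap A L a) := by
          rw [← map_pow, ← map_mul, hja]
        have h5 : uq ⟨q, hqP⟩ c ≤ 2 ^ b := h3.trans hb.le
        rw [h1, h2] at h4
        have h6 : (2 : ℝ) ^ (-(multiplicity q a : ℤ)) ≤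
            (2 : ℝ) ^ ((b : ℤ) - j * multiplicity q N) := by
          rw [← h4, ← zpow_natCast ((2 : ℝ) ^ (-(multiplicity q N : ℤ))) j, ← zpow_mul,
            sub_eq_add_neg, zpow_add₀ (by norm_num)]
          refine mul_le_mul (by exact_mod_cast h5) (le_of_eq ?_) (by positivity) (by positivity)
          congr 1
          ring
        rw [zpow_le_zpow_iff_right₀ (by norm_num)] at h6
        have h7 : 1 ≤ multiplicity q N := by
          apply FiniteMultiplicity.le_multiplicity_of_pow_dvd (hfin' _ hN)
          rw [pow_one]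
          exact UniqueFactorizationMonoid.dvd_of_mem_factors hq
        have h8 : multiplicity q (N ^ j) = j * multiplicity q N :=
          FiniteMultiplicity.multiplicity_pow hq' (hfin' _ hN)
        have h9 : multiplicity q (a * N ^ b) = multiplicity q a + b * multiplicity q N := by
          rw [multiplicity_mul hq' (hfin' _ (mul_ne_zero ha (pow_ne_zero _ hN))),
            FiniteMultiplicity.multiplicity_pow hq' (hfin' _ hN)]
        rw [h8, h9]
        have h10 : j * multiplicity q N ≤ multiplicity q a + b := by
          zify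
          linarith
        have h11 : b ≤ b * multiplicity q N := Nat.le_mul_of_pos_right b h7
        exact_mod_cast h10.trans (by omega)
      · have : emultiplicity p (N ^ j) = 0 := by
          rw [emultiplicity_eq_zero]
          intro h
          exact hpN (hp.dvd_of_dvd_pow h)
        rw [this]
        exact zero_le
    obtain ⟨a', ha'⟩ := hdvd
    have ha'0 : a' ≠ 0 := by
      rintro rfl
      rw [mul_zero] at ha'
      exact (mul_ne_zero ha (pow_ne_zero _ hN)) ha'
    have hca' : c * algebraMap A L N ^ b = algebraMap A L a' := by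
      have h1 : c * algebraMap A L N ^ b * algebraMap A L N ^ j =
          algebraMap A L a' * algebraMap A L N ^ j := by
        rw [mul_right_comm, hja, ← map_pow, ← map_pow, ← map_mul, ← map_mul, ha', mul_comm a']
      exact mul_right_cancel₀ (pow_ne_zero _ hNL) h1
    refine ⟨a', ?_, hca'⟩
    · have h3 := hU none
      have h5 : u₀ c ≤ 2 ^ b := h3.trans hb.le
      have h4 : u₀ c * u₀ (algebraMap A L N) ^ b = u₀ (algebraMap A L a') := by
        rw [← map_pow, ← map_mul, hca']
      rw [hext₀, hext₀, hdeg N hN, hdeg a' ha'0] at h4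
      have h6 : (2 : ℝ) ^ (deg a' : ℤ) ≤ (2 : ℝ) ^ ((b : ℤ) + deg N * b) := by
        rw [← h4, ← zpow_natCast ((2 : ℝ) ^ (deg N : ℤ)) b, ← zpow_mul,
          zpow_add₀ (by norm_num)]
        exact mul_le_mul_of_nonneg_right (by exact_mod_cast h5) (by positivity)
      rw [zpow_le_zpow_iff_right₀ (by norm_num)] at h6
      have h7 : deg a' ≤ b + deg N * b := by exact_mod_cast h6
      rw [mul_comm b]
      exact h7

theorem exists_places_int (s : ℕ) {L : Type*} [Field L] [Algebra (MvPolynomial (Fin s) ℤ) L]
    [IsFractionRing (MvPolynomial (Fin s) ℤ) L] (N : MvPolynomial (Fin s) ℤ) (hN : N ≠ 0) :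
    ∃ (m : ℕ) (u : Fin m → AbsoluteValue L ℝ), (∀ i, IsNonarchimedean (u i)) ∧
      ∀ B : ℝ, ∃ b D : ℕ, ∀ c : L,
        (∃ (j : ℕ) (a : MvPolynomial (Fin s) ℤ),
          c * algebraMap (MvPolynomial (Fin s) ℤ) L N ^ j =
            algebraMap (MvPolynomial (Fin s) ℤ) L a) →
        (∀ i, u i c ≤ B) →
        ∃ a' : MvPolynomial (Fin s) ℤ, a'.totalDegree ≤ D ∧
          c * algebraMap (MvPolynomial (Fin s) ℤ) L N ^ b =
            algebraMap (MvPolynomial (Fin s) ℤ) L a' := by
  obtain ⟨m, u, hu, h⟩ := places_aux (A := MvPolynomial (Fin s) ℤ) (L := L)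
    (fun f => f.totalDegree)
    (fun _ _ hf hg => MvPolynomial.totalDegree_mul_of_isDomain hf hg)
    (fun f g => MvPolynomial.totalDegree_add f g) MvPolynomial.totalDegree_zero N hN
  exact ⟨m, u, hu, h⟩

end Pool.Agent.Helper64.TS
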