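import Pool.Agent.Helper64.TS.Lin
import Pool.Agent.Helper58.GI.Units

/-!
TS-10. Directed unions of linear groups with polynomial transition maps, and groups of units of locally
finite-dimensional algebras.

Proof of `polyUnion_units`. `ι = {B : Subalgebra K A // Module.Finite K B}`,
`H B = {x | (x : A) ∈ B ∧ ((x⁻¹ : Aˣ) : A) ∈ B}`, `n B = Module.finrank K B`,
`ρ B x = Algebra.leftMulMatrix (Module.finBasis K B) x` (as a homomorphism to `GL`, see `ψ`, `φ` in the proof of
`polyOver_units` in `Helper58/GI/Units.lean`, or of `polyOverA_units` in `Helper58/AR/UnitsA.lean`). `cov` and `dir`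
from `hA` (for `B`, `B'` take a finite-dimensional `B''` containing a basis of both; it contains `B` and
`B'`). `ρ B` is injective, so the kernel condition is trivial. `PolyLe (ρ B) (ρ B'')` for `B ≤ B''`: the entries
of `ρ B'' x` are linear combinations of the coordinates of `x` in the basis of `B`, which are linear
combinations of the entries of `ρ B x` (`Algebra.leftMulMatrix_mulVec_repr` for `1 ∈ B`); conversely the entries of
`ρ B x` are linear combinations of the coordinates of `x` in the basis of `B''` (a linear projection `B'' → B`), which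
are linear combinations of the entries of `ρ B'' x`. Both computations are in the last part of the proof of
`polyOverA_units`. The variables of the polynomials are `Sum.inl (a, b)` (the entries of the matrix).
`of_injective`: `H i` is replaced by its preimage under `f`, `ρ i` by the composition (the subgroups of `G`:
`(H i).comap f`), the kernel condition: `f` is injective (image of the closure is the closure of the
image); `PolyLe` by restriction (`PolyIn.comap`).
`linData`: `PolyLe.properLeA` in `Helper58/AR/TowerA.lean`.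
-/

set_option autoImplicit false

namespace Pool.Agent.Helper64.TS

open Pool.Agent.Helper65.TH Pool.Agent.Helper58.GI Pool.Agent.Helper58.AR

universe u w

/-- `G` is a directed union of linear groups over `K` with polynomial transition maps and locally finite
kernels -/
def PolyUnion (K : Type u) [Field K] (G : Type w) [Group G] : Prop :=
  ∃ (ι : Type w) (H : ι → Subgroup G) (n : ι → ℕ) (ρ : ∀ i, H i →* GL (Fin (n i)) K),
    (∀ g, ∃ i, g ∈ H i) ∧
    (∀ i (T : Finset G), (∀ t ∈ T, t ∈ H i) →
      {h : H i | (h : G) ∈ Subgroup.closure (T : Set G) ∧ ρ i h = 1}.Finite) ∧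
    ∀ i j, ∃ k, PolyLe (ρ i) (ρ k) ∧ PolyLe (ρ j) (ρ k)

/-- linear functions of the entries are polynomials -/
private theorem polyIn_of_linear {K : Type*} [Field K] {H : Type*} [Group H] {n m : ℕ}
    (ρ : H →* GL (Fin n) K) (σ : H →* GL (Fin m) K) {V : Type*} [AddCommGroup V] [Module K V]
    (x : H → V) (L₁ : V →ₗ[K] Matrix (Fin n) (Fin n) K) (L₂ : V →ₗ[K] Matrix (Fin m) (Fin m) K)
    (hL : Function.Injective L₁)
    (hρ : ∀ h, (ρ h : Matrix (Fin n) (Fin n) K) = L₁ (x h))
    (hσ : ∀ h, (σ h : Matrix (Fin m) (Fin m) K) = L₂ (x h)) : PolyIn ρ σ := by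
  classical
  obtain ⟨g, hg⟩ := LinearMap.exists_leftInverse_of_injective L₁ (LinearMap.ker_eq_bot.2 hL)
  refine ⟨fun a b => ∑ i, ∑ j, MvPolynomial.X (Sum.inl (i, j)) *
    MvPolynomial.C ((L₂ (g (Matrix.single i j (1 : K)))) a b), fun h a b => ?_⟩
  have h1 : x h = g (L₁ (x h)) := (LinearMap.congr_fun hg (x h)).symm
  rw [hσ, h1, ← hρ]
  have h2 := Matrix.matrix_eq_sum_single (ρ h : Matrix (Fin n) (Fin n) K)
  have h3 : g (ρ h : Matrix (Fin n) (Fin n) K) =
      ∑ i, ∑ j, (ρ h : Matrix (Fin n) (Fin n) K) i j • g (Matrix.single i j (1 : K)) := by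
    conv_lhs => rw [h2]
    rw [map_sum]
    refine Finset.sum_congr rfl fun i _ => ?_
    rw [map_sum]
    refine Finset.sum_congr rfl fun j _ => ?_
    rw [← map_smul, Matrix.smul_single, smul_eq_mul, mul_one]
  rw [h3, map_sum, Matrix.sum_apply, map_sum]
  refine Finset.sum_congr rfl fun i _ => ?_
  rw [map_sum, Matrix.sum_apply, map_sum]
  refine Finset.sum_congr rfl fun j _ => ?_
  rw [map_smul, Matrix.smul_apply, smul_eq_mul, MvPolynomial.eval_mul, MvPolynomial.eval_X,
    MvPolynomial.eval_C]
  rfl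

/-- the units of a subalgebra -/
private def unitsIn {K : Type u} [Field K] {A : Type w} [Ring A] [Algebra K A]
    (B : Subalgebra K A) : Subgroup Aˣ where
  carrier := {x | (x : A) ∈ B ∧ ((x⁻¹ : Aˣ) : A) ∈ B}
  one_mem' := by
    refine ⟨?_, ?_⟩
    · rw [Units.val_one]
      exact B.one_mem
    · rw [inv_one, Units.val_one]
      exact B.one_mem
  mul_mem' := by
    rintro x y hx hy
    refine ⟨?_, ?_⟩
    · rw [Units.val_mul]
      exact B.mul_mem hx.1 hy.1
    · rw [mul_inv_rev, Units.val_mul]
      exact B.mul_mem hy.2 hx.2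
  inv_mem' := by
    rintro x hx
    refine ⟨hx.2, ?_⟩
    rw [inv_inv]
    exact hx.1

/-- the units of a subalgebra as units -/
private def toUnitsIn {K : Type u} [Field K] {A : Type w} [Ring A] [Algebra K A]
    (B : Subalgebra K A) : unitsIn B →* Bˣ where
  toFun h := ⟨⟨((h : Aˣ) : A), h.2.1⟩, ⟨(((h : Aˣ)⁻¹ : Aˣ) : A), h.2.2⟩,
    Subtype.ext (Units.mul_inv (h : Aˣ)), Subtype.ext (Units.inv_mul (h : Aˣ))⟩
  map_one' := Units.ext (Subtype.ext rfl)
  map_mul' := fun _ _ => Units.ext (Subtype.ext rfl)

/-- the regular representation -/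
private noncomputable def repOf {K : Type u} [Field K] {A : Type w} [Ring A] [Algebra K A]
    (B : Subalgebra K A) {d : ℕ} (e : Module.Basis (Fin d) K B) : unitsIn B →* GL (Fin d) K :=
  (Units.map ((Algebra.leftMulMatrix e : B →ₐ[K] Matrix (Fin d) (Fin d) K) :
    B →* Matrix (Fin d) (Fin d) K)).comp (toUnitsIn B)

private theorem repOf_apply {K : Type u} [Field K] {A : Type w} [Ring A] [Algebra K A]
    (B : Subalgebra K A) {d : ℕ} (e : Module.Basis (Fin d) K B) (h : unitsIn B) :
    (repOf B e h : Matrix (Fin d) (Fin d) K) =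
      Algebra.leftMulMatrix e ⟨((h : Aˣ) : A), h.2.1⟩ := rfl

private theorem repOf_injective {K : Type u} [Field K] {A : Type w} [Ring A] [Algebra K A]
    (B : Subalgebra K A) {d : ℕ} (e : Module.Basis (Fin d) K B) :
    Function.Injective (repOf B e) := by
  intro x y hxy
  have h1 : (repOf B e x : Matrix (Fin d) (Fin d) K) = repOf B e y := by rw [hxy]
  rw [repOf_apply, repOf_apply] at h1
  have h2 := Algebra.leftMulMatrix_injective e h1
  exact Subtype.ext (Units.ext (congrArg Subtype.val h2))

private theorem unitsIn_mono {K : Type u} [Field K] {A : Type w} [Ring A] [Algebra K A]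
    {B B' : Subalgebra K A} (h : B ≤ B') : unitsIn B ≤ unitsIn B' :=
  fun _ hx => ⟨h hx.1, h hx.2⟩

private theorem polyLe_repOf {K : Type u} [Field K] {A : Type w} [Ring A] [Algebra K A]
    {B B' : Subalgebra K A} (h : B ≤ B') {d d' : ℕ} (e : Module.Basis (Fin d) K B)
    (e' : Module.Basis (Fin d') K B') : PolyLe (repOf B e) (repOf B' e') := by
  have h1 : Function.Injective (Algebra.leftMulMatrix e).toLinearMap :=
    Algebra.leftMulMatrix_injective e
  have h2 : Function.Injective ((Algebra.leftMulMatrix e').toLinearMap ∘ₗ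
      (Subalgebra.inclusion h).toLinearMap) :=
    (Algebra.leftMulMatrix_injective e').comp (Subalgebra.inclusion_injective h)
  refine ⟨unitsIn_mono h, ?_, ?_⟩
  · exact polyIn_of_linear _ _ (fun g : unitsIn B => (⟨((g : Aˣ) : A), g.2.1⟩ : B))
      (Algebra.leftMulMatrix e).toLinearMap ((Algebra.leftMulMatrix e').toLinearMap ∘ₗ
        (Subalgebra.inclusion h).toLinearMap) h1 (fun _ => rfl) (fun _ => rfl)
  · exact polyIn_of_linear _ _ (fun g : unitsIn B => (⟨((g : Aˣ) : A), g.2.1⟩ : B))
      ((Algebra.leftMulMatrix e').toLinearMap ∘ₗ (Subalgebra.inclusion h).toLinearMap)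
      (Algebra.leftMulMatrix e).toLinearMap h2 (fun _ => rfl) (fun _ => rfl)

/-- a subalgebra with a basis in `B'` -/
private theorem le_of_basis {K : Type u} [Field K] {A : Type w} [Ring A] [Algebra K A]
    {B B' : Subalgebra K A} {d : ℕ} (e : Module.Basis (Fin d) K B)
    (h : ∀ i, (e i : A) ∈ B') : B ≤ B' := by
  intro a ha
  have h1 := e.sum_repr ⟨a, ha⟩
  have h2 : a = ∑ i, e.repr ⟨a, ha⟩ i • (e i : A) := by
    have h3 : ((⟨a, ha⟩ : B) : A) = ∑ i, e.repr ⟨a, ha⟩ i • (e i : A) := by
      conv_lhs => rw [← h1]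
      rw [AddSubmonoidClass.coe_finsetSum]
      rfl
    exact h3
  rw [h2]
  exact Subalgebra.sum_mem _ fun i _ => Subalgebra.smul_mem _ (h i) _

theorem polyUnion_units {K : Type u} [Field K] {A : Type w} [Ring A] [Algebra K A]
    (hA : LocFinDim K A) : PolyUnion K Aˣ := by
  classical
  refine ⟨{B : Subalgebra K A // Module.Finite K B}, fun B => unitsIn B.1,
    fun B => Module.finrank K B.1,
    fun B => haveI := B.2; repOf B.1 (Module.finBasis K B.1), ?_, ?_, ?_⟩
  · intro g
    obtain ⟨B, hB, hmem⟩ := hA {(g : A), ((g⁻¹ : Aˣ) : A)}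
    exact ⟨⟨B, hB⟩, hmem _ (by simp), hmem _ (by simp)⟩
  · intro B T _
    have := B.2
    refine (Set.finite_singleton (1 : unitsIn B.1)).subset ?_
    rintro h ⟨_, hh⟩
    exact repOf_injective B.1 (Module.finBasis K B.1) (by rw [hh, map_one])
  · intro B B'
    have := B.2
    have := B'.2
    obtain ⟨C, hC, hmem⟩ := hA
      ((Finset.univ.image fun i => ((Module.finBasis K B.1) i : A)) ∪
        (Finset.univ.image fun i => ((Module.finBasis K B'.1) i : A)))
    refine ⟨⟨C, hC⟩, polyLe_repOf (le_of_basis (Module.finBasis K B.1) fun i => ?_) _ _,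
      polyLe_repOf (le_of_basis (Module.finBasis K B'.1) fun i => ?_) _ _⟩
    · exact hmem _ (Finset.mem_union_left _ (Finset.mem_image.2 ⟨i, Finset.mem_univ _, rfl⟩))
    · exact hmem _ (Finset.mem_union_right _ (Finset.mem_image.2 ⟨i, Finset.mem_univ _, rfl⟩))

theorem PolyUnion.of_injective {K : Type u} [Field K] {G G' : Type w} [Group G] [Group G']
    (h : PolyUnion K G') (f : G →* G') (hf : Function.Injective f) : PolyUnion K G := by
  classical
  obtain ⟨ι, H, n, ρ, hcov, hker, hdir⟩ := h
  refine ⟨ι, fun i => (H i).comap f, n, fun i => (ρ i).comp (f.subgroupComap (H i)), ?_, ?_, ?_⟩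
  · intro g
    obtain ⟨i, hi⟩ := hcov (f g)
    exact ⟨i, hi⟩
  · intro i T hT
    have h1 := hker i (T.image f) (by
      intro t ht
      obtain ⟨s, hs, rfl⟩ := Finset.mem_image.1 ht
      exact hT s hs)
    have h2 : Function.Injective (f.subgroupComap (H i)) := by
      intro x y hxy
      exact Subtype.ext (hf (congrArg Subtype.val hxy))
    refine (h1.preimage h2.injOn).subset ?_
    rintro x ⟨hx, hx'⟩
    refine ⟨?_, hx'⟩
    have h3 : f (x : G) ∈ (Subgroup.closure (T : Set G)).map f := ⟨_, hx, rfl⟩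
    rw [MonoidHom.map_closure] at h3
    rw [Finset.coe_image]
    exact h3
  · intro i j
    obtain ⟨k, ⟨hi, a, b⟩, ⟨hj, c, d⟩⟩ := hdir i j
    exact ⟨k, ⟨Subgroup.comap_mono hi, a.comap (f.subgroupComap (H i)),
      b.comap (f.subgroupComap (H i))⟩, ⟨Subgroup.comap_mono hj,
      c.comap (f.subgroupComap (H j)), d.comap (f.subgroupComap (H j))⟩⟩

theorem PolyUnion.linData {K : Type u} [Field K] {G : Type w} [Group G] (h : PolyUnion K G) :
    Nonempty (LinData K G) := by
  obtain ⟨ι, H, n, ρ, hcov, hker, hdir⟩ := h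
  refine ⟨{ ι := ι, H := H, n := n, ρ := ρ, cov := hcov, ker := hker, dir := ?_ }⟩
  intro i j
  obtain ⟨k, hi, hj⟩ := hdir i j
  exact ⟨k, PolyLe.properLeA hi, PolyLe.properLeA hj⟩

end Pool.Agent.Helper64.TS
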