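import Pool.Agent.Helper64.TS.RDefs

/-!
TR-2. Countable groups: descent to a countable subring. (The same proof as `Countable.lean`, TS-11, for
subrings instead of subfields.)

Proof. `G = {g_0, g_1, ...}`. Choose `i_0, i_1, ...` with `RPolyLe (ρ i_k) (ρ i_(k+1))` and
`g_0, ..., g_k ∈ H i_(k+1)` (`D.dir`; reflexivity and transitivity of `RPolyLe` as `PolyLe.refl`, `PolyLe.trans` in
`Helper58/GI/Tower.lean`, over a commutative ring). Let `R₀` be the subring generated by the countable set of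
all `rent (ρ i_k g) s`, `g ∈ H i_k`, and all coefficients of the (chosen) polynomials in the relations
between `ρ i_k` and `ρ i_l`, `k ≤ l`. It is countable. The matrices and their inverses have entries in `R₀`:
`ρ' k : H i_k →* GL (Fin (n i_k)) R₀`, injective. The polynomials have coefficients in `R₀`, and the relations hold
over `R₀` because `R₀ → R` is injective. Index set `ULift ℕ : Type w`.
-/

set_option autoImplicit false

namespace Pool.Agent.Helper64.TS

universe u w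

private theorem rc_rent {R : Type*} [CommRing R] {H : Type*} [Group H] {n m : ℕ}
    {ρ : H →* GL (Fin n) R} {σ : H →* GL (Fin m) R} (h : RPolyIn ρ σ) :
    ∃ P : (Fin m × Fin m) ⊕ (Fin m × Fin m) →
        MvPolynomial ((Fin n × Fin n) ⊕ (Fin n × Fin n)) R,
      ∀ h s, rent (σ h) s = MvPolynomial.eval (rent (ρ h)) (P s) := by
  obtain ⟨P, hP⟩ := h
  refine ⟨Sum.elim (fun p => P p.1 p.2) (fun p => MvPolynomial.rename Sum.swap (P p.1 p.2)), ?_⟩
  rintro h (⟨a, b⟩ | ⟨a, b⟩)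
  · simpa [rent] using hP h a b
  · have h1 := hP h⁻¹ a b
    rw [map_inv, map_inv] at h1
    have h2 : rent (σ h) (Sum.inr (a, b)) =
        (((σ h)⁻¹ : GL (Fin m) R) : Matrix (Fin m) (Fin m) R) a b := rfl
    rw [h2, h1]
    simp only [Sum.elim_inr]
    rw [MvPolynomial.eval_rename]
    congr 2
    funext s
    exact rent_inv (ρ h) s

private theorem rc_refl {R : Type*} [CommRing R] {H : Type*} [Group H] {n : ℕ}
    (ρ : H →* GL (Fin n) R) : RPolyIn ρ ρ :=
  ⟨fun a b => MvPolynomial.X (Sum.inl (a, b)), fun h a b => by simp [rent]⟩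

private theorem rc_trans {R : Type*} [CommRing R] {H : Type*} [Group H] {n m l : ℕ}
    {ρ : H →* GL (Fin n) R} {σ : H →* GL (Fin m) R} {τ : H →* GL (Fin l) R} (h1 : RPolyIn ρ σ)
    (h2 : RPolyIn σ τ) : RPolyIn ρ τ := by
  obtain ⟨P, hP⟩ := rc_rent h1
  obtain ⟨Q, hQ⟩ := h2
  refine ⟨fun a b => MvPolynomial.bind₁ P (Q a b), fun h a b => ?_⟩
  have h3 : MvPolynomial.eval (rent (ρ h)) (MvPolynomial.bind₁ P (Q a b)) =
      MvPolynomial.eval (fun s => MvPolynomial.eval (rent (ρ h)) (P s)) (Q a b) := by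
    have := MvPolynomial.eval₂Hom_bind₁ (RingHom.id R) (rent (ρ h)) P (Q a b)
    exact this
  rw [h3, hQ]
  congr 2
  funext s
  exact hP h s

private theorem rc_comap {R : Type*} [CommRing R] {H H' : Type*} [Group H] [Group H'] {n m : ℕ}
    {ρ : H →* GL (Fin n) R} {σ : H →* GL (Fin m) R} (h : RPolyIn ρ σ) (f : H' →* H) :
    RPolyIn (ρ.comp f) (σ.comp f) := by
  obtain ⟨P, hP⟩ := h
  exact ⟨P, fun h a b => hP (f h) a b⟩

private theorem rc_le_refl {R : Type*} [CommRing R] {G : Type*} [Group G] {H : Subgroup G} {n : ℕ}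
    (ρ : H →* GL (Fin n) R) : RPolyLe ρ ρ :=
  ⟨le_rfl, rc_refl _, rc_refl _⟩

private theorem rc_le_trans {R : Type*} [CommRing R] {G : Type*} [Group G] {H H' H'' : Subgroup G}
    {n m l : ℕ} {ρ : H →* GL (Fin n) R} {ρ' : H' →* GL (Fin m) R} {ρ'' : H'' →* GL (Fin l) R}
    (h1 : RPolyLe ρ ρ') (h2 : RPolyLe ρ' ρ'') : RPolyLe ρ ρ'' := by
  obtain ⟨h, a, b⟩ := h1
  obtain ⟨h', a', b'⟩ := h2
  exact ⟨h.trans h', rc_trans a (rc_comap a' (Subgroup.inclusion h)),
    rc_trans (rc_comap b' (Subgroup.inclusion h)) b⟩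

private theorem rc_restrict {R : Type u} [CommRing R] (R₀ : Subring R) {H : Type w} [Group H] {n : ℕ}
    (ρ : H →* GL (Fin n) R)
    (hρ : ∀ (h : H) (a b : Fin n), (ρ h : Matrix (Fin n) (Fin n) R) a b ∈ R₀) :
    ∃ ρ' : H →* GL (Fin n) R₀, ∀ h s, ((rent (ρ' h) s : R₀) : R) = rent (ρ h) s := by
  have h1 : ∀ (h : H) (a b : Fin n), (ρ h : Matrix (Fin n) (Fin n) R) a b =
      ((Matrix.of fun a b => (⟨(ρ h : Matrix (Fin n) (Fin n) R) a b, hρ h a b⟩ : R₀) :
        Matrix (Fin n) (Fin n) R₀) a b : R) := fun _ _ _ => rfl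
  let M : H →* Matrix (Fin n) (Fin n) R₀ :=
    { toFun := fun h => Matrix.of fun a b => ⟨(ρ h : Matrix (Fin n) (Fin n) R) a b, hρ h a b⟩
      map_one' := by
        ext a b
        rw [← h1 1 a b, map_one, Units.val_one, Matrix.one_apply, Matrix.one_apply]
        split_ifs
        · rfl
        · rfl
      map_mul' := by
        intro g h
        ext a b
        rw [← h1 (g * h) a b, map_mul, Units.val_mul, Matrix.mul_apply, Matrix.mul_apply,
          AddSubmonoidClass.coe_finsetSum]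
        exact Finset.sum_congr rfl fun c _ => rfl }
  refine ⟨M.toHomUnits, fun h s => ?_⟩
  rcases s with ⟨a, b⟩ | ⟨a, b⟩
  · rfl
  · have h2 : ((M.toHomUnits h)⁻¹ : GL (Fin n) R₀) = M.toHomUnits h⁻¹ := (map_inv _ _).symm
    have h3 : ((ρ h)⁻¹ : GL (Fin n) R) = ρ h⁻¹ := (map_inv _ _).symm
    show ((((M.toHomUnits h)⁻¹ : GL (Fin n) R₀) : Matrix (Fin n) (Fin n) R₀) a b : R) =
      (((ρ h)⁻¹ : GL (Fin n) R) : Matrix (Fin n) (Fin n) R) a b
    rw [h2, h3]
    rfl

private theorem rc_polyIn {R : Type u} [CommRing R] (R₀ : Subring R) {H : Type w} [Group H] {n m : ℕ}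
    {ρ : H →* GL (Fin n) R} {σ : H →* GL (Fin m) R} {ρ' : H →* GL (Fin n) R₀}
    {σ' : H →* GL (Fin m) R₀} (h1 : ∀ h s, ((rent (ρ' h) s : R₀) : R) = rent (ρ h) s)
    (h2 : ∀ h s, ((rent (σ' h) s : R₀) : R) = rent (σ h) s)
    (P : Fin m → Fin m → MvPolynomial ((Fin n × Fin n) ⊕ (Fin n × Fin n)) R)
    (hP : ∀ h a b, (σ h : Matrix (Fin m) (Fin m) R) a b = MvPolynomial.eval (rent (ρ h)) (P a b))
    (hc : ∀ a b x, x ∈ (P a b).coeffs → x ∈ R₀) : RPolyIn ρ' σ' := by
  have h3 : ∀ a b, ∃ Q : MvPolynomial ((Fin n × Fin n) ⊕ (Fin n × Fin n)) R₀,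
      MvPolynomial.map R₀.subtype Q = P a b := by
    intro a b
    have h4 : P a b ∈ Set.range (MvPolynomial.map R₀.subtype) := by
      rw [MvPolynomial.mem_range_map_iff_coeffs_subset]
      intro x hx
      exact ⟨⟨x, hc a b x hx⟩, rfl⟩
    exact h4
  choose Q hQ using h3
  refine ⟨Q, fun h a b => ?_⟩
  apply Subtype.ext
  have h4 := h2 h (Sum.inl (a, b))
  have h5 : R₀.subtype (MvPolynomial.eval (rent (ρ' h)) (Q a b)) =
      MvPolynomial.eval (rent (ρ h)) (P a b) := by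
    rw [MvPolynomial.map_eval, hQ]
    have h6 : (R₀.subtype ∘ rent (ρ' h)) = rent (ρ h) := funext fun s => h1 h s
    rw [h6]
  exact (h4.trans (hP h a b)).trans h5.symm

private theorem rc_closure_countable {R : Type u} [CommRing R] {S : Set R} (hS : S.Countable) :
    Countable (Subring.closure S) := by
  have h1 : Countable (Algebra.adjoin ℤ S) := by
    have h2 := Algebra.lift_cardinalMk_adjoin_le ℤ S
    have h3 : Cardinal.lift.{0} (Cardinal.mk (Algebra.adjoin ℤ S)) ≤ Cardinal.aleph0 := by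
      refine h2.trans (max_le (max_le ?_ ?_) le_rfl)
      · rw [Cardinal.lift_le_aleph0]
        exact Cardinal.mk_le_aleph0
      · rw [Cardinal.lift_le_aleph0, Cardinal.mk_le_aleph0_iff]
        exact hS.to_subtype
    rw [Cardinal.lift_le_aleph0, Cardinal.mk_le_aleph0_iff] at h3
    exact h3
  exact (Subring.closureEquivAdjoinInt S).toEquiv.injective.countable

private theorem rc_seq {R : Type u} [CommRing R] {G : Type w} [Group G] [Countable G]
    (H : ℕ → Subgroup G) (n : ℕ → ℕ) (ρ : ∀ k, H k →* GL (Fin (n k)) R)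
    (inj : ∀ k, Function.Injective (ρ k)) (cov : ∀ g, ∃ k, g ∈ H k)
    (hle : ∀ k, RPolyLe (ρ k) (ρ (k + 1))) :
    ∃ R₀ : Subring R, Countable R₀ ∧ Nonempty (RingData R₀ G) := by
  have hle' : ∀ k, ∃ (h : H k ≤ H (k + 1))
      (P : Fin (n (k + 1)) → Fin (n (k + 1)) →
        MvPolynomial ((Fin (n k) × Fin (n k)) ⊕ (Fin (n k) × Fin (n k))) R)
      (Q : Fin (n k) → Fin (n k) →
        MvPolynomial ((Fin (n (k + 1)) × Fin (n (k + 1))) ⊕ (Fin (n (k + 1)) × Fin (n (k + 1)))) R),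
      (∀ x a b, (((ρ (k + 1)).comp (Subgroup.inclusion h)) x :
        Matrix (Fin (n (k + 1))) (Fin (n (k + 1))) R) a b = MvPolynomial.eval (rent (ρ k x)) (P a b)) ∧
      (∀ x a b, (ρ k x : Matrix (Fin (n k)) (Fin (n k)) R) a b =
        MvPolynomial.eval (rent (((ρ (k + 1)).comp (Subgroup.inclusion h)) x)) (Q a b)) := by
    intro k
    obtain ⟨h, ⟨P, hP⟩, ⟨Q, hQ⟩⟩ := hle k
    exact ⟨h, P, Q, hP, hQ⟩
  choose hsub P Q hP hQ using hle'
  let S1 : Set R := ⋃ k, ⋃ h : H k, ⋃ a, ⋃ b, {(ρ k h : Matrix (Fin (n k)) (Fin (n k)) R) a b}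
  let S2 : Set R := ⋃ k, ⋃ a, ⋃ b, ((P k a b).coeffs : Set R)
  let S3 : Set R := ⋃ k, ⋃ a, ⋃ b, ((Q k a b).coeffs : Set R)
  have c1 : S1.Countable := Set.countable_iUnion fun k => Set.countable_iUnion fun h =>
    Set.countable_iUnion fun a => Set.countable_iUnion fun b => Set.countable_singleton _
  have c2 : S2.Countable := Set.countable_iUnion fun k => Set.countable_iUnion fun a =>
    Set.countable_iUnion fun b => Finset.countable_toSet _
  have c3 : S3.Countable := Set.countable_iUnion fun k => Set.countable_iUnion fun a =>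
    Set.countable_iUnion fun b => Finset.countable_toSet _
  have cS : (S1 ∪ S2 ∪ S3).Countable := (c1.union c2).union c3
  have hcl : S1 ∪ S2 ∪ S3 ⊆ (Subring.closure (S1 ∪ S2 ∪ S3) : Set R) := Subring.subset_closure
  have hK : Countable (Subring.closure (S1 ∪ S2 ∪ S3)) := rc_closure_countable cS
  have e1 : ∀ k (h : H k) a b, (ρ k h : Matrix (Fin (n k)) (Fin (n k)) R) a b ∈
      Subring.closure (S1 ∪ S2 ∪ S3) := by
    intro k h a b
    refine hcl (Or.inl (Or.inl ?_))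
    exact Set.mem_iUnion.mpr ⟨k, Set.mem_iUnion.mpr ⟨h, Set.mem_iUnion.mpr ⟨a, Set.mem_iUnion.mpr
      ⟨b, rfl⟩⟩⟩⟩
  have e2 : ∀ k a b x, x ∈ (P k a b).coeffs → x ∈ Subring.closure (S1 ∪ S2 ∪ S3) := by
    intro k a b x hx
    refine hcl (Or.inl (Or.inr ?_))
    exact Set.mem_iUnion.mpr ⟨k, Set.mem_iUnion.mpr ⟨a, Set.mem_iUnion.mpr ⟨b, hx⟩⟩⟩
  have e3 : ∀ k a b x, x ∈ (Q k a b).coeffs → x ∈ Subring.closure (S1 ∪ S2 ∪ S3) := by
    intro k a b x hx
    refine hcl (Or.inr ?_)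
    exact Set.mem_iUnion.mpr ⟨k, Set.mem_iUnion.mpr ⟨a, Set.mem_iUnion.mpr ⟨b, hx⟩⟩⟩
  refine ⟨Subring.closure (S1 ∪ S2 ∪ S3), hK, ?_⟩
  generalize Subring.closure (S1 ∪ S2 ∪ S3) = R₀ at e1 e2 e3
  choose ρ' hρ' using fun k => rc_restrict R₀ (ρ k) (e1 k)
  have hsucc : ∀ k, RPolyLe (ρ' k) (ρ' (k + 1)) := fun k =>
    ⟨hsub k, rc_polyIn R₀ (σ := (ρ (k + 1)).comp (Subgroup.inclusion (hsub k))) (hρ' k)
      (fun h s => hρ' (k + 1) (Subgroup.inclusion (hsub k) h) s) (P k) (hP k) (e2 k),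
      rc_polyIn R₀ (ρ := (ρ (k + 1)).comp (Subgroup.inclusion (hsub k)))
      (fun h s => hρ' (k + 1) (Subgroup.inclusion (hsub k) h) s) (hρ' k) (Q k) (hQ k) (e3 k)⟩
  have hmono : ∀ k l, k ≤ l → RPolyLe (ρ' k) (ρ' l) := by
    intro k l hkl
    induction l, hkl using Nat.le_induction with
    | base => exact rc_le_refl _
    | succ l _ ih => exact rc_le_trans ih (hsucc l)
  refine ⟨{ ι := ULift ℕ
            H := fun k => H k.down
            n := fun k => n k.down
            ρ := fun k => ρ' k.down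
            inj := ?_
            cov := ?_
            dir := ?_ }⟩
  · intro k x y hxy
    apply inj k.down
    apply rent_injective
    funext s
    rw [← hρ' k.down x s, ← hρ' k.down y s, hxy]
  · intro g
    obtain ⟨k, hk⟩ := cov g
    exact ⟨⟨k⟩, hk⟩
  · intro i j
    exact ⟨⟨max i.down j.down⟩, hmono _ _ (le_max_left _ _), hmono _ _ (le_max_right _ _)⟩

theorem RingData.countable {R : Type u} [CommRing R] {G : Type w} [Group G] [Countable G]
    (D : RingData R G) : ∃ R₀ : Subring R, Countable R₀ ∧ Nonempty (RingData R₀ G) := by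
  obtain ⟨e, he⟩ := exists_surjective_nat G
  choose ig hig using D.cov
  choose c hc1 hc2 using D.dir
  let f : ℕ → D.ι := fun k => Nat.rec (ig 1) (fun k i => c i (ig (e k))) k
  have hf1 : ∀ k, RPolyLe (D.ρ (f k)) (D.ρ (f (k + 1))) := fun k => hc1 (f k) (ig (e k))
  have hf2 : ∀ k, RPolyLe (D.ρ (ig (e k))) (D.ρ (f (k + 1))) := fun k => hc2 (f k) (ig (e k))
  refine rc_seq (fun k => D.H (f k)) (fun k => D.n (f k)) (fun k => D.ρ (f k))
    (fun k => D.inj (f k)) ?_ hf1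
  intro g
  obtain ⟨k, rfl⟩ := he g
  obtain ⟨h1, -, -⟩ := hf2 k
  exact ⟨k + 1, h1 (hig (e k))⟩

end Pool.Agent.Helper64.TS
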