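import Pool.Agent.Helper64.TS.Lin

/-!
TS-05. The first stage for a directed union of linear groups.

Proof. Given `T` choose `i` with `T ⊆ H i` (`exists_ge`, starting from any index). `finite_of_ring`
(file `Helper58/GI/Tower.lean`) is NOT needed here, but its finite set `E` of entries is: let `E` be the finite
set of all `ent (ρ i t) s`, `t ∈ T`; by induction over the closure (copy `hring` from the proof of
`finite_of_ring`) `ent (ρ i h) s ∈ Subring.closure E` for `h ∈ ⟨T⟩`. `hK E` gives `p`, `v`. Put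
`σ = (Fin (n i) × Fin (n i)) ⊕ (Fin (n i) × Fin (n i))`, `d = Fintype.card σ`, `e = Fintype.equivFin σ` and
`N = p * d`. Given `F`, `ε`: choose `j` above `i` with `T ∪ F ⊆ H j` (`exists_ge i (T ∪ F)`), `Γ = ⟨T ∪ F⟩`,
`L = (closure T).subgroupOf Γ`, `φ = (dbl (n j)).comp ((ρ j).comp (Subgroup.inclusion _)) : Γ →* GL _ K` and
`y : Γ → Fin d → K` the entries `ent (ρ i g) (e.symm l)` if `g ∈ H i` (0 otherwise), exactly as in the
proof of `thin_of_properUnionA` in `Helper58/AR/TowerA.lean` (there the polynomials for `hP` are written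
down). For every `c : Fin p` the theorem `local_light (hv c) φ L y P hP F' ε hε` (file
`Helper58/GI/Class.lean`; `F'` = `F` as a finite subset of `Γ`, `F.subtype _`) gives `g c : Γ → Fin d → ℝ`
and `ρ' c`. Combine: `g₀ x q = g (finProdFinEquiv.symm q).1 x (finProdFinEquiv.symm q).2`. Extend to `G` by
`extend_light` (file `Extend.lean`, with `F` as the set of steps, `C = fun _ => True`,
`L = closure T`). A chain for `g` from `x` to `y` gives a chain in `Γ` from `x'` to `y'` with the same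
`x⁻¹ * y = x'⁻¹ * y'`, so `v c (entries of φ (x'⁻¹ * y')) ≤ ρ' c`; by `dbl_pos` and the second part of
`ProperLeA (ρ i) (ρ j)` (a `BddInA`, for the place `v c`, `Or.inl (hv c)`) `v c (ent (ρ i (x⁻¹ * y)) s) ≤ R c`
with `R c` depending on `c` only. Put `k = ∑ c, |R c|` and
`B = {z | z ∈ closure T ∧ ∃ hz : z ∈ H i, ∀ c s, v c (ent (ρ i ⟨z, hz⟩) s) ≤ k}`. `D.Bd B`: index `i`, finite
set `T`, and for a non-archimedean `u` the constant `C` from the first part of `hK E` for `k`.
-/

set_option autoImplicit false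

namespace Pool.Agent.Helper64.TS

open Pool.Agent.Helper65.TH Pool.Agent.Helper58.GI Pool.Agent.Helper58.AR

universe u w

/-- the entries of the matrices of the group generated by `T` lie in a finitely generated ring -/
private theorem exists_entries {K : Type u} [Field K] {G : Type w} [Group G] {H : Subgroup G}
    {n : ℕ} (ρ : H →* GL (Fin n) K) (T : Finset G) (hT : ∀ t ∈ T, t ∈ H) :
    ∃ E : Finset K, ∀ h : H, (h : G) ∈ Subgroup.closure (T : Set G) →
      ∀ s, ent (ρ h) s ∈ Subring.closure (E : Set K) := by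
  classical
  have hcl : ∀ h ∈ Subgroup.closure (T : Set G), h ∈ H := fun h hh =>
    (Subgroup.closure_le H).2 hT hh
  let E : Finset K := T.attach.biUnion fun t => Finset.univ.image (ent (ρ ⟨t.1, hT t.1 t.2⟩))
  have hring : ∀ h ∈ Subgroup.closure (T : Set G), ∀ (hg : h ∈ H) s,
      ent (ρ ⟨h, hg⟩) s ∈ Subring.closure (E : Set K) := by
    intro h hh
    induction hh using Subgroup.closure_induction with
    | mem x hx =>
      intro hg s
      apply Subring.subset_closure
      simp only [E, Finset.coe_biUnion, Finset.coe_image, Finset.coe_univ, Set.image_univ,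
        Set.mem_iUnion, Set.mem_range]
      exact ⟨⟨x, hx⟩, Finset.mem_coe.2 (Finset.mem_attach _ _), s, rfl⟩
    | one =>
      intro hg s
      have h1 : ρ ⟨1, hg⟩ = 1 := map_one ρ
      rw [h1]
      exact ent_one_mem _ s
    | mul x z hx hz ihx ihz =>
      intro hg s
      have h1 : ρ ⟨x * z, hg⟩ = ρ ⟨x, hcl x hx⟩ * ρ ⟨z, hcl z hz⟩ := by
        rw [← map_mul]; rfl
      rw [h1]
      exact ent_mul_mem _ (ihx (hcl x hx)) (ihz (hcl z hz)) s
    | inv x hx ihx =>
      intro hg s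
      have h1 : ρ ⟨x⁻¹, hg⟩ = (ρ ⟨x, hcl x hx⟩)⁻¹ := by
        rw [← map_inv]; rfl
      rw [h1, ent_inv]
      exact ihx (hcl x hx) _
  exact ⟨E, fun h hh s => hring h.1 hh h.2 s⟩

theorem LinData.stageA {K : Type u} [Field K] (hK : WideField K) {G : Type w} [Group G]
    (D : LinData K G) : StageA D.Bd := by
  classical
  intro T
  obtain ⟨i₀, _⟩ := D.cov 1
  obtain ⟨i, _, hTi⟩ := D.exists_ge i₀ T
  have hcl : ∀ h ∈ Subgroup.closure (T : Set G), h ∈ D.H i := fun h hh =>
    (Subgroup.closure_le (D.H i)).2 hTi hh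
  let σ := (Fin (D.n i) × Fin (D.n i)) ⊕ (Fin (D.n i) × Fin (D.n i))
  let e : σ ≃ Fin (Fintype.card σ) := Fintype.equivFin σ
  obtain ⟨E, hE⟩ := exists_entries (D.ρ i) T hTi
  obtain ⟨p, v, hv, hvk⟩ := hK E
  refine ⟨p * Fintype.card σ, fun F ε hε => ?_⟩
  obtain ⟨j, ⟨hij, hij1, hij2⟩, hSj⟩ := D.exists_ge i (T ∪ F)
  have hcS : Subgroup.closure ((T ∪ F : Finset G) : Set G) ≤ D.H j :=
    (Subgroup.closure_le (D.H j)).2 hSj
  have hFΓ : ∀ s ∈ (F : Set G), s ∈ Subgroup.closure ((T ∪ F : Finset G) : Set G) :=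
    fun s hs => Subgroup.subset_closure
      (Finset.mem_coe.2 (Finset.mem_union_right _ (Finset.mem_coe.1 hs)))
  obtain ⟨P, hP⟩ := hij1.ent
  let y : Subgroup.closure ((T ∪ F : Finset G) : Set G) → Fin (Fintype.card σ) → K :=
    fun g l => if hg : (g : G) ∈ D.H i then ent (D.ρ i ⟨g, hg⟩) (e.symm l) else 0
  have hy : ∀ (g : Subgroup.closure ((T ∪ F : Finset G) : Set G)) (hg : (g : G) ∈ D.H i) (s : σ),
      y g (e s) = ent (D.ρ i ⟨g, hg⟩) s := by
    intro g hg s
    simp only [y, dif_pos hg, Equiv.symm_apply_apply]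
  obtain ⟨F', hF'⟩ : ∃ F' : Finset (Subgroup.closure ((T ∪ F : Finset G) : Set G)),
      ∀ s, s ∈ F' ↔ (s : G) ∈ F :=
    ⟨F.subtype (fun x => x ∈ Subgroup.closure ((T ∪ F : Finset G) : Set G)),
      fun s => Finset.mem_subtype⟩
  have hloc : ∀ c : Fin p, ∃ (g : Subgroup.closure ((T ∪ F : Finset G) : Set G) →
        Fin (Fintype.card σ) → ℝ) (r : ℝ),
      (∀ x, ∀ s ∈ F', Near (g (x * s)) (g x) ε) ∧
      ∀ x z, Chain {s | s ∈ F' ∧ s ∈ (Subgroup.closure (T : Set G)).subgroupOf
          (Subgroup.closure ((T ∪ F : Finset G) : Set G))}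
        (fun b => Near (g b) (g x) 1) x z →
        ∀ a b, v c ((((dbl (D.n j)).comp ((D.ρ j).comp (Subgroup.inclusion hcS))) (x⁻¹ * z) :
          Matrix (Fin (D.n j + D.n j)) (Fin (D.n j + D.n j)) K) a b) ≤ r := by
    intro c
    refine local_light (hv c) ((dbl (D.n j)).comp ((D.ρ j).comp (Subgroup.inclusion hcS)))
      ((Subgroup.closure (T : Set G)).subgroupOf
        (Subgroup.closure ((T ∪ F : Finset G) : Set G))) y
      (fun a b => MvPolynomial.rename e
        (match finSumFinEquiv.symm a, finSumFinEquiv.symm b with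
          | Sum.inl a, Sum.inl b => P (Sum.inl (a, b))
          | Sum.inr a, Sum.inr b => P (Sum.inr (b, a))
          | Sum.inl _, Sum.inr _ => 0
          | Sum.inr _, Sum.inl _ => 0)) ?_ F' ε hε
    rintro ⟨h, hS⟩ hT
    rw [Subgroup.mem_subgroupOf] at hT
    have hi := hcl h hT
    have hyh : (y ⟨h, hS⟩ ∘ e : σ → K) = ent (D.ρ i ⟨h, hi⟩) :=
      funext fun s => hy ⟨h, hS⟩ hi s
    have hφ : ((dbl (D.n j)).comp ((D.ρ j).comp (Subgroup.inclusion hcS))) ⟨h, hS⟩ =
        dbl (D.n j) (((D.ρ j).comp (Subgroup.inclusion hij)) ⟨h, hi⟩) := rfl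
    rw [hφ]
    intro a b
    rw [MvPolynomial.eval_rename, hyh]
    obtain ⟨a, rfl⟩ := (finSumFinEquiv (m := D.n j) (n := D.n j)).surjective a
    obtain ⟨b, rfl⟩ := (finSumFinEquiv (m := D.n j) (n := D.n j)).surjective b
    rw [Equiv.symm_apply_apply, Equiv.symm_apply_apply]
    rcases a with a | a <;> rcases b with b | b
    · have h1 := dbl_pos (((D.ρ j).comp (Subgroup.inclusion hij)) ⟨h, hi⟩) (Sum.inl (a, b))
      rw [hP] at h1
      exact h1
    · rw [dbl_apply]
      simp
    · rw [dbl_apply]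
      simp
    · have h1 := dbl_pos (((D.ρ j).comp (Subgroup.inclusion hij)) ⟨h, hi⟩) (Sum.inr (b, a))
      rw [hP] at h1
      exact h1
  choose g r hg hr using hloc
  obtain ⟨f, hf1, hf2⟩ := extend_light (Subgroup.closure ((T ∪ F : Finset G) : Set G))
    (N := p * Fintype.card σ) (F : Set G) hFΓ
    (fun x q => g (finProdFinEquiv.symm q).1 x (finProdFinEquiv.symm q).2) ε
    (fun x s hs q => hg _ x s ((hF' s).2 (Finset.mem_coe.1 hs)) _)
  choose R hR using fun c : Fin p => hij2 (v c) (Or.inl (hv c)) (r c)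
  refine ⟨f, {z | z ∈ Subgroup.closure (T : Set G) ∧ ∃ hz : z ∈ D.H i,
    ∀ c s, v c (ent (D.ρ i ⟨z, hz⟩) s) ≤ ∑ c, |R c|}, ?_, hf1, ?_⟩
  · refine ⟨i, T, hTi, fun z hz => hz.1, fun u hu => ?_⟩
    obtain ⟨C, hC⟩ := (hvk (∑ c, |R c|)).1 u hu
    refine ⟨C, ?_⟩
    rintro h ⟨hh, hz, hb⟩ s
    exact hC _ (hE h hh s) (fun c => hb c s)
  · intro x z hxz
    have hch0 : Chain {s | s ∈ (F : Set G) ∧ s ∈ ((Subgroup.closure (T : Set G)) : Set G)}
        (fun b => True ∧ Near (f b) (f x) 1) x z := by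
      refine hxz.mono ?_ ?_
      · intro s hs
        exact ⟨Finset.mem_coe.2 hs.1, hs.2⟩
      · intro b hb
        exact ⟨trivial, hb⟩
    obtain ⟨x', z', hxz', hch⟩ := hf2 ((Subgroup.closure (T : Set G)) : Set G)
      (fun _ => True) x z hch0
    rw [← hxz']
    have hL : x'⁻¹ * z' ∈ (Subgroup.closure (T : Set G)).subgroupOf
        (Subgroup.closure ((T ∪ F : Finset G) : Set G)) :=
      hch.mem_subgroup _ (fun s hs => Subgroup.mem_subgroupOf.2 hs.2)
    have hT' : ((x'⁻¹ * z' : Subgroup.closure ((T ∪ F : Finset G) : Set G)) : G) ∈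
        Subgroup.closure (T : Set G) := Subgroup.mem_subgroupOf.1 hL
    refine ⟨hT', hcl _ hT', fun c s => ?_⟩
    have hch1 : Chain {s | s ∈ F' ∧ s ∈ (Subgroup.closure (T : Set G)).subgroupOf
          (Subgroup.closure ((T ∪ F : Finset G) : Set G))}
        (fun b => Near (g c b) (g c x') 1) x' z' := by
      refine hch.mono ?_ ?_
      · intro s hs
        exact ⟨(hF' s).2 (Finset.mem_coe.1 hs.1), Subgroup.mem_subgroupOf.2 hs.2⟩
      · intro b hb l
        have h2 := hb.2 (finProdFinEquiv (c, l))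
        simp only [Equiv.symm_apply_apply] at h2
        exact h2
    have h1 := hr c x' z' hch1
    have h2 : ∀ s, v c (ent (((D.ρ j).comp (Subgroup.inclusion hij)) ⟨_, hcl _ hT'⟩) s) ≤
        r c := by
      intro s
      rw [← dbl_pos]
      exact h1 _ _
    refine (hR c _ h2 s).trans ((le_abs_self _).trans ?_)
    exact Finset.single_le_sum (f := fun c' => |R c'|) (fun c' _ => abs_nonneg _)
      (Finset.mem_univ c)

end Pool.Agent.Helper64.TS
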