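import Pool.Agent.Helper64.TS.RDefs
import Pool.Agent.Helper64.TS.StageA
import Pool.Agent.Helper64.TS.StageB
import Pool.Agent.Helper64.TS.StageC

/-!
TR-3. Reduction of a directed union of linear groups over `R` along a homomorphism to a field.

Proof. `N = D.ker ψ`, `mk : G → G ⧸ N`. A `LinData K (G ⧸ N)`: the same index set, `H' i = (D.H i).map mk`,
`n' i = D.n i`; `ρ' i : H' i →* GL (Fin (n i)) K` is the factorisation of
`(Matrix.GeneralLinearGroup.map ψ).comp (D.ρ i)` through the surjection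
`mk.subgroupMap (D.H i) : D.H i →* (D.H i).map mk` (`MonoidHom.liftOfSurjective`; the kernel of this map is
contained in the kernel of the composition by `D.mem_ker`), so
`ρ' i ⟨mk h, _⟩ = GL.map ψ (D.ρ i h)`. `ρ' i` is injective: if `ρ' i (mk h) = 1` then `h ∈ N`
(`D.mem_ker`), so the kernel condition is trivial (a subset of `{1}`). `dir`: `D.dir` and `RPolyIn.map`; every element of
`H' i` is `mk h` with `h ∈ D.H i`; `rent` and `ent` (file `Helper58/GI/Tower.lean`) are the same function for a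
field (`rfl` or `Sum.elim` unfold), so `RPolyLe` over `K` gives `PolyLe`, hence `ProperLeA`
(`PolyLe.properLeA`, file `Helper58/AR/TowerA.lean`). `Bd` = the `Bd` of this `LinData`, with `born_bd`, `stageA`,
`stageB`, `stageC`. The last part: `mk '' B ⊆ closure (T.image mk)`; if `Bd (mk '' B)` then by `bd_at` for the index
`i` and the finite set `T.image mk` the entries are bounded; conversely the definition of `Bd` with the index `i`
and the finite set `T.image mk`; `ent (ρ' i (mk h)) s = ψ (rent (D.ρ i h) s)` by `rent_map`. (Note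
`h ∈ D.H i`, `mk h ∈ mk '' B` means `mk h = mk b` for some `b ∈ B ⊆ closure T ⊆ D.H i`; then the matrices of `h` and
`b` over `K` agree.)
-/

set_option autoImplicit false

namespace Pool.Agent.Helper64.TS

open Pool.Agent.Helper65.TH Pool.Agent.Helper58.GI Pool.Agent.Helper58.AR

universe u v w

section

variable {R : Type v} [CommRing R] {K : Type u} [Field K] (ψ : R →+* K) {G : Type w} [Group G]
  (D : RingData R G)

private noncomputable def red (i : D.ι) :
    (D.H i).map (QuotientGroup.mk' (D.ker ψ)) →* GL (Fin (D.n i)) K :=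
  MonoidHom.liftOfSurjective ((QuotientGroup.mk' (D.ker ψ)).subgroupMap (D.H i))
    (MonoidHom.subgroupMap_surjective _ _)
    ⟨(Matrix.GeneralLinearGroup.map ψ).comp (D.ρ i), by
      intro h hh
      rw [MonoidHom.mem_ker] at hh ⊢
      have h1 : QuotientGroup.mk' (D.ker ψ) (h : G) = 1 := congrArg Subtype.val hh
      have h2 : (h : G) ∈ D.ker ψ := (QuotientGroup.eq_one_iff (h : G)).1 h1
      exact (D.mem_ker ψ i h h.2).1 h2⟩

private theorem red_mk (i : D.ι) (g : G) (hg : g ∈ D.H i)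
    (hg' : QuotientGroup.mk' (D.ker ψ) g ∈ (D.H i).map (QuotientGroup.mk' (D.ker ψ))) :
    red ψ D i ⟨QuotientGroup.mk' (D.ker ψ) g, hg'⟩ =
      Matrix.GeneralLinearGroup.map ψ (D.ρ i ⟨g, hg⟩) :=
  MonoidHom.liftOfRightInverse_comp_apply
    ((QuotientGroup.mk' (D.ker ψ)).subgroupMap (D.H i)) _
    (Function.rightInverse_surjInv (MonoidHom.subgroupMap_surjective _ _)) _ ⟨g, hg⟩

private theorem exists_rep (i : D.ι) (x : (D.H i).map (QuotientGroup.mk' (D.ker ψ))) :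
    ∃ (g : G) (_ : g ∈ D.H i) (hg' : QuotientGroup.mk' (D.ker ψ) g ∈
      (D.H i).map (QuotientGroup.mk' (D.ker ψ))), x = ⟨QuotientGroup.mk' (D.ker ψ) g, hg'⟩ := by
  obtain ⟨x, g, hg, rfl⟩ := x
  exact ⟨g, hg, _, rfl⟩

private theorem red_polyLe {i k : D.ι} (h : RPolyLe (D.ρ i) (D.ρ k)) :
    PolyLe (red ψ D i) (red ψ D k) := by
  obtain ⟨hle, p1, p2⟩ := h
  refine ⟨Subgroup.map_mono hle, ?_, ?_⟩
  · obtain ⟨P, hP⟩ := p1.map ψ
    refine ⟨P, ?_⟩
    intro x a b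
    obtain ⟨g, hg, hg', rfl⟩ := exists_rep ψ D i x
    have h1 : ((red ψ D k).comp (Subgroup.inclusion (Subgroup.map_mono hle)))
        ⟨QuotientGroup.mk' (D.ker ψ) g, hg'⟩ =
        Matrix.GeneralLinearGroup.map ψ (D.ρ k ⟨g, hle hg⟩) :=
      red_mk ψ D k g (hle hg) _
    rw [h1, red_mk ψ D i g hg hg']
    exact hP ⟨g, hg⟩ a b
  · obtain ⟨P, hP⟩ := p2.map ψ
    refine ⟨P, ?_⟩
    intro x a b
    obtain ⟨g, hg, hg', rfl⟩ := exists_rep ψ D i x
    have h1 : ((red ψ D k).comp (Subgroup.inclusion (Subgroup.map_mono hle)))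
        ⟨QuotientGroup.mk' (D.ker ψ) g, hg'⟩ =
        Matrix.GeneralLinearGroup.map ψ (D.ρ k ⟨g, hle hg⟩) :=
      red_mk ψ D k g (hle hg) _
    rw [h1, red_mk ψ D i g hg hg']
    exact hP ⟨g, hg⟩ a b

private noncomputable def lin : LinData K (G ⧸ D.ker ψ) where
  ι := D.ι
  H := fun i => (D.H i).map (QuotientGroup.mk' (D.ker ψ))
  n := D.n
  ρ := red ψ D
  cov := by
    intro x
    obtain ⟨g, rfl⟩ := QuotientGroup.mk'_surjective (D.ker ψ) x
    obtain ⟨i, hi⟩ := D.cov g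
    exact ⟨i, Subgroup.mem_map_of_mem _ hi⟩
  ker := by
    intro i T _
    refine (Set.finite_singleton 1).subset ?_
    rintro x ⟨-, hx⟩
    obtain ⟨g, hg, hg', rfl⟩ := exists_rep ψ D i x
    rw [red_mk ψ D i g hg hg'] at hx
    have h1 : g ∈ D.ker ψ := (D.mem_ker ψ i g hg).2 hx
    exact Subtype.ext ((QuotientGroup.eq_one_iff g).2 h1)
  dir := by
    intro i j
    obtain ⟨k, hi, hj⟩ := D.dir i j
    exact ⟨k, Pool.Agent.Helper58.AR.PolyLe.properLeA (red_polyLe ψ D hi),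
      Pool.Agent.Helper58.AR.PolyLe.properLeA (red_polyLe ψ D hj)⟩

end

theorem RingData.exists_quot {R : Type v} [CommRing R] {K : Type u} [Field K]
    (hK : WideField K) (ψ : R →+* K) {G : Type w} [Group G] (D : RingData R G) :
    ∃ Bd : Set (G ⧸ D.ker ψ) → Prop, (Born Bd ∧ StageA Bd ∧ StageB Bd ∧ StageC Bd) ∧
      ∀ (i : D.ι) (T : Finset G), (∀ t ∈ T, t ∈ D.H i) → ∀ B : Set G,
        (∀ z ∈ B, z ∈ Subgroup.closure (T : Set G)) →
        (Bd (QuotientGroup.mk' (D.ker ψ) '' B) ↔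
          ∀ u : AbsoluteValue K ℝ, IsNonarchimedean u → ∃ C : ℝ,
            ∀ h : D.H i, (h : G) ∈ B → ∀ s, u (ψ (rent (D.ρ i h) s)) ≤ C) := by
  classical
  refine ⟨(lin ψ D).Bd, ⟨(lin ψ D).born_bd, (lin ψ D).stageA hK, (lin ψ D).stageB hK,
    (lin ψ D).stageC hK⟩, ?_⟩
  intro i T hT B hB
  have hT' : ∀ s ∈ T.image (QuotientGroup.mk' (D.ker ψ)), s ∈ (lin ψ D).H i := by
    intro s hs
    obtain ⟨t, ht, rfl⟩ := Finset.mem_image.1 hs
    exact Subgroup.mem_map_of_mem _ (hT t ht)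
  have hB' : ∀ z ∈ QuotientGroup.mk' (D.ker ψ) '' B,
      z ∈ Subgroup.closure ((T.image (QuotientGroup.mk' (D.ker ψ)) : Finset (G ⧸ D.ker ψ)) :
        Set (G ⧸ D.ker ψ)) := by
    rintro _ ⟨b, hb, rfl⟩
    rw [Finset.coe_image, ← MonoidHom.map_closure]
    exact Subgroup.mem_map_of_mem _ (hB b hb)
  have hBi : ∀ b ∈ B, b ∈ D.H i := fun b hb =>
    (Subgroup.closure_le (D.H i)).2 hT (hB b hb)
  have hent : ∀ (g : G) (hg : g ∈ D.H i)
      (hg' : QuotientGroup.mk' (D.ker ψ) g ∈ (lin ψ D).H i) (s),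
      ent ((lin ψ D).ρ i ⟨QuotientGroup.mk' (D.ker ψ) g, hg'⟩) s =
        ψ (rent (D.ρ i ⟨g, hg⟩) s) := by
    intro g hg hg' s
    have h1 : (lin ψ D).ρ i ⟨QuotientGroup.mk' (D.ker ψ) g, hg'⟩ =
        Matrix.GeneralLinearGroup.map ψ (D.ρ i ⟨g, hg⟩) := red_mk ψ D i g hg hg'
    rw [h1]
    exact rent_map ψ (D.ρ i ⟨g, hg⟩) s
  constructor
  · intro h u hu
    obtain ⟨C, hC⟩ := (lin ψ D).bd_at h i _ hT' hB' u hu
    refine ⟨C, ?_⟩
    rintro ⟨g, hg⟩ hgB s
    have h1 := hC ⟨QuotientGroup.mk' (D.ker ψ) g, Subgroup.mem_map_of_mem _ hg⟩ ⟨g, hgB, rfl⟩ s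
    rw [hent g hg _ s] at h1
    exact h1
  · intro h
    refine ⟨i, _, hT', hB', ?_⟩
    intro u hu
    obtain ⟨C, hC⟩ := h u hu
    refine ⟨C, ?_⟩
    rintro ⟨x, hx⟩ ⟨b, hb, rfl⟩ s
    have h1 := hC ⟨b, hBi b hb⟩ hb s
    rw [← hent b (hBi b hb) hx s] at h1
    exact h1

end Pool.Agent.Helper64.TS
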