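import Pool.Agent.Helper64.TS.Bands

/-!
TS-2. The two-stage criterion. `Bd` is a class of bounded sets (bounded for the first stage), for example
the sets of matrices with entries bounded at all non-archimedean absolute values.
-/

set_option autoImplicit false

namespace Pool.Agent.Helper64.TS

open Pool.Agent.Helper65.TH

/-- a class of bounded subsets of a group -/
structure Born {G : Type*} [Group G] (Bd : Set G → Prop) : Prop where
  finite : ∀ A : Set G, A.Finite → Bd A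
  subset : ∀ A B : Set G, Bd B → A ⊆ B → Bd A
  union : ∀ A B : Set G, Bd A → Bd B → Bd (A ∪ B)
  mul : ∀ A B : Set G, Bd A → Bd B → Bd {z | ∃ a ∈ A, ∃ b ∈ B, z = a * b}
  inv : ∀ A : Set G, Bd A → Bd {z | z⁻¹ ∈ A}

/-- first stage: slow maps to `ℝ ^ N`, with `N` depending on `T`, which are light up to bounded sets on
the cosets of the subgroup generated by `T` -/
def StageA {G : Type*} [Group G] (Bd : Set G → Prop) : Prop :=
  ∀ T : Finset G, ∃ N : ℕ, ∀ (F : Finset G) (ε : ℝ), 0 < ε →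
    ∃ (g : G → Fin N → ℝ) (B : Set G), Bd B ∧ (∀ x, ∀ s ∈ F, Near (g (x * s)) (g x) ε) ∧
      ∀ x y, Chain {s | s ∈ F ∧ s ∈ Subgroup.closure (T : Set G)}
        (fun b => Near (g b) (g x) 1) x y → x⁻¹ * y ∈ B

/-- first stage: for bounded sets of steps in a finitely generated subgroup there are finitely many
sets covering the group, in which the chains are bounded; their number does not depend on the
bounded set of steps -/
def StageB {G : Type*} [Group G] (Bd : Set G → Prop) : Prop :=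
  ∀ S : Finset G, ∃ t : ℕ, ∀ F : Set G, Bd F → (∀ s ∈ F, s ∈ Subgroup.closure (S : Set G)) →
    ∃ (V : Fin t → Set G) (B : Set G), Bd B ∧ (∀ x, ∃ i, x ∈ V i) ∧
      ∀ i, ∀ x ∈ V i, ∀ y, Chain F (fun b => b ∈ V i) x y → x⁻¹ * y ∈ B

/-- second stage: slow maps to `ℝ ^ N`, with `N` depending on a finite set `P` and a bounded set `B`,
which are light on the cosets of the subgroup generated by `P` for chains which stay in `x B` -/
def StageC {G : Type*} [Group G] (Bd : Set G → Prop) : Prop :=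
  ∀ (P : Finset G) (B : Set G), Bd B → ∃ N : ℕ, ∀ (F : Finset G) (ε : ℝ), 0 < ε →
    ∃ (g : G → Fin N → ℝ) (E : Finset G), (∀ x, ∀ s ∈ F, Near (g (x * s)) (g x) ε) ∧
      ∀ x y, Chain {s | s ∈ F ∧ s ∈ Subgroup.closure (P : Set G)}
        (fun b => x⁻¹ * b ∈ B ∧ Near (g b) (g x) 1) x y → x⁻¹ * y ∈ E

/-- a group with a class of bounded sets for which the three properties hold -/
def TwoStage (G : Type*) [Group G] : Prop :=
  ∃ Bd : Set G → Prop, Born Bd ∧ StageA Bd ∧ StageB Bd ∧ StageC Bd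

section Born

variable {G : Type*} [Group G] {Bd : Set G → Prop}

theorem Born.conj (h : Born Bd) {E S : Set G} (hE : Bd E) (hS : Bd S) : Bd (Conj E S) := by
  have h1 := h.mul _ _ (h.mul _ _ hE hS) (h.inv _ hE)
  refine h.subset _ _ h1 ?_
  rintro z ⟨a, ha, s, hs, b, hb, rfl⟩
  refine ⟨a * s, ⟨a, ha, s, hs, rfl⟩, b⁻¹, ?_, rfl⟩
  show b⁻¹⁻¹ ∈ E
  rw [inv_inv]
  exact hb

/-- the set `e⁻¹ z e'` -/
theorem Born.conj' (h : Born Bd) {E S : Set G} (hE : Bd E) (hS : Bd S) :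
    Bd {z | ∃ e ∈ E, ∃ s ∈ S, ∃ e' ∈ E, z = e⁻¹ * s * e'} := by
  have h1 := h.mul _ _ (h.mul _ _ (h.inv _ hE) hS) hE
  refine h.subset _ _ h1 ?_
  rintro z ⟨a, ha, s, hs, b, hb, rfl⟩
  refine ⟨a⁻¹ * s, ⟨a⁻¹, ?_, s, hs, rfl⟩, b, hb, rfl⟩
  show a⁻¹⁻¹ ∈ E
  rw [inv_inv]
  exact ha

end Born

/-- the first stage -/
theorem stage_one {G : Type*} [Group G] {Bd : Set G → Prop} (hBd : Born Bd) (hB : StageB Bd)
    (T P : Finset G) (hTP : T ⊆ P) {N : ℕ}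
    (hN : ∀ (F : Finset G) (ε : ℝ), 0 < ε → ∃ (g : G → Fin N → ℝ) (B : Set G), Bd B ∧
      (∀ x, ∀ s ∈ F, Near (g (x * s)) (g x) ε) ∧
      ∀ x y, Chain {s | s ∈ F ∧ s ∈ Subgroup.closure (T : Set G)}
        (fun b => Near (g b) (g x) 1) x y → x⁻¹ * y ∈ B) :
    ∃ (W : Fin N → Set G) (B : Set G), Bd B ∧ (∀ z ∈ B, z ∈ Subgroup.closure (P : Set G)) ∧
      1 ∈ B ∧
      (∀ x, (∀ l, x ∉ W l) → ∀ y, Chain (T : Set G) (fun b => ∀ l, b ∉ W l) x y → x⁻¹ * y ∈ B) ∧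
      ∀ l, ∀ x ∈ W l, ∀ y, Chain (P : Set G) (fun b => b ∈ W l) x y → x⁻¹ * y ∈ B := by
  classical
  have hΛ : Subgroup.closure (T : Set G) ≤ Subgroup.closure (P : Set G) :=
    Subgroup.closure_mono (Finset.coe_subset.2 hTP)
  have hPcl : ∀ s ∈ P, s ∈ Subgroup.closure (P : Set G) := fun s hs => Subgroup.subset_closure hs
  have hTcl : ∀ s ∈ T, s ∈ Subgroup.closure (T : Set G) := fun s hs => Subgroup.subset_closure hs
  obtain ⟨t, ht⟩ := hB P
  have ht0 : 0 < t := by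
    obtain ⟨V, _, _, hV, _⟩ := ht ∅ (hBd.finite _ Set.finite_empty) (fun s hs => absurd hs (by simp))
    obtain ⟨i, _⟩ := hV 1
    exact i.pos
  have htr : (0 : ℝ) < t := by exact_mod_cast ht0
  obtain ⟨g, B₁, hB₁, hg, hl⟩ := hN P (1 / (4 * t)) (by positivity)
  set E₁ : Set G := {z | z ∈ B₁ ∧ z ∈ Subgroup.closure (T : Set G)} with hE₁
  have hE₁b : Bd E₁ := hBd.subset _ _ hB₁ (fun z hz => hz.1)
  set E : Set G := E₁ ∪ {z | ∃ a ∈ E₁, ∃ s ∈ (T : Set G), z = a * s} with hE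
  have hEb : Bd E := hBd.union _ _ hE₁b (hBd.mul _ _ hE₁b (hBd.finite _ T.finite_toSet))
  have hEP : ∀ z ∈ E, z ∈ Subgroup.closure (P : Set G) := by
    rintro z (hz | ⟨a, ha, s, hs, rfl⟩)
    · exact hΛ hz.2
    · exact Subgroup.mul_mem _ (hΛ ha.2) (hΛ (hTcl s hs))
  obtain ⟨V, B₂, hB₂, hVc, hVb⟩ := ht (Conj E (P : Set G))
    (hBd.conj hEb (hBd.finite _ P.finite_toSet)) (by
      rintro z ⟨a, ha, s, hs, b, hb, rfl⟩
      exact Subgroup.mul_mem _ (Subgroup.mul_mem _ (hEP a ha) (hPcl s hs))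
        (Subgroup.inv_mem _ (hEP b hb)))
  set B₃ : Set G := {z | ∃ e ∈ E, ∃ s ∈ B₂, ∃ e' ∈ E, z = e⁻¹ * s * e'} with hB₃
  have hB₃b : Bd B₃ := hBd.conj' hEb hB₂
  refine ⟨Band V E g, {z | (z ∈ E₁ ∪ B₃ ∪ {1}) ∧ z ∈ Subgroup.closure (P : Set G)}, ?_,
    fun z hz => hz.2, ⟨Or.inr rfl, Subgroup.one_mem _⟩, ?_, ?_⟩
  · exact hBd.subset _ _ (hBd.union _ _ (hBd.union _ _ hE₁b hB₃b)
      (hBd.finite _ (Set.finite_singleton 1))) (fun z hz => hz.1)
  · intro x hx y hxy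
    have h1 : x⁻¹ * y ∈ E₁ := by
      refine band_compl (V := V) (E := E) (E₁ := E₁) (S := (P : Set G)) (T := (T : Set G)) hg
        (Finset.coe_subset.2 hTP) (Subgroup.closure (T : Set G)) hTcl (fun _ _ => True)
        (fun _ => trivial) ?_ ?_ (hVc x) hx (hxy.mono (fun _ h => h) fun b hb => ⟨hb, trivial⟩)
      · intro x y hch
        refine ⟨hl x y (hch.mono (fun _ h => h) fun b hb => hb.2), ?_⟩
        exact hch.mem_subgroup _ (fun s hs => hs.2)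
      · intro x a ha _ _
        exact ⟨Or.inl ha, fun s hs => Or.inr ⟨_, ha, s, hs, rfl⟩⟩
    exact ⟨Or.inl (Or.inl h1), hΛ h1.2⟩
  · intro l x hx y hxy
    obtain ⟨i, e, he, e', he', hxV, hch⟩ := band_chain ht0 hg l hx hxy
    have h1 := hVb i _ hxV _ hch
    refine ⟨Or.inl (Or.inr ⟨e, he, _, h1, e', he', ?_⟩), ?_⟩
    · group
    · exact hxy.mem_subgroup _ hPcl

/-- the second stage -/
theorem stage_two {G : Type*} [Group G] {Bd : Set G → Prop} (hBd : Born Bd) (hB : StageB Bd)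
    (hC : StageC Bd) (P S : Finset G) (hPS : P ⊆ S) {B : Set G} (hBB : Bd B)
    (hBP : ∀ z ∈ B, z ∈ Subgroup.closure (P : Set G)) (hB1 : 1 ∈ B) {N : ℕ}
    (hN : ∀ (F : Finset G) (ε : ℝ), 0 < ε → ∃ (g : G → Fin N → ℝ) (E : Finset G),
      (∀ x, ∀ s ∈ F, Near (g (x * s)) (g x) ε) ∧
      ∀ x y, Chain {s | s ∈ F ∧ s ∈ Subgroup.closure (P : Set G)}
        (fun b => x⁻¹ * b ∈ B ∧ Near (g b) (g x) 1) x y → x⁻¹ * y ∈ E) :
    ∃ (W : Fin N → Set G) (E : Finset G),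
      (∀ x, (∀ l, x ∉ W l) → ∀ y,
        Chain (P : Set G) (fun b => (∀ l, b ∉ W l) ∧ x⁻¹ * b ∈ B) x y → x⁻¹ * y ∈ E) ∧
      ∀ l, ∀ x ∈ W l, ∀ y, Chain (S : Set G) (fun b => b ∈ W l) x y → x⁻¹ * y ∈ E := by
  classical
  have hΛ : Subgroup.closure (P : Set G) ≤ Subgroup.closure (S : Set G) :=
    Subgroup.closure_mono (Finset.coe_subset.2 hPS)
  have hPcl : ∀ s ∈ P, s ∈ Subgroup.closure (P : Set G) := fun s hs => Subgroup.subset_closure hs
  have hScl : ∀ s ∈ S, s ∈ Subgroup.closure (S : Set G) := fun s hs => Subgroup.subset_closure hs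
  set B' : Set G := B ∪ {z | ∃ a ∈ B, ∃ s ∈ (P : Set G), z = a * s} with hB'
  have hB'b : Bd B' := hBd.union _ _ hBB (hBd.mul _ _ hBB (hBd.finite _ P.finite_toSet))
  have hB'S : ∀ z ∈ B', z ∈ Subgroup.closure (S : Set G) := by
    rintro z (hz | ⟨a, ha, s, hs, rfl⟩)
    · exact hΛ (hBP z hz)
    · exact Subgroup.mul_mem _ (hΛ (hBP a ha)) (hΛ (hPcl s hs))
  have hS₃ : Bd (Conj B' (S : Set G)) := hBd.conj hB'b (hBd.finite _ S.finite_toSet)
  have hS₃S : ∀ z ∈ Conj B' (S : Set G), z ∈ Subgroup.closure (S : Set G) := by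
    rintro z ⟨a, ha, s, hs, b, hb, rfl⟩
    exact Subgroup.mul_mem _ (Subgroup.mul_mem _ (hB'S a ha) (hScl s hs))
      (Subgroup.inv_mem _ (hB'S b hb))
  obtain ⟨t₁, ht₁⟩ := hB S
  obtain ⟨V₁, B₅, hB₅, hV₁c, hV₁b⟩ := ht₁ _ hS₃ hS₃S
  obtain ⟨N₃, hN₃⟩ := hC S B₅ hB₅
  -- the number of colours
  set t : ℕ := Fintype.card (Fin t₁ × (Fin N₃ → Bool)) with htdef
  let c : Fin t₁ × (Fin N₃ → Bool) ≃ Fin t := Fintype.equivFin _
  have ht0 : 0 < t := by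
    obtain ⟨i, _⟩ := hV₁c 1
    exact Fintype.card_pos_iff.2 ⟨(i, fun _ => true)⟩
  have htr : (0 : ℝ) < t := by exact_mod_cast ht0
  obtain ⟨g, E₂, hg, hl⟩ := hN S (1 / (4 * t)) (by positivity)
  set E₁ : Finset G := E₂.filter (· ∈ B) with hE₁
  set E : Finset G := E₁ ∪ Finset.image₂ (· * ·) E₁ P with hE
  have hEB' : ∀ z ∈ E, z ∈ B' := by
    intro z hz
    rw [hE, Finset.mem_union] at hz
    rcases hz with hz | hz
    · exact Or.inl (Finset.mem_filter.1 hz).2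
    · obtain ⟨a, ha, s, hs, rfl⟩ := Finset.mem_image₂.1 hz
      exact Or.inr ⟨a, (Finset.mem_filter.1 ha).2, s, hs, rfl⟩
  obtain ⟨S₂, hS₂⟩ : ∃ S₂ : Finset G, (S₂ : Set G) = Conj (E : Set G) (S : Set G) := by
    refine ⟨Finset.image₂ (fun (p : G × G) s => p.1 * s * p.2⁻¹) (E ×ˢ E) S, ?_⟩
    ext z
    constructor
    · intro hz
      obtain ⟨⟨a, b⟩, hab, s, hs, rfl⟩ := Finset.mem_image₂.1 (Finset.mem_coe.1 hz)
      rw [Finset.mem_product] at hab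
      exact ⟨a, hab.1, s, hs, b, hab.2, rfl⟩
    · rintro ⟨a, ha, s, hs, b, hb, rfl⟩
      exact Finset.mem_coe.2 (Finset.mem_image₂.2
        ⟨(a, b), Finset.mem_product.2 ⟨ha, hb⟩, s, hs, rfl⟩)
  have hS₂S₃ : (S₂ : Set G) ⊆ Conj B' (S : Set G) := by
    rw [hS₂]
    rintro z ⟨a, ha, s, hs, b, hb, rfl⟩
    exact ⟨a, hEB' a ha, s, hs, b, hEB' b hb, rfl⟩
  obtain ⟨h, E₃, hh, hhl⟩ := hN₃ S₂ (1 / 2) (by norm_num)
  -- the colours
  let V : Fin t → Set G := fun i =>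
    {x | x ∈ V₁ (c.symm i).1 ∧ ∀ j, decide (Even ⌊h x j⌋) = (c.symm i).2 j}
  have hVc : ∀ x, ∃ i, x ∈ V i := by
    intro x
    obtain ⟨i, hi⟩ := hV₁c x
    refine ⟨c (i, fun j => decide (Even ⌊h x j⌋)), ?_⟩
    simp only [V, Set.mem_setOf_eq, Equiv.symm_apply_apply]
    exact ⟨hi, fun j => trivial⟩
  have hVb : ∀ i, ∀ x ∈ V i, ∀ y, Chain (Conj (E : Set G) (S : Set G)) (fun b => b ∈ V i) x y →
      x⁻¹ * y ∈ E₃ := by
    intro i x hx y hxy
    rw [← hS₂] at hxy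
    have hR := hxy.rec' (R := fun b => b ∈ V i ∧
      Chain (Conj B' (S : Set G)) (fun b => b ∈ V₁ (c.symm i).1) x b ∧
      (∀ j, ⌊h b j⌋ = ⌊h x j⌋) ∧
      Chain {s | s ∈ S₂ ∧ s ∈ Subgroup.closure (S : Set G)}
        (fun b => x⁻¹ * b ∈ B₅ ∧ Near (h b) (h x) 1) x b)
      ⟨hx, Chain.refl _ _ _, fun _ => rfl, Chain.refl _ _ _⟩ (by
        rintro a b _ ⟨haV, hch1, hfl, hch2⟩ hs hbV
        have h1 : Chain (Conj B' (S : Set G)) (fun b => b ∈ V₁ (c.symm i).1) x b :=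
          hch1.step (hS₂S₃ hs) hbV.1
        have hfl' : ∀ j, ⌊h b j⌋ = ⌊h x j⌋ := by
          intro j
          rw [← hfl j]
          have h2 := hh a (a⁻¹ * b) hs j
          rw [mul_inv_cancel_left] at h2
          have h3 := haV.2 j
          have h4 := hbV.2 j
          rw [← h4] at h3
          have hp := decide_eq_decide.1 h3
          have q0 := abs_le.1 h2
          have q1 := Int.floor_le (h b j)
          have q2 := Int.lt_floor_add_one (h b j)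
          have q3 := Int.floor_le (h a j)
          have q4 := Int.lt_floor_add_one (h a j)
          have q5 : (⌊h b j⌋ : ℝ) < (⌊h a j⌋ : ℝ) + 2 := by linarith
          have q6 : (⌊h a j⌋ : ℝ) < (⌊h b j⌋ : ℝ) + 2 := by linarith
          have q7 : ⌊h b j⌋ < ⌊h a j⌋ + 2 := by exact_mod_cast q5
          have q8 : ⌊h a j⌋ < ⌊h b j⌋ + 2 := by exact_mod_cast q6
          rw [Int.even_iff, Int.even_iff] at hp
          omega
        refine ⟨hbV, h1, hfl', hch2.step ⟨hs, hS₃S _ (hS₂S₃ hs)⟩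
          ⟨hV₁b _ x hx.1 _ h1, fun j => ?_⟩⟩
        have q := Int.abs_sub_lt_one_of_floor_eq_floor (hfl' j)
        exact q.le)
    exact hhl x y hR.2.2.2
  obtain ⟨E₄, hE₄⟩ : ∃ E₄ : Finset G, ∀ e ∈ E, ∀ z ∈ E₃, ∀ e' ∈ E, e⁻¹ * z * e' ∈ E₄ := by
    refine ⟨Finset.image₂ (fun (p : G × G) z => p.1⁻¹ * z * p.2) (E ×ˢ E) E₃, ?_⟩
    intro e he z hz e' he'
    exact Finset.mem_image₂.2 ⟨(e, e'), Finset.mem_product.2 ⟨he, he'⟩, z, hz, rfl⟩
  refine ⟨Band V (E : Set G) g, E₂ ∪ E₄, ?_, ?_⟩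
  · intro x hx y hxy
    have h1 : x⁻¹ * y ∈ (E₂ : Set G) := by
      refine band_compl (V := V) (E := (E : Set G)) (E₁ := (E₂ : Set G)) (S := (S : Set G))
        (T := (P : Set G)) hg (Finset.coe_subset.2 hPS) (Subgroup.closure (P : Set G)) hPcl
        (fun x b => x⁻¹ * b ∈ B) (fun x => by rw [inv_mul_cancel]; exact hB1) ?_ ?_ (hVc x) hx hxy
      · intro x y hch
        exact hl x y hch
      · intro x a ha _ haB
        have h2 : x⁻¹ * a ∈ E₁ := Finset.mem_filter.2 ⟨ha, haB⟩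
        refine ⟨Finset.mem_coe.2 (Finset.mem_union_left _ h2), fun s hs => ?_⟩
        exact Finset.mem_coe.2 (Finset.mem_union_right _ (Finset.mem_image₂_of_mem h2 hs))
    exact Finset.mem_union_left _ h1
  · intro l x hx y hxy
    obtain ⟨i, e, he, e', he', hxV, hch⟩ := band_chain ht0 hg l hx hxy
    have h1 := hVb i _ hxV _ hch
    refine Finset.mem_union_right _ ?_
    have h2 := hE₄ e he _ h1 e' he'
    have h3 : e⁻¹ * ((x * e⁻¹)⁻¹ * (y * e'⁻¹)) * e' = x⁻¹ * y := by group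
    rw [h3] at h2
    exact h2

/-- the sets of the theorem -/
theorem exists_sets {G : Type*} [Group G] (h : TwoStage G) (T : Finset G) :
    ∃ N₁ : ℕ, ∀ P : Finset G, T ⊆ P → ∃ N₂ : ℕ, ∀ S : Finset G, P ⊆ S →
      ∃ (A : ℕ → Set G) (E : Finset G), (∀ x, ∃ j < 1 + N₁ + N₂, x ∈ A j) ∧
        (∀ x ∈ A 0, ∀ y, Chain (T : Set G) (fun b => b ∈ A 0) x y → x⁻¹ * y ∈ E) ∧
        (∀ j, 1 ≤ j → j < 1 + N₁ → ∀ x ∈ A j, ∀ y,
          Chain (P : Set G) (fun b => b ∈ A j) x y → x⁻¹ * y ∈ E) ∧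
        ∀ j, 1 + N₁ ≤ j → j < 1 + N₁ + N₂ → ∀ x ∈ A j, ∀ y,
          Chain (S : Set G) (fun b => b ∈ A j) x y → x⁻¹ * y ∈ E := by
  classical
  obtain ⟨Bd, hBd, hA, hB, hC⟩ := h
  obtain ⟨N₁, hN₁⟩ := hA T
  refine ⟨N₁, fun P hTP => ?_⟩
  obtain ⟨W, B, hBB, hBP, hB1, h0, hW⟩ := stage_one hBd hB T P hTP hN₁
  obtain ⟨N₂, hN₂⟩ := hC P B hBB
  refine ⟨N₂, fun S hPS => ?_⟩
  obtain ⟨Z, E, hE0, hZ⟩ := stage_two hBd hB hC P S hPS hBB hBP hB1 hN₂
  -- the sets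
  let A : ℕ → Set G := fun j =>
    {x | (j = 0 ∧ (∀ l, x ∉ W l) ∧ ∀ l, x ∉ Z l) ∨
      (∃ l : Fin N₁, j = 1 + l ∧ x ∈ W l ∧ ∀ l, x ∉ Z l) ∨
      ∃ l : Fin N₂, j = 1 + N₁ + l ∧ x ∈ Z l}
  have hA0 : ∀ x, x ∈ A 0 ↔ (∀ l, x ∉ W l) ∧ ∀ l, x ∉ Z l := by
    intro x
    constructor
    · rintro (h | ⟨l, hl, _⟩ | ⟨l, hl, _⟩)
      · exact h.2
      · omega
      · omega
    · intro h
      exact Or.inl ⟨rfl, h⟩
  have hA1 : ∀ (l : Fin N₁) x, x ∈ A (1 + l) ↔ x ∈ W l ∧ ∀ l, x ∉ Z l := by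
    intro l x
    constructor
    · rintro (h | ⟨l', hl, h⟩ | ⟨l', hl, _⟩)
      · omega
      · have : l' = l := Fin.ext (by omega)
        rw [this] at h
        exact h
      · have := l.2
        omega
    · intro h
      exact Or.inr (Or.inl ⟨l, rfl, h⟩)
  have hA2 : ∀ (l : Fin N₂) x, x ∈ A (1 + N₁ + l) ↔ x ∈ Z l := by
    intro l x
    constructor
    · rintro (h | ⟨l', hl, h⟩ | ⟨l', hl, h⟩)
      · omega
      · have := l'.2
        omega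
      · have : l' = l := Fin.ext (by omega)
        rw [this] at h
        exact h
    · intro h
      exact Or.inr (Or.inr ⟨l, rfl, h⟩)
  refine ⟨A, E, ?_, ?_, ?_, ?_⟩
  · intro x
    by_cases hz : ∀ l, x ∉ Z l
    · by_cases hw : ∀ l, x ∉ W l
      · exact ⟨0, by omega, (hA0 x).2 ⟨hw, hz⟩⟩
      · push Not at hw
        obtain ⟨l, hl⟩ := hw
        exact ⟨1 + l, by have := l.2; omega, (hA1 l x).2 ⟨hl, hz⟩⟩
    · push Not at hz
      obtain ⟨l, hl⟩ := hz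
      exact ⟨1 + N₁ + l, by have := l.2; omega, (hA2 l x).2 hl⟩
  · intro x hx y hxy
    rw [hA0] at hx
    refine hE0 x hx.2 y ?_
    have h1 := hxy.strengthen (R := fun b => Chain (T : Set G) (fun b => ∀ l, b ∉ W l) x b)
      (Chain.refl _ _ _) (by
        intro a b _ ha hs hb
        exact ha.step hs ((hA0 b).1 hb).1)
    refine h1.1.mono (fun s hs => Finset.coe_subset.2 hTP hs) ?_
    rintro b ⟨hb, hch⟩
    exact ⟨((hA0 b).1 hb).2, h0 x hx.1 b hch⟩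
  · intro j hj1 hj2 x hx y hxy
    obtain ⟨l, rfl⟩ : ∃ l : Fin N₁, j = 1 + l := ⟨⟨j - 1, by omega⟩, by simp only; omega⟩
    rw [hA1] at hx
    refine hE0 x hx.2 y ?_
    have h1 := hxy.strengthen (R := fun b => Chain (P : Set G) (fun b => b ∈ W l) x b)
      (Chain.refl _ _ _) (by
        intro a b _ ha hs hb
        exact ha.step hs ((hA1 l b).1 hb).1)
    refine h1.1.mono (fun s hs => hs) ?_
    rintro b ⟨hb, hch⟩
    exact ⟨((hA1 l b).1 hb).2, hW l x hx.1 b hch⟩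
  · intro j hj1 hj2 x hx y hxy
    obtain ⟨l, rfl⟩ : ∃ l : Fin N₂, j = 1 + N₁ + l :=
      ⟨⟨j - (1 + N₁), by omega⟩, by simp only; omega⟩
    rw [hA2] at hx
    exact hZ l x hx y (hxy.mono (fun s hs => hs) fun b hb => (hA2 l b).1 hb)

end Pool.Agent.Helper64.TS
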